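import Mathlib

set_option autoImplicit false

namespace Pool.Agent.Helper137.Core

open Finset Module

section Cover
variable {ι : Type*} [DecidableEq ι]

/-- Covering lemma: a submodular function with `|F| ≤ 2 r F` splits the ground set in two parts
on which `r` is at least the cardinality. -/
theorem cover (r : Finset ι → ℤ) (hsub : ∀ A B, r (A ∪ B) + r (A ∩ B) ≤ r A + r B)
    (h0 : r ∅ = 0) (N : Finset ι) (hN : ∀ F ⊆ N, (F.card : ℤ) ≤ r F + r F) :
    ∃ P Q : Finset ι, P ∪ Q = N ∧ Disjoint P Q ∧ (P.card : ℤ) ≤ r P ∧ (Q.card : ℤ) ≤ r Q := by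
  suffices H : ∀ k : ℕ, ∀ P Q : Finset ι, (P ∩ Q).card = k → P ∪ Q = N →
      (∀ F ⊆ N, (F.card : ℤ) ≤ r (F ∩ P) + r (F ∩ Q)) →
      ∃ P Q : Finset ι, P ∪ Q = N ∧ Disjoint P Q ∧ (P.card : ℤ) ≤ r P ∧ (Q.card : ℤ) ≤ r Q by
    refine H _ N N rfl (by simp) ?_
    intro F hF
    rw [inter_eq_left.mpr hF]
    exact hN F hF
  intro k
  induction k with
  | zero =>
    intro P Q hk hPQ hC
    have hd : P ∩ Q = ∅ := card_eq_zero.mp hk
    refine ⟨P, Q, hPQ, disjoint_iff_inter_eq_empty.mpr hd, ?_, ?_⟩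
    · have := hC P (hPQ ▸ subset_union_left)
      rw [inter_self, hd, h0] at this
      linarith
    · have := hC Q (hPQ ▸ subset_union_right)
      rw [inter_self, inter_comm, hd, h0] at this
      linarith
  | succ k ih =>
    intro P Q hk hPQ hC
    obtain ⟨i, hi⟩ : (P ∩ Q).Nonempty := card_pos.mp (by omega)
    have hiP : i ∈ P := (mem_inter.mp hi).1
    have hiQ : i ∈ Q := (mem_inter.mp hi).2
    by_cases h1 : ∀ F ⊆ N, (F.card : ℤ) ≤ r (F ∩ (P.erase i)) + r (F ∩ Q)
    · refine ih (P.erase i) Q ?_ ?_ h1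
      · rw [erase_inter, card_erase_of_mem hi]; omega
      · rw [← hPQ]
        ext x
        simp only [mem_union, mem_erase]
        constructor
        · rintro (⟨_, h⟩ | h)
          · exact Or.inl h
          · exact Or.inr h
        · rintro (h | h)
          · by_cases hx : x = i
            · subst hx; exact Or.inr hiQ
            · exact Or.inl ⟨hx, h⟩
          · exact Or.inr h
    · by_cases h2 : ∀ F ⊆ N, (F.card : ℤ) ≤ r (F ∩ P) + r (F ∩ (Q.erase i))
      · refine ih P (Q.erase i) ?_ ?_ h2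
        · rw [inter_erase, card_erase_of_mem hi]; omega
        · rw [← hPQ]
          ext x
          simp only [mem_union, mem_erase]
          constructor
          · rintro (h | ⟨_, h⟩)
            · exact Or.inl h
            · exact Or.inr h
          · rintro (h | h)
            · exact Or.inl h
            · by_cases hx : x = i
              · subst hx; exact Or.inl hiP
              · exact Or.inr ⟨hx, h⟩
      · exfalso
        push Not at h1 h2
        obtain ⟨E, hE, hE1⟩ := h1
        obtain ⟨F, hF, hF1⟩ := h2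
        have hiE : i ∈ E := by
          by_contra hcon
          have : E ∩ (P.erase i) = E ∩ P := by
            ext x
            simp only [mem_inter, mem_erase]
            constructor
            · rintro ⟨a, _, b⟩; exact ⟨a, b⟩
            · rintro ⟨a, b⟩
              exact ⟨a, fun hx => hcon (hx ▸ a), b⟩
          rw [this] at hE1
          have := hC E hE
          linarith
        have hiF : i ∈ F := by
          by_contra hcon
          have : F ∩ (Q.erase i) = F ∩ Q := by
            ext x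
            simp only [mem_inter, mem_erase]
            constructor
            · rintro ⟨a, _, b⟩; exact ⟨a, b⟩
            · rintro ⟨a, b⟩
              exact ⟨a, fun hx => hcon (hx ▸ a), b⟩
          rw [this] at hF1
          have := hC F hF
          linarith
        have s1 := hsub (E ∩ (P.erase i)) (F ∩ P)
        have s2 := hsub (E ∩ Q) (F ∩ (Q.erase i))
        have u1 : (E ∩ (P.erase i)) ∪ (F ∩ P) = (E ∪ F) ∩ P := by
          ext x
          simp only [mem_inter, mem_erase, mem_union]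
          constructor
          · rintro (⟨a, _, b⟩ | ⟨a, b⟩)
            · exact ⟨Or.inl a, b⟩
            · exact ⟨Or.inr a, b⟩
          · rintro ⟨a | a, b⟩
            · by_cases hx : x = i
              · subst hx; exact Or.inr ⟨hiF, b⟩
              · exact Or.inl ⟨a, hx, b⟩
            · exact Or.inr ⟨a, b⟩
        have i1 : (E ∩ (P.erase i)) ∩ (F ∩ P) = ((E ∩ F).erase i) ∩ P := by
          ext x
          simp only [mem_inter, mem_erase]
          tauto
        have u2 : (E ∩ Q) ∪ (F ∩ (Q.erase i)) = (E ∪ F) ∩ Q := by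
          ext x
          simp only [mem_inter, mem_erase, mem_union]
          constructor
          · rintro (⟨a, b⟩ | ⟨a, _, b⟩)
            · exact ⟨Or.inl a, b⟩
            · exact ⟨Or.inr a, b⟩
          · rintro ⟨a | a, b⟩
            · exact Or.inl ⟨a, b⟩
            · by_cases hx : x = i
              · subst hx; exact Or.inl ⟨hiE, b⟩
              · exact Or.inr ⟨a, hx, b⟩
        have i2 : (E ∩ Q) ∩ (F ∩ (Q.erase i)) = ((E ∩ F).erase i) ∩ Q := by
          ext x
          simp only [mem_inter, mem_erase]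
          tauto
        rw [u1, i1] at s1
        rw [u2, i2] at s2
        have c1 := hC (E ∪ F) (union_subset hE hF)
        have c2 := hC ((E ∩ F).erase i) ((erase_subset _ _).trans (inter_subset_left.trans hE))
        have hiEF : i ∈ E ∩ F := mem_inter.mpr ⟨hiE, hiF⟩
        have hcard : ((E ∪ F).card : ℤ) + (((E ∩ F).erase i).card : ℤ) = E.card + F.card - 1 := by
          have h3 := card_union_add_card_inter E F
          have h4 := card_erase_of_mem hiEF
          have h5 : 0 < (E ∩ F).card := card_pos.mpr ⟨i, hiEF⟩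
          omega
        have hE1' : r (E ∩ (P.erase i)) + r (E ∩ Q) + 1 ≤ (E.card : ℤ) := by linarith
        have hF1' : r (F ∩ P) + r (F ∩ (Q.erase i)) + 1 ≤ (F.card : ℤ) := by linarith
        linarith

end Cover

section Lin
variable {ι : Type*} [Fintype ι] [DecidableEq ι]

/-- The vectors of `L` vanishing on `F`. -/
def Lz (L : Submodule ℝ (ι → ℝ)) (F : Finset ι) : Submodule ℝ (ι → ℝ) where
  carrier := {y | y ∈ L ∧ ∀ i ∈ F, y i = 0}
  zero_mem' := ⟨L.zero_mem, fun _ _ => rfl⟩
  add_mem' := by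
    rintro a b ⟨ha, ha2⟩ ⟨hb, hb2⟩
    refine ⟨L.add_mem ha hb, fun i hi => ?_⟩
    simp [ha2 i hi, hb2 i hi]
  smul_mem' := by
    rintro c a ⟨ha, ha2⟩
    refine ⟨L.smul_mem c ha, fun i hi => ?_⟩
    simp [ha2 i hi]

lemma mem_Lz (L : Submodule ℝ (ι → ℝ)) (F : Finset ι) (y : ι → ℝ) :
    y ∈ Lz L F ↔ y ∈ L ∧ ∀ i ∈ F, y i = 0 := Iff.rfl

lemma Lz_empty (L : Submodule ℝ (ι → ℝ)) : Lz L ∅ = L := by
  ext y; simp [mem_Lz]

noncomputable def rk (L : Submodule ℝ (ι → ℝ)) (F : Finset ι) : ℤ :=
  (finrank ℝ L : ℤ) - finrank ℝ (Lz L F)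

lemma rk_empty (L : Submodule ℝ (ι → ℝ)) : rk L ∅ = 0 := by
  unfold rk
  rw [Lz_empty]
  ring

lemma rk_sub (L : Submodule ℝ (ι → ℝ)) (A B : Finset ι) :
    rk L (A ∪ B) + rk L (A ∩ B) ≤ rk L A + rk L B := by
  have h1 : Lz L A ⊓ Lz L B = Lz L (A ∪ B) := by
    ext y
    simp only [Submodule.mem_inf, mem_Lz, mem_union]
    constructor
    · rintro ⟨⟨a, b⟩, ⟨c, d⟩⟩
      exact ⟨a, fun i hi => hi.elim (b i) (d i)⟩
    · rintro ⟨a, b⟩
      exact ⟨⟨a, fun i hi => b i (Or.inl hi)⟩, ⟨a, fun i hi => b i (Or.inr hi)⟩⟩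
  have h2 : Lz L A ⊔ Lz L B ≤ Lz L (A ∩ B) := by
    refine sup_le ?_ ?_
    · rintro y ⟨a, b⟩
      exact ⟨a, fun i hi => b i (mem_inter.mp hi).1⟩
    · rintro y ⟨a, b⟩
      exact ⟨a, fun i hi => b i (mem_inter.mp hi).2⟩
  have h3 := Submodule.finrank_sup_add_finrank_inf_eq (Lz L A) (Lz L B)
  have h4 := Submodule.finrank_mono h2
  rw [h1] at h3
  simp only [rk]
  omega

lemma Lz_anti (L : Submodule ℝ (ι → ℝ)) {A B : Finset ι} (h : A ⊆ B) : Lz L B ≤ Lz L A := by
  rintro y ⟨a, b⟩
  exact ⟨a, fun i hi => b i (h hi)⟩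

lemma rk_le (L : Submodule ℝ (ι → ℝ)) (A : Finset ι) : rk L A ≤ finrank ℝ L := by
  simp only [rk]; omega

/-- Interpolation. -/
lemma interp (L : Submodule ℝ (ι → ℝ)) (E P : Finset ι)
    (h : (P.card : ℤ) ≤ rk L (E ∪ P) - rk L E) (u : ι → ℝ) :
    ∃ y ∈ L, (∀ i ∈ E, y i = 0) ∧ ∀ i ∈ P, y i = u i := by
  let ρ : (Lz L E) →ₗ[ℝ] (P → ℝ) :=
    { toFun := fun y i => (y : ι → ℝ) i
      map_add' := by intro a b; rfl
      map_smul' := by intro c a; rfl }
  have hker : finrank ℝ (LinearMap.ker ρ) ≤ finrank ℝ (Lz L (E ∪ P)) := by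
    let φ : LinearMap.ker ρ →ₗ[ℝ] (Lz L (E ∪ P)) :=
      { toFun := fun y => ⟨(y : Lz L E), by
          have h1 := y.1.2
          have h2 := y.2
          rw [LinearMap.mem_ker] at h2
          refine ⟨h1.1, fun i hi => ?_⟩
          rcases mem_union.mp hi with hi | hi
          · exact h1.2 i hi
          · exact congrFun h2 ⟨i, hi⟩⟩
        map_add' := by intro a b; rfl
        map_smul' := by intro c a; rfl }
    refine LinearMap.finrank_le_finrank_of_injective (f := φ) ?_
    intro a b hab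
    have : ((a : Lz L E) : ι → ℝ) = ((b : Lz L E) : ι → ℝ) :=
      congrArg (fun z : Lz L (E ∪ P) => (z : ι → ℝ)) hab
    exact Subtype.ext (Subtype.ext this)
  have hrn := LinearMap.finrank_range_add_finrank_ker ρ
  have hsurj : LinearMap.range ρ = ⊤ := by
    apply Submodule.eq_top_of_finrank_eq
    apply le_antisymm (Submodule.finrank_le _)
    have : finrank ℝ (P → ℝ) = P.card := by simp
    rw [this]
    simp only [rk] at h
    omega
  have hmem : (fun i : P => u i) ∈ LinearMap.range ρ := by rw [hsurj]; trivial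
  obtain ⟨y, hy⟩ := hmem
  refine ⟨y, y.2.1, y.2.2, fun i hi => ?_⟩
  exact congrFun hy ⟨i, hi⟩

/-- Injectivity: if `rk L P = finrank L` then elements of `L` are determined on `P`. -/
lemma inj_of_rk (L : Submodule ℝ (ι → ℝ)) (P : Finset ι)
    (h : (finrank ℝ L : ℤ) ≤ rk L P) (y : ι → ℝ) (hy : y ∈ L) (h0 : ∀ i ∈ P, y i = 0) : y = 0 := by
  have h1 : finrank ℝ (Lz L P) = 0 := by
    simp only [rk] at h; omega
  have h2 : Lz L P = ⊥ := Submodule.finrank_eq_zero.mp h1
  have h3 : y ∈ Lz L P := ⟨hy, h0⟩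
  rw [h2] at h3
  simpa using h3

/-- The property that we want. -/
def Good (L : Submodule ℝ (ι → ℝ)) (y : ι → ℝ) : Prop :=
  y ∈ L ∧ (∃ i, 0 < y i) ∧
    ∀ u : ι → ℝ, ∃ y' ∈ L, (∀ i, y i = 0 → y' i = 0) ∧ ∀ i, 0 < y i → y' i = u i

lemma exists_pos (L : Submodule ℝ (ι → ℝ)) (hL : ∀ y ∈ L, ∑ i, y i = 0)
    (y : ι → ℝ) (hy : y ∈ L) (j : ι) (hj : y j < 0) : ∃ i, 0 < y i := by
  by_contra hcon
  push Not at hcon
  have : ∑ i, y i < ∑ i : ι, (0 : ℝ) :=
    Finset.sum_lt_sum (fun i _ => hcon i) ⟨j, mem_univ j, hj⟩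
  rw [hL y hy] at this
  simp at this

/-- Case I. -/
lemma caseI (L : Submodule ℝ (ι → ℝ)) (hL : ∀ y ∈ L, ∑ i, y i = 0)
    (E : Finset ι) (hE : rk L E < finrank ℝ L)
    (hmax : ∀ F : Finset ι, (F.card : ℤ) - 2 * rk L F ≤ E.card - 2 * rk L E) :
    ∃ y, Good L y := by
  obtain ⟨P, Q, hPQ, hd, hP, hQ⟩ := cover (fun F => rk L (E ∪ F) - rk L E)
    (by
      intro A B
      have := rk_sub L (E ∪ A) (E ∪ B)
      have e1 : (E ∪ A) ∪ (E ∪ B) = E ∪ (A ∪ B) := by
        ext x; simp only [mem_union]; tauto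
      have e2 : (E ∪ A) ∩ (E ∪ B) = E ∪ (A ∩ B) := by
        ext x; simp only [mem_union, mem_inter]; tauto
      rw [e1, e2] at this
      linarith)
    (by simp) (univ \ E)
    (by
      intro F hF
      have hdis : Disjoint E F := by
        rw [disjoint_left]
        intro a ha hb
        exact (mem_sdiff.mp (hF hb)).2 ha
      have h1 := hmax (E ∪ F)
      rw [card_union_of_disjoint hdis] at h1
      push_cast at h1
      linarith)
  have hEuniv : ∃ i, i ∉ E := by
    by_contra hcon
    push Not at hcon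
    have h0 : finrank ℝ (Lz L E) = 0 := by
      rw [Submodule.finrank_eq_zero]
      rw [eq_bot_iff]
      rintro y ⟨_, hy2⟩
      simp only [Submodule.mem_bot]
      ext i
      exact hy2 i (hcon i)
    simp only [rk] at hE
    omega
  -- it is enough to treat the case `Q` nonempty
  have main : ∀ P Q : Finset ι, P ∪ Q = univ \ E → Disjoint P Q →
      (P.card : ℤ) ≤ rk L (E ∪ P) - rk L E → (Q.card : ℤ) ≤ rk L (E ∪ Q) - rk L E →
      Q.Nonempty → ∃ y, Good L y := by
    intro P Q hPQ hd hP hQ ⟨j, hj⟩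
    obtain ⟨y, hyL, hyE, hyQ⟩ := interp L E Q hQ (fun _ => -1)
    refine ⟨y, hyL, exists_pos L hL y hyL j (by rw [hyQ j hj]; norm_num), ?_⟩
    intro u
    obtain ⟨y', hy'L, hy'E, hy'P⟩ := interp L E P hP (fun i => if 0 < y i then u i else 0)
    refine ⟨y', hy'L, ?_, ?_⟩
    · intro i hi
      by_cases hiE : i ∈ E
      · exact hy'E i hiE
      · have : i ∈ P ∪ Q := by rw [hPQ]; simp [hiE]
        rcases mem_union.mp this with h | h
        · rw [hy'P i h, hi]; simp
        · rw [hyQ i h] at hi; norm_num at hi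
    · intro i hi
      by_cases hiE : i ∈ E
      · rw [hyE i hiE] at hi; exact absurd hi (lt_irrefl _)
      · have : i ∈ P ∪ Q := by rw [hPQ]; simp [hiE]
        rcases mem_union.mp this with h | h
        · rw [hy'P i h]; simp [hi]
        · rw [hyQ i h] at hi; norm_num at hi
  obtain ⟨i, hi⟩ := hEuniv
  have : i ∈ P ∪ Q := by rw [hPQ]; simp [hi]
  rcases mem_union.mp this with h | h
  · exact main Q P (by rw [union_comm]; exact hPQ) hd.symm hQ hP ⟨i, h⟩
  · exact main P Q hPQ hd hP hQ ⟨i, h⟩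

/-- If some `y ∈ L` is negative on `Q ∪ {i}` and `P` is free, then we are done. -/
lemma easy (L : Submodule ℝ (ι → ℝ)) (hL : ∀ y ∈ L, ∑ i, y i = 0)
    (P Q : Finset ι) (i : ι) (hPQ : P ∪ Q = univ.erase i)
    (hP : (P.card : ℤ) ≤ rk L P)
    (y : ι → ℝ) (hy : y ∈ L) (hyQ : ∀ j ∈ Q, y j < 0) (hyi : y i < 0) : ∃ y, Good L y := by
  refine ⟨y, hy, exists_pos L hL y hy i hyi, ?_⟩
  intro u
  obtain ⟨y', hy'L, -, hy'P⟩ := interp L ∅ P (by rw [empty_union, rk_empty]; linarith)
    (fun i => if 0 < y i then u i else 0)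
  refine ⟨y', hy'L, ?_, ?_⟩
  · intro j hj
    by_cases hji : j = i
    · subst hji; linarith
    · have : j ∈ P ∪ Q := by rw [hPQ]; simp [hji]
      rcases mem_union.mp this with h | h
      · rw [hy'P j h, hj]; simp
      · linarith [hyQ j h]
  · intro j hj
    by_cases hji : j = i
    · subst hji; linarith
    · have : j ∈ P ∪ Q := by rw [hPQ]; simp [hji]
      rcases mem_union.mp this with h | h
      · rw [hy'P j h]; simp [hj]
      · linarith [hyQ j h]

/-- Case II. -/
lemma caseII (L : Submodule ℝ (ι → ℝ)) (hL : ∀ y ∈ L, ∑ i, y i = 0) (hpos : 0 < finrank ℝ L)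
    (hcard : Fintype.card ι = 2 * finrank ℝ L + 1)
    (hF : ∀ F : Finset ι, rk L F < finrank ℝ L → (F.card : ℤ) ≤ 2 * rk L F) :
    ∃ y, Good L y := by
  have hne : 0 < Fintype.card ι := by omega
  obtain ⟨i⟩ : Nonempty ι := Fintype.card_pos_iff.mp hne
  have hcardN : ((univ.erase i : Finset ι).card : ℤ) = 2 * finrank ℝ L := by
    rw [card_erase_of_mem (mem_univ i), card_univ, hcard]; simp
  obtain ⟨P, Q, hPQ, hd, hP, hQ⟩ := cover (rk L) (rk_sub L) (rk_empty L) (univ.erase i)
    (by
      intro F hFs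
      rcases lt_or_ge (rk L F) (finrank ℝ L) with h | h
      · linarith [hF F h]
      · have h1 : (F.card : ℤ) ≤ (univ.erase i : Finset ι).card := by
          exact_mod_cast card_le_card hFs
        rw [hcardN] at h1
        linarith)
  have hsum : (P.card : ℤ) + Q.card = 2 * finrank ℝ L := by
    rw [← hcardN, ← hPQ, card_union_of_disjoint hd]; push_cast; ring
  have hPl := rk_le L P
  have hQl := rk_le L Q
  have hPc : (P.card : ℤ) = finrank ℝ L := by linarith
  have hQc : (Q.card : ℤ) = finrank ℝ L := by linarith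
  have hiP : i ∉ P := by
    intro h
    have : i ∈ P ∪ Q := mem_union_left _ h
    rw [hPQ] at this
    simp at this
  have hiQ : i ∉ Q := by
    intro h
    have : i ∈ P ∪ Q := mem_union_right _ h
    rw [hPQ] at this
    simp at this
  by_cases hA : ∃ y ∈ L, (∀ j ∈ Q, y j < 0) ∧ y i < 0
  · obtain ⟨y, hy, hyQ, hyi⟩ := hA
    exact easy L hL P Q i hPQ hP y hy hyQ hyi
  by_cases hB : ∃ y ∈ L, (∀ j ∈ P, y j < 0) ∧ y i < 0
  · obtain ⟨y, hy, hyP, hyi⟩ := hB
    exact easy L hL Q P i (by rw [union_comm]; exact hPQ) hQ y hy hyP hyi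
  push Not at hA hB
  -- an element equal to -1 on Q
  obtain ⟨y, hyL, -, hyQ⟩ := interp L ∅ Q (by rw [empty_union, rk_empty]; linarith) (fun _ => -1)
  have hyi0 : 0 ≤ y i := hA y hyL (fun j hj => by rw [hyQ j hj]; norm_num)
  -- i is not a loop
  have hloop : ∃ z ∈ L, z i < 0 := by
    by_contra hcon
    push Not at hcon
    have hz : ∀ z ∈ L, z i = 0 := by
      intro z hz
      have h1 := hcon z hz
      have h2 := hcon (-z) (L.neg_mem hz)
      simp only [Pi.neg_apply] at h2
      linarith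
    have hLz : Lz L {i} = L := by
      ext w
      simp only [mem_Lz, mem_singleton, forall_eq]
      exact ⟨fun h => h.1, fun h => ⟨h, hz w h⟩⟩
    have hr : rk L {i} = 0 := by
      unfold rk
      rw [hLz]
      ring
    have := hF {i} (by rw [hr]; exact_mod_cast hpos)
    rw [hr] at this
    simp at this
  have hyi : 0 < y i := by
    rcases lt_or_eq_of_le hyi0 with h | h
    · exact h
    · exfalso
      obtain ⟨z, hz, hzi⟩ := hloop
      -- choose ε small
      have hex : ∃ ε : ℝ, 0 < ε ∧ ∀ j ∈ Q, ε * z j < 1 := by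
        refine ⟨1 / (1 + ∑ j, |z j|), ?_, ?_⟩
        · have : 0 ≤ ∑ j, |z j| := Finset.sum_nonneg (fun j _ => abs_nonneg _)
          positivity
        · intro j _
          have h1 : |z j| ≤ ∑ j, |z j| := Finset.single_le_sum (f := fun j => |z j|)
            (fun j _ => abs_nonneg _) (mem_univ j)
          have h2 : z j ≤ |z j| := le_abs_self _
          have h3 : 0 ≤ ∑ j, |z j| := Finset.sum_nonneg (fun j _ => abs_nonneg _)
          rw [div_mul_eq_mul_div, one_mul, div_lt_one (by positivity)]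
          linarith
      obtain ⟨ε, hε, hεQ⟩ := hex
      have := hA (y + ε • z) (L.add_mem hyL (L.smul_mem ε hz)) (by
        intro j hj
        simp only [Pi.add_apply, Pi.smul_apply, smul_eq_mul]
        rw [hyQ j hj]
        linarith [hεQ j hj])
      simp only [Pi.add_apply, Pi.smul_apply, smul_eq_mul] at this
      rw [← h] at this
      have h5 : ε * z i < 0 := mul_neg_of_pos_of_neg hε hzi
      linarith
  -- dual basis on P
  have hbasis : ∀ j : ι, ∃ e ∈ L, ∀ l ∈ P, e l = if l = j then 1 else 0 := by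
    intro j
    obtain ⟨e, heL, -, he⟩ := interp L ∅ P (by rw [empty_union, rk_empty]; linarith)
      (fun l => if l = j then 1 else 0)
    exact ⟨e, heL, he⟩
  choose e heL he using hbasis
  have hrep : ∀ z ∈ L, z = ∑ j ∈ P, z j • e j := by
    intro z hz
    have h1 : z - ∑ j ∈ P, z j • e j = 0 := by
      apply inj_of_rk L P (by linarith)
      · exact L.sub_mem hz (L.sum_mem (fun j _ => L.smul_mem _ (heL j)))
      · intro l hl
        simp only [Pi.sub_apply, Finset.sum_apply, Pi.smul_apply, smul_eq_mul]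
        rw [Finset.sum_congr rfl (fun j _ => by rw [he j l hl])]
        simp [hl]
    exact sub_eq_zero.mp h1
  have hei : ∀ j ∈ P, e j i ≤ 0 := by
    intro j hj
    by_contra hcon
    push Not at hcon
    let w : ι → ℝ := ∑ l ∈ P, e l
    have hwL : w ∈ L := L.sum_mem (fun l _ => heL l)
    have hwP : ∀ l ∈ P, w l = 1 := by
      intro l hl
      simp only [w, Finset.sum_apply]
      rw [Finset.sum_congr rfl (fun j _ => he j l hl)]
      simp [hl]
    let T : ℝ := (|w i| + 1) / e j i
    have hT : 0 < T := by positivity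
    have := hB (-w - T • e j) (L.sub_mem (L.neg_mem hwL) (L.smul_mem _ (heL j))) (by
      intro l hl
      simp only [Pi.sub_apply, Pi.neg_apply, Pi.smul_apply, smul_eq_mul]
      rw [hwP l hl, he j l hl]
      split_ifs
      · linarith
      · linarith)
    simp only [Pi.sub_apply, Pi.neg_apply, Pi.smul_apply, smul_eq_mul] at this
    have h6 : T * e j i = |w i| + 1 := by
      simp only [T]; field_simp
    rw [h6] at this
    have h7 : -w i ≤ |w i| := neg_le_abs _
    linarith
  have hex : ∃ j ∈ P, y j < 0 ∧ e j i < 0 := by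
    by_contra hcon
    push Not at hcon
    have h1 : y i = ∑ j ∈ P, y j * e j i := by
      have := congrFun (hrep y hyL) i
      simpa [Finset.sum_apply] using this
    have h2 : ∑ j ∈ P, y j * e j i ≤ 0 := by
      apply Finset.sum_nonpos
      intro j hj
      rcases lt_or_ge (y j) 0 with h | h
      · have h3 := hcon j hj h
        have h4 := hei j hj
        have : e j i = 0 := le_antisymm h4 h3
        rw [this]; simp
      · exact mul_nonpos_of_nonneg_of_nonpos h (hei j hj)
    linarith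
  obtain ⟨j, hj, hyj, heji⟩ := hex
  refine ⟨y, hyL, ⟨i, hyi⟩, ?_⟩
  intro u
  obtain ⟨v, hvL, -, hvP⟩ := interp L ∅ P (by rw [empty_union, rk_empty]; linarith)
    (fun l => if 0 < y l then u l else 0)
  let t : ℝ := (u i - v i) / e j i
  refine ⟨v + t • e j, L.add_mem hvL (L.smul_mem _ (heL j)), ?_, ?_⟩
  · intro l hl
    have hli : l ≠ i := by rintro rfl; linarith
    have hm : l ∈ P ∪ Q := by rw [hPQ]; simp [hli]
    rcases mem_union.mp hm with h | h
    · have hlj : l ≠ j := by rintro rfl; linarith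
      simp only [Pi.add_apply, Pi.smul_apply, smul_eq_mul]
      rw [hvP l h, he j l h, hl]
      simp [hlj]
    · rw [hyQ l h] at hl; norm_num at hl
  · intro l hl
    by_cases hli : l = i
    · subst hli
      simp only [Pi.add_apply, Pi.smul_apply, smul_eq_mul, t]
      have : e j l ≠ 0 := ne_of_lt heji
      field_simp
      ring
    · have hm : l ∈ P ∪ Q := by rw [hPQ]; simp [hli]
      rcases mem_union.mp hm with h | h
      · have hlj : l ≠ j := by rintro rfl; linarith
        simp only [Pi.add_apply, Pi.smul_apply, smul_eq_mul]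
        rw [hvP l h, he j l h]
        simp [hlj, hl]
      · rw [hyQ l h] at hl; norm_num at hl

/-- Core theorem. -/
theorem core (L : Submodule ℝ (ι → ℝ)) (hL : ∀ y ∈ L, ∑ i, y i = 0) (hpos : 0 < finrank ℝ L)
    (hcard : Fintype.card ι ≤ 2 * finrank ℝ L + 1) : ∃ y, Good L y := by
  obtain ⟨E, -, hE⟩ := Finset.exists_max_image (univ : Finset (Finset ι))
    (fun F => (F.card : ℤ) - 2 * rk L F) ⟨∅, mem_univ _⟩
  by_cases hI : ∃ E : Finset ι, rk L E < finrank ℝ L ∧
      ∀ F : Finset ι, (F.card : ℤ) - 2 * rk L F ≤ E.card - 2 * rk L E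
  · obtain ⟨E, h1, h2⟩ := hI
    exact caseI L hL E h1 h2
  · push Not at hI
    have hEr : (finrank ℝ L : ℤ) ≤ rk L E := by
      by_contra hcon
      push Not at hcon
      obtain ⟨F, hF⟩ := hI E hcon
      have := hE F (mem_univ _)
      linarith
    have hEr' : rk L E = finrank ℝ L := le_antisymm (rk_le L E) hEr
    obtain ⟨F, hF⟩ := hI ∅ (by rw [rk_empty]; exact_mod_cast hpos)
    rw [rk_empty] at hF
    simp only [card_empty, Nat.cast_zero, mul_zero, sub_zero] at hF
    have h1 := hE F (mem_univ _)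
    have h2 : (E.card : ℤ) ≤ Fintype.card ι := by exact_mod_cast card_le_univ E
    have hc : (Fintype.card ι : ℤ) ≤ 2 * finrank ℝ L + 1 := by exact_mod_cast hcard
    refine caseII L hL hpos (by
      have : (Fintype.card ι : ℤ) = 2 * finrank ℝ L + 1 := by
        apply le_antisymm hc
        simp only [hEr'] at h1
        linarith
      exact_mod_cast this) ?_
    intro G hG
    obtain ⟨H, hH⟩ := hI G hG
    have h3 := hE H (mem_univ _)
    simp only [hEr'] at h3
    linarith

end Lin

end Pool.Agent.Helper137.Core
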