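import Mathlib
import Pool.Agent.Helper137.Core
import Pool.Agent.Helper137.KL

set_option autoImplicit false

namespace Pool.Agent.Helper137.Dep

open Finset Module Filter Topology Pool.Agent.Helper137.Core Pool.Agent.Helper137.KL

variable {E : Type} [NormedAddCommGroup E] [NormedSpace ℝ E]

/-- The linear map sending weights on `S` to total weight and weighted sum. -/
noncomputable def depMap (S : Finset E) : (S → ℝ) →ₗ[ℝ] ℝ × E where
  toFun y := (∑ i, y i, ∑ i, y i • (i : E))
  map_add' := by
    intro a b
    simp [Finset.sum_add_distrib, add_smul]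
  map_smul' := by
    intro c a
    simp [Finset.mul_sum, Finset.smul_sum, mul_smul]

/-- The space of affine dependencies. -/
noncomputable def dep (S : Finset E) : Submodule ℝ (S → ℝ) := LinearMap.ker (depMap S)

lemma mem_dep (S : Finset E) (y : S → ℝ) :
    y ∈ dep S ↔ ∑ i, y i = 0 ∧ ∑ i, y i • (i : E) = 0 := by
  simp [dep, depMap, Prod.ext_iff]

/-- `S` splits into two disjoint parts whose convex hulls meet in a set of dimension at least `k`. -/
def Div2 [DecidableEq E] (k : ℕ) (S : Finset E) : Prop :=
  ∃ A B : Finset E, A ∪ B = S ∧ Disjoint A B ∧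
    (convexHull ℝ (A : Set E) ∩ convexHull ℝ (B : Set E)).Nonempty ∧
    k ≤ finrank ℝ (vectorSpan ℝ (convexHull ℝ (A : Set E) ∩ convexHull ℝ (B : Set E)))

variable [DecidableEq E]

/-- The points with coefficients in `P`. -/
noncomputable def pts (S : Finset E) (P : Finset S) : Finset E := P.image (fun i : S => (i : E))

lemma mem_pts (S : Finset E) (P : Finset S) (x : E) :
    x ∈ pts S P ↔ ∃ i ∈ P, (i : E) = x := by
  simp only [pts, mem_image]

lemma comb_mem (S : Finset E) (P : Finset S) (z : S → ℝ) (h1 : ∀ i ∈ P, 0 ≤ z i)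
    (h2 : ∑ i ∈ P, z i = 1) :
    (∑ i ∈ P, z i • (i : E)) ∈ convexHull ℝ (pts S P : Set E) := by
  apply (convex_convexHull ℝ _).sum_mem h1 h2
  intro i hi
  apply subset_convexHull
  rw [mem_coe, mem_pts]
  exact ⟨i, hi, rfl⟩

theorem geoDim [FiniteDimensional ℝ E] (S : Finset E) (k : ℕ) (hk : 1 ≤ k)
    (y : S → ℝ) (hy : y ∈ dep S) (hnz : ∀ i, y i ≠ 0)
    (hr : (finrank ℝ (dep S) : ℤ) + k + 1 ≤ rk (dep S) (pos y) + rk (dep S) (neg y)) :
    Div2 k S := by
  classical
  set L := dep S with hL
  set A : Finset S := pos y with hA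
  set B : Finset S := neg y with hB
  have hAB : A ∪ B = univ := by
    ext i
    simp only [mem_union, hA, hB, KL.mem_pos, KL.mem_neg, mem_univ, iff_true]
    rcases lt_or_gt_of_ne (hnz i) with h | h
    · right; exact h
    · left; exact h
  have hd : Disjoint A B := by
    rw [disjoint_left]
    intro i hi hj
    rw [hA, KL.mem_pos] at hi
    rw [hB, KL.mem_neg] at hj
    linarith
  have hsum : ∀ z ∈ L, ∑ i ∈ A, z i + ∑ i ∈ B, z i = 0 := by
    intro z hz
    rw [← sum_union hd, hAB]
    exact ((mem_dep S z).mp hz).1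
  have hsum2 : ∀ z ∈ L, ∑ i ∈ A, z i • (i : E) + ∑ i ∈ B, z i • (i : E) = 0 := by
    intro z hz
    rw [← sum_union hd, hAB]
    exact ((mem_dep S z).mp hz).2
  have hAne : A.Nonempty := by
    by_contra hc
    rw [not_nonempty_iff_eq_empty] at hc
    rw [hc, rk_empty] at hr
    have := rk_le L B
    omega
  set s : ℝ := ∑ i ∈ A, y i with hs
  have hspos : 0 < s := by
    apply Finset.sum_pos
    · intro i hi
      exact (KL.mem_pos y i).mp hi
    · exact hAne
  set K := convexHull ℝ (pts S A : Set E) ∩ convexHull ℝ (pts S B : Set E) with hK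
  have memK : ∀ z ∈ L, (∀ i ∈ A, 0 ≤ z i) → (∀ i ∈ B, z i ≤ 0) → ∑ i ∈ A, z i = 1 →
      (∑ i ∈ A, z i • (i : E)) ∈ K := by
    intro z hz h1 h2 h3
    refine ⟨comb_mem S A z h1 h3, ?_⟩
    have e : (∑ i ∈ A, z i • (i : E)) = ∑ i ∈ B, (-z) i • (i : E) := by
      simp only [Pi.neg_apply, neg_smul, Finset.sum_neg_distrib]
      exact eq_neg_of_add_eq_zero_left (hsum2 z hz)
    rw [e]
    apply comb_mem S B (-z)
    · intro i hi
      have := h2 i hi
      simpa using this
    · have := hsum z hz
      simp only [Pi.neg_apply, Finset.sum_neg_distrib]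
      linarith
  set q : E := ∑ i ∈ A, (s⁻¹ • y) i • (i : E) with hq
  have hqK : q ∈ K := by
    apply memK (s⁻¹ • y) (L.smul_mem _ hy)
    · intro i hi
      have := (KL.mem_pos y i).mp hi
      simp only [Pi.smul_apply, smul_eq_mul]
      positivity
    · intro i hi
      have := (KL.mem_neg y i).mp hi
      simp only [Pi.smul_apply, smul_eq_mul]
      exact mul_nonpos_of_nonneg_of_nonpos (by positivity) this.le
    · simp only [Pi.smul_apply, smul_eq_mul]
      rw [← Finset.mul_sum]
      exact inv_mul_cancel₀ hspos.ne'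
  -- directions
  have key : ∀ z ∈ L, ∑ i ∈ A, z i = 0 → ∑ i ∈ A, z i • (i : E) ∈ vectorSpan ℝ K := by
    intro z hz hz0
    have hev : ∀ᶠ ε in 𝓝[>] (0 : ℝ), ∀ i : S, 0 < y i * (s⁻¹ * y i + ε * z i) := by
      rw [Filter.eventually_all]
      intro i
      have hc : Tendsto (fun ε : ℝ => y i * (s⁻¹ * y i + ε * z i)) (𝓝[>] 0)
          (𝓝 (y i * (s⁻¹ * y i + 0 * z i))) := by
        apply Tendsto.mono_left _ nhdsWithin_le_nhds
        apply Continuous.tendsto
        fun_prop
      have hp : 0 < y i * (s⁻¹ * y i + 0 * z i) := by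
        have : y i * (s⁻¹ * y i + 0 * z i) = s⁻¹ * (y i * y i) := by ring
        rw [this]
        exact mul_pos (inv_pos.mpr hspos) (mul_self_pos.mpr (hnz i))
      exact hc.eventually (lt_mem_nhds hp)
    have hpos' : ∀ᶠ ε in 𝓝[>] (0 : ℝ), 0 < ε := eventually_mem_nhdsWithin
    obtain ⟨ε, hε, hε0⟩ := (hev.and hpos').exists
    have hmem : (∑ i ∈ A, (s⁻¹ • y + ε • z) i • (i : E)) ∈ K := by
      apply memK _ (L.add_mem (L.smul_mem _ hy) (L.smul_mem _ hz))
      · intro i hi
        have h1 := (KL.mem_pos y i).mp hi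
        have h2 := hε i
        simp only [Pi.add_apply, Pi.smul_apply, smul_eq_mul]
        exact ((pos_iff_pos_of_mul_pos h2).mp h1).le
      · intro i hi
        have h1 := (KL.mem_neg y i).mp hi
        have h2 := hε i
        simp only [Pi.add_apply, Pi.smul_apply, smul_eq_mul]
        exact ((neg_iff_neg_of_mul_pos h2).mp h1).le
      · simp only [Pi.add_apply, Pi.smul_apply, smul_eq_mul, Finset.sum_add_distrib,
          ← Finset.mul_sum, hz0]
        rw [← hs, inv_mul_cancel₀ hspos.ne']
        ring
    have hd2 := vsub_mem_vectorSpan ℝ hmem hqK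
    have e : (∑ i ∈ A, (s⁻¹ • y + ε • z) i • (i : E)) -ᵥ q = ε • ∑ i ∈ A, z i • (i : E) := by
      rw [vsub_eq_sub, hq, Finset.smul_sum, ← Finset.sum_sub_distrib]
      apply Finset.sum_congr rfl
      intro i _
      simp only [Pi.add_apply, Pi.smul_apply, smul_eq_mul]
      module
    rw [e] at hd2
    have := (vectorSpan ℝ K).smul_mem ε⁻¹ hd2
    rwa [smul_smul, inv_mul_cancel₀ hε0.ne', one_smul] at this
  -- dimension count
  let σ : L →ₗ[ℝ] ℝ :=
    { toFun := fun z => ∑ i ∈ A, (z : S → ℝ) i
      map_add' := by intro a b; simp [Finset.sum_add_distrib]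
      map_smul' := by intro c a; simp [Finset.mul_sum] }
  let K0 : Submodule ℝ (S → ℝ) :=
    { carrier := {z | z ∈ L ∧ ∑ i ∈ A, z i = 0}
      zero_mem' := ⟨L.zero_mem, by simp⟩
      add_mem' := by
        rintro a b ⟨ha, ha2⟩ ⟨hb, hb2⟩
        refine ⟨L.add_mem ha hb, ?_⟩
        simp only [Pi.add_apply, Finset.sum_add_distrib, ha2, hb2, add_zero]
      smul_mem' := by
        rintro c a ⟨ha, ha2⟩
        refine ⟨L.smul_mem c ha, ?_⟩
        simp only [Pi.smul_apply, smul_eq_mul, ← Finset.mul_sum, ha2, mul_zero] }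
  let τ : K0 →ₗ[ℝ] E :=
    { toFun := fun z => ∑ i ∈ A, (z : S → ℝ) i • (i : E)
      map_add' := by
        intro a b
        simp [Finset.sum_add_distrib, add_smul]
      map_smul' := by
        intro c a
        simp [Finset.smul_sum, mul_smul] }
  have d1 : finrank ℝ L ≤ finrank ℝ K0 + 1 := by
    have h1 := LinearMap.finrank_range_add_finrank_ker σ
    have h2 : finrank ℝ (LinearMap.range σ) ≤ 1 := by
      have := Submodule.finrank_le (LinearMap.range σ)
      rwa [finrank_self] at this
    have h3 : finrank ℝ (LinearMap.ker σ) ≤ finrank ℝ K0 := by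
      let φ : LinearMap.ker σ →ₗ[ℝ] K0 :=
        { toFun := fun z => ⟨((z : L) : S → ℝ), z.1.2, z.2⟩
          map_add' := by intro a b; rfl
          map_smul' := by intro c a; rfl }
      refine LinearMap.finrank_le_finrank_of_injective (f := φ) ?_
      intro a b hab
      have : (((a : L)) : S → ℝ) = ((b : L) : S → ℝ) :=
        congrArg (fun z : K0 => (z : S → ℝ)) hab
      exact Subtype.ext (Subtype.ext this)
    omega
  have restA : ∀ z ∈ L, ∑ i ∈ A, z i = 0 → ∑ i ∈ A, z i • (i : E) = 0 →
      (fun i => if i ∈ A then z i else 0) ∈ Lz L B ∧ (fun i => if i ∈ A then 0 else z i) ∈ Lz L A := by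
    intro z hz h1 h2
    have m1 : (fun i => if i ∈ A then z i else 0) ∈ L := by
      rw [hL, mem_dep]
      constructor
      · rw [Finset.sum_ite_mem, univ_inter]
        exact h1
      · simp only [ite_smul, zero_smul]
        rw [Finset.sum_ite_mem, univ_inter]
        exact h2
    have m2 : (fun i => if i ∈ A then 0 else z i) ∈ L := by
      have : (fun i => if i ∈ A then 0 else z i) = z - (fun i => if i ∈ A then z i else 0) := by
        ext i
        simp only [Pi.sub_apply]
        split_ifs <;> simp
      rw [this]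
      exact L.sub_mem hz m1
    refine ⟨⟨m1, ?_⟩, ⟨m2, ?_⟩⟩
    · intro i hi
      have : i ∉ A := fun h => (disjoint_left.mp hd) h hi
      simp [this]
    · intro i hi
      simp [hi]
  have d2 : finrank ℝ (LinearMap.ker τ) ≤ finrank ℝ (Lz L B) + finrank ℝ (Lz L A) := by
    let φ : LinearMap.ker τ →ₗ[ℝ] (Lz L B) × (Lz L A) :=
      { toFun := fun z =>
          (⟨fun i => if i ∈ A then ((z : K0) : S → ℝ) i else 0,
            (restA _ z.1.2.1 z.1.2.2 (LinearMap.mem_ker.mp z.2)).1⟩,
           ⟨fun i => if i ∈ A then 0 else ((z : K0) : S → ℝ) i,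
            (restA _ z.1.2.1 z.1.2.2 (LinearMap.mem_ker.mp z.2)).2⟩)
        map_add' := by
          intro a b
          apply Prod.ext
          · apply Subtype.ext
            ext i
            simp only [Submodule.coe_add, Prod.fst_add, Pi.add_apply]
            split_ifs <;> simp
          · apply Subtype.ext
            ext i
            simp only [Submodule.coe_add, Prod.snd_add, Pi.add_apply]
            split_ifs <;> simp
        map_smul' := by
          intro c a
          apply Prod.ext
          · apply Subtype.ext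
            ext i
            simp
          · apply Subtype.ext
            ext i
            simp }
    have hinj : Function.Injective φ := by
      intro a b hab
      have h1 := congrArg (fun p => ((p.1 : Lz L B) : S → ℝ)) hab
      have h2 := congrArg (fun p => ((p.2 : Lz L A) : S → ℝ)) hab
      apply Subtype.ext
      apply Subtype.ext
      ext i
      by_cases hi : i ∈ A
      · have := congrFun h1 i
        simpa [φ, hi] using this
      · have := congrFun h2 i
        simpa [φ, hi] using this
    have := LinearMap.finrank_le_finrank_of_injective hinj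
    rwa [Module.finrank_prod] at this
  have d3 := LinearMap.finrank_range_add_finrank_ker τ
  have d4 : finrank ℝ (LinearMap.range τ) ≤ finrank ℝ (vectorSpan ℝ K) := by
    apply Submodule.finrank_mono
    rintro _ ⟨z, rfl⟩
    exact key _ z.2.1 z.2.2
  refine ⟨pts S A, pts S B, ?_, ?_, ⟨q, hqK⟩, ?_⟩
  · rw [pts, pts, ← image_union, hAB]
    ext x
    simp
  · rw [disjoint_left]
    intro x hx hx'
    obtain ⟨i, hi, rfl⟩ := (mem_pts S A x).mp hx
    obtain ⟨j, hj, hji⟩ := (mem_pts S B _).mp hx'
    have : j = i := Subtype.ext hji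
    subst this
    exact (disjoint_left.mp hd) hi hj
  · rw [← hK]
    simp only [rk] at hr
    omega

end Pool.Agent.Helper137.Dep
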