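import Mathlib
import Pool.Agent.Helper137.Core
import Pool.Agent.Helper137.KL
import Pool.Agent.Helper137.Dep

set_option autoImplicit false

namespace Pool.Agent.Helper137.Rec

open Finset Module Filter Topology Pool.Agent.Helper137.Core Pool.Agent.Helper137.KL
  Pool.Agent.Helper137.Dep

variable {E : Type} [NormedAddCommGroup E] [NormedSpace ℝ E]

/-- Every subset with at most `k + 1` points is affinely independent. -/
def KIndep (k : ℕ) (S : Finset E) : Prop :=
  ∀ T ⊆ S, T.card ≤ k + 1 → AffineIndependent ℝ (fun x : T => (x : E))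

lemma KIndep.mono {k : ℕ} {S T : Finset E} (h : KIndep k S) (hT : T ⊆ S) : KIndep k T :=
  fun U hU => h U (hU.trans hT)

variable [DecidableEq E]

lemma Div2.mono [FiniteDimensional ℝ E] {k : ℕ} {S T : Finset E} (h : Div2 k T) (hT : T ⊆ S) :
    Div2 k S := by
  obtain ⟨A, B, hAB, hd, hne, hk⟩ := h
  have hsub : convexHull ℝ (A : Set E) ∩ convexHull ℝ (B : Set E) ⊆
      convexHull ℝ ((A ∪ (S \ T) : Finset E) : Set E) ∩ convexHull ℝ (B : Set E) := by
    apply Set.inter_subset_inter_left
    apply convexHull_mono
    rw [coe_union]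
    exact Set.subset_union_left
  refine ⟨A ∪ (S \ T), B, ?_, ?_, hne.mono hsub, hk.trans ?_⟩
  · ext x
    have h1 : x ∈ A ∪ B ↔ x ∈ T := by rw [hAB]
    rw [mem_union] at h1
    simp only [mem_union, Finset.mem_sdiff]
    constructor
    · rintro ((h | h) | h)
      · exact hT (h1.mp (Or.inl h))
      · exact h.1
      · exact hT (h1.mp (Or.inr h))
    · intro hx
      by_cases hxT : x ∈ T
      · rcases h1.mpr hxT with h | h
        · left; left; exact h
        · right; exact h
      · left; right; exact ⟨hx, hxT⟩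
  · rw [disjoint_union_left]
    refine ⟨hd, ?_⟩
    rw [disjoint_left]
    intro x hx hxB
    rw [Finset.mem_sdiff] at hx
    apply hx.2
    rw [← hAB]
    exact mem_union_right _ hxB
  · exact Submodule.finrank_mono (vectorSpan_mono ℝ hsub)

lemma hmd_of_KIndep (k : ℕ) (S : Finset E) (h : KIndep k S) :
    ∀ z ∈ dep S, ∀ P : Finset S, P.card ≤ k + 1 → (∀ i, i ∉ P → z i = 0) → z = 0 := by
  intro z hz P hP hz0
  have hcard : (pts S P).card ≤ k + 1 := card_image_le.trans hP
  have hsub : pts S P ⊆ S := by
    intro x hx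
    obtain ⟨i, _, rfl⟩ := (mem_pts S P x).mp hx
    exact i.2
  have hai := h (pts S P) hsub hcard
  let f : P ↪ (pts S P : Finset E) :=
    ⟨fun i => ⟨((i : S) : E), (mem_pts S P _).mpr ⟨i, i.2, rfl⟩⟩, by
      intro a b hab
      apply Subtype.ext
      apply Subtype.ext
      exact congrArg (fun x : (pts S P : Finset E) => (x : E)) hab⟩
  have hai2 := hai.comp_embedding f
  rw [affineIndependent_iff] at hai2
  obtain ⟨hz1, hz2⟩ := (mem_dep S z).mp hz
  have e1 : ∑ i ∈ P, z i = ∑ i, z i := by
    apply sum_subset (subset_univ _)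
    intro i _ hi
    exact hz0 i hi
  have e2 : ∑ i ∈ P, z i • (i : E) = ∑ i, z i • (i : E) := by
    apply sum_subset (subset_univ _)
    intro i _ hi
    rw [hz0 i hi, zero_smul]
  have := hai2 univ (fun i => z i) (by
      rw [← e1] at hz1
      rw [← hz1, ← Finset.sum_coe_sort P (fun i => z i)])
    (by
      rw [← e2] at hz2
      rw [← hz2, ← Finset.sum_coe_sort P (fun i => z i • (i : E))]
      rfl)
  ext i
  by_cases hi : i ∈ P
  · exact this ⟨i, hi⟩ (mem_univ _)
  · exact hz0 i hi

lemma finrank_sub (S : Finset E) (P : Finset S) :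
    finrank ℝ (Lz (dep S) P) ≤ finrank ℝ (dep (S \ pts S P)) := by
  classical
  have hsum : ∀ (M : Type) [AddCommMonoid M] (g : S → M), (∀ i ∈ P, g i = 0) →
      ∑ t : (S \ pts S P : Finset E), g ⟨t, (Finset.mem_sdiff.mp t.2).1⟩ = ∑ i : S, g i := by
    intro M _ g hg
    let F : E → M := fun x => if h : x ∈ S then g ⟨x, h⟩ else 0
    have h1 : ∑ i : S, g i = ∑ x ∈ S, F x := by
      rw [← Finset.sum_coe_sort S F]
      apply Finset.sum_congr rfl
      intro i _
      simp [F]
    have h2 : ∑ t : (S \ pts S P : Finset E), g ⟨t, (Finset.mem_sdiff.mp t.2).1⟩ =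
        ∑ x ∈ S \ pts S P, F x := by
      rw [← Finset.sum_coe_sort (S \ pts S P) F]
      apply Finset.sum_congr rfl
      intro i _
      have : (i : E) ∈ S := (Finset.mem_sdiff.mp i.2).1
      simp [F, this]
    rw [h1, h2]
    apply sum_subset sdiff_subset
    intro x hx hx'
    rw [Finset.mem_sdiff] at hx'
    push Not at hx'
    obtain ⟨i, hi, hix⟩ := (mem_pts S P x).mp (hx' hx)
    have : F x = g ⟨x, hx⟩ := by simp [F, hx]
    rw [this]
    have e : (⟨x, hx⟩ : S) = i := Subtype.ext hix.symm
    rw [e]
    exact hg i hi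
  let φ : Lz (dep S) P →ₗ[ℝ] dep (S \ pts S P) :=
    { toFun := fun z => ⟨fun t => (z : S → ℝ) ⟨t, (Finset.mem_sdiff.mp t.2).1⟩, by
        obtain ⟨hz1, hz2⟩ := (mem_dep S _).mp z.2.1
        rw [mem_dep]
        constructor
        · rw [hsum ℝ (fun i => (z : S → ℝ) i) z.2.2]
          exact hz1
        · rw [hsum E (fun i => (z : S → ℝ) i • (i : E)) (fun i hi => by rw [z.2.2 i hi, zero_smul])]
          exact hz2⟩
      map_add' := by intro a b; rfl
      map_smul' := by intro c a; rfl }
  refine LinearMap.finrank_le_finrank_of_injective (f := φ) ?_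
  intro a b hab
  apply Subtype.ext
  ext i
  by_cases hi : i ∈ P
  · rw [a.2.2 i hi, b.2.2 i hi]
  · have hi' : (i : E) ∈ S \ pts S P := by
      rw [Finset.mem_sdiff]
      refine ⟨i.2, ?_⟩
      intro hc
      obtain ⟨j, hj, hji⟩ := (mem_pts S P _).mp hc
      have : j = i := Subtype.ext hji
      exact hi (this ▸ hj)
    have := congrArg (fun z : dep (S \ pts S P) => (z : (S \ pts S P : Finset E) → ℝ) ⟨i, hi'⟩) hab
    exact this

section Abs
variable {ι : Type} [Fintype ι] [DecidableEq ι]

/-- The exceptional case: two positively proportional coordinates, rank three, seven coordinates. -/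
lemma seven (L : Submodule ℝ (ι → ℝ)) (hL : ∀ y ∈ L, ∑ i, y i = 0)
    (hmd : ∀ z ∈ L, ∀ S : Finset ι, S.card ≤ 2 + 1 → (∀ i, i ∉ S → z i = 0) → z = 0)
    (hl : finrank ℝ L = 3) (hn : Fintype.card ι = 7) (hnl : ∀ i, ∃ y ∈ L, y i ≠ 0)
    (i j : ι) (hij : i ≠ j) (c : ℝ) (hc : 0 < c) (hpar : ∀ y ∈ L, y j = c * y i) :
    ∃ y ∈ L, (∀ i, y i ≠ 0) ∧ (finrank ℝ L : ℤ) + 3 ≤ rk L (pos y) + rk L (neg y) := by
  classical
  let res : (ι → ℝ) →ₗ[ℝ] ({x : ι // x ≠ j} → ℝ) := LinearMap.funLeft ℝ ℝ Subtype.val
  have hres : ∀ (y : ι → ℝ) (x : {x : ι // x ≠ j}), res y x = y x := fun y x => rfl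
  have hinj : ∀ y ∈ L, res y = 0 → y = 0 := by
    intro y hy h0
    ext x
    by_cases hx : x = j
    · subst hx
      rw [hpar y hy]
      have : y i = 0 := congrFun h0 ⟨i, hij⟩
      rw [this, mul_zero]; rfl
    · exact congrFun h0 ⟨x, hx⟩
  have hkL : ∀ P : Finset ι, finrank ℝ (Lz L P) ≤ finrank ℝ ((Lz L P).map res) := by
    intro P
    have hi2 : Function.Injective (res.domRestrict (Lz L P)) := by
      rw [← LinearMap.ker_eq_bot, eq_bot_iff]
      intro z hz
      rw [Submodule.mem_bot]
      apply Subtype.ext
      exact hinj z z.2.1 hz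
    have := LinearMap.finrank_range_of_inj hi2
    rw [← this, LinearMap.range_domRestrict]
  set LR := L.map res with hLR
  have hfr : finrank ℝ LR = finrank ℝ L := by
    apply le_antisymm
    · exact Submodule.finrank_map_le res L
    · have := hkL ∅
      rwa [Lz_empty] at this
  have supp := supp_bound L 2 hmd
  have hLz1 : ∀ P : Finset ι, ∀ x : ι, finrank ℝ (Lz L P) ≤ finrank ℝ (Lz L (insert x P)) + 1 := by
    intro P x
    have := rk_insert_le L P x
    simp only [rk] at this
    omega
  have h0 : finrank ℝ (Lz L ∅) = 3 := by rw [Lz_empty]; exact hl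
  have nice : Nice LR := by
    refine ⟨⟨fun x => if (x : ι) = i then 1 + c else 1, ?_, ?_⟩, ?_, ?_⟩
    · intro x; dsimp only; split_ifs <;> linarith
    · rintro _ ⟨y, hy, rfl⟩
      have h1 := hL y hy
      have h2 : ∑ x : {x : ι // x ≠ j}, y x = ∑ x ∈ univ.erase j, y x := by
        rw [← Finset.sum_subtype (univ.erase j) (p := fun x => x ≠ j) (by simp) y]
      have h3 : ∑ x : {x : ι // x ≠ j}, (if (x : ι) = i then 1 + c else 1) * res y x =
          ∑ x : {x : ι // x ≠ j}, y x + ∑ x : {x : ι // x ≠ j}, (if (x : ι) = i then c * y i else 0) := by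
        rw [← Finset.sum_add_distrib]
        apply Finset.sum_congr rfl
        intro x _
        rw [hres]
        split_ifs with h
        · rw [h]; ring
        · ring
      have h4 : ∑ x : {x : ι // x ≠ j}, (if (x : ι) = i then c * y i else 0) = c * y i := by
        rw [Finset.sum_eq_single (⟨i, hij⟩ : {x : ι // x ≠ j})]
        · simp
        · intro b _ hb
          rw [if_neg]
          intro hb'
          exact hb (Subtype.ext hb')
        · intro h; exact absurd (mem_univ _) h
      dsimp only
      rw [h3, h4, h2, ← hpar y hy, Finset.sum_erase_add _ _ (mem_univ j)]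
      exact h1
    · intro x
      obtain ⟨y, hy, hyx⟩ := hnl x
      exact ⟨res y, ⟨y, hy, rfl⟩, hyx⟩
    · intro a b hab c' hc'
      by_contra hcon
      push Not at hcon
      have hcon' : ∀ y ∈ L, y b = c' * y a := fun y hy => hcon (res y) ⟨y, hy, rfl⟩
      have hab' : (a : ι) ≠ b := fun h => hab (Subtype.ext h)
      have u1 := hLz1 ∅ i
      have u2 := hLz1 {i} a
      have u3 := hLz1 ∅ a
      have e1 : (insert i ∅ : Finset ι) = {i} := by ext z; simp
      have e3 : (insert (a : ι) ∅ : Finset ι) = {(a : ι)} := by ext z; simp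
      rw [e1] at u1
      rw [e3] at u3
      by_cases hai : (a : ι) = i
      · have hs := supp (Lz L {i}) (fun z hz => hz.1) (by omega) (univ \ {i, j, (b : ι)}) (by
          intro z hz x hx
          have hzi : z i = 0 := hz.2 i (mem_singleton_self i)
          simp only [Finset.mem_sdiff, mem_univ, true_and, not_not, mem_insert,
            mem_singleton] at hx
          rcases hx with rfl | rfl | rfl
          · exact hzi
          · rw [hpar z hz.1, hzi, mul_zero]
          · rw [hcon' z hz.1, hai, hzi, mul_zero])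
        have hc3 : ({i, j, (b : ι)} : Finset ι).card = 3 := by
          rw [card_eq_three]
          exact ⟨i, j, b, hij, fun h => hab' (hai.trans h), fun h => b.2 h.symm, rfl⟩
        rw [card_sdiff_of_subset (subset_univ _), hc3, card_univ, hn] at hs
        omega
      by_cases hbi : (b : ι) = i
      · have hs := supp (Lz L {(a : ι)}) (fun z hz => hz.1) (by omega) (univ \ {i, j, (a : ι)}) (by
          intro z hz x hx
          have hza : z a = 0 := hz.2 a (mem_singleton_self _)
          have hzi : z i = 0 := by rw [← hbi, hcon' z hz.1, hza, mul_zero]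
          simp only [Finset.mem_sdiff, mem_univ, true_and, not_not, mem_insert,
            mem_singleton] at hx
          rcases hx with rfl | rfl | rfl
          · exact hzi
          · rw [hpar z hz.1, hzi, mul_zero]
          · exact hza)
        have hc3 : ({i, j, (a : ι)} : Finset ι).card = 3 := by
          rw [card_eq_three]
          exact ⟨i, j, a, hij, fun h => hai h.symm, fun h => a.2 h.symm, rfl⟩
        rw [card_sdiff_of_subset (subset_univ _), hc3, card_univ, hn] at hs
        omega
      · have hs := supp (Lz L (insert (a : ι) {i})) (fun z hz => hz.1) (by omega)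
          (univ \ {i, j, (a : ι), (b : ι)}) (by
          intro z hz x hx
          have hza : z a = 0 := hz.2 a (mem_insert_self _ _)
          have hzi : z i = 0 := hz.2 i (mem_insert_of_mem (mem_singleton_self _))
          simp only [Finset.mem_sdiff, mem_univ, true_and, not_not, mem_insert,
            mem_singleton] at hx
          rcases hx with rfl | rfl | rfl | rfl
          · exact hzi
          · rw [hpar z hz.1, hzi, mul_zero]
          · exact hza
          · rw [hcon' z hz.1, hza, mul_zero])
        have hc4 : ({i, j, (a : ι), (b : ι)} : Finset ι).card = 4 := by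
          rw [card_insert_of_notMem, card_insert_of_notMem, card_insert_of_notMem, card_singleton]
          · rw [mem_singleton]; exact hab'
          · rw [mem_insert, mem_singleton]
            rintro (h | h)
            · exact a.2 h.symm
            · exact b.2 h.symm
          · rw [mem_insert, mem_insert, mem_singleton]
            rintro (h | h | h)
            · exact hij h
            · exact hai h.symm
            · exact hbi h.symm
        rw [card_sdiff_of_subset (subset_univ _), hc4, card_univ, hn] at hs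
        omega
  have hcR : Fintype.card {x : ι // x ≠ j} = 6 := by
    rw [Fintype.card_subtype_compl, Fintype.card_subtype_eq, hn]
  obtain ⟨_, ⟨y, hy, rfl⟩, hnz, hrk⟩ := abs_two LR nice (by rw [hfr, hl]) (by rw [hfr, hl, hcR])
  refine ⟨y, hy, ?_, ?_⟩
  · intro x
    by_cases hx : x = j
    · rw [hx, hpar y hy]
      exact mul_ne_zero hc.ne' (hnz ⟨i, hij⟩)
    · exact hnz ⟨x, hx⟩
  · have key : ∀ (P : Finset ι) (P' : Finset {x : ι // x ≠ j}), (∀ x ∈ P', (x : ι) ∈ P) →
        rk LR P' ≤ rk L P := by
      intro P P' hPP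
      have h1 : (Lz L P).map res ≤ Lz LR P' := by
        rintro _ ⟨z, hz, rfl⟩
        exact ⟨⟨z, hz.1, rfl⟩, fun x hx => hz.2 x (hPP x hx)⟩
      have h2 := Submodule.finrank_mono h1
      have h3 := hkL P
      simp only [rk]
      omega
    have k1 := key (pos y) (pos (res y)) (by
      intro x hx
      rw [KL.mem_pos] at hx ⊢
      exact hx)
    have k2 := key (neg y) (neg (res y)) (by
      intro x hx
      rw [KL.mem_neg] at hx ⊢
      exact hx)
    rw [hfr] at hrk
    omega

end Abs

variable [FiniteDimensional ℝ E]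

/-- The recursion. -/
theorem recC (k : ℕ) (hk : 2 ≤ k) : ∀ n : ℕ, ∀ S : Finset E, S.card = n → KIndep k S →
    k + 1 ≤ finrank ℝ (dep S) → S.card + k ≤ 2 * finrank ℝ (dep S) + 3 → Div2 k S := by
  classical
  intro n
  induction n using Nat.strong_induction_on with
  | _ n ih =>
  intro S hSn hS hl hn
  have hmd := hmd_of_KIndep k S hS
  have hLz1 : ∀ x : S, finrank ℝ (dep S) ≤ finrank ℝ (Lz (dep S) {x}) + 1 := by
    intro x
    have := rk_insert_le (dep S) ∅ x
    have e1 : (insert x ∅ : Finset S) = {x} := by ext z; simp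
    rw [rk_empty, e1] at this
    simp only [rk] at this
    omega
  by_cases hnl : ∀ i : S, ∃ y ∈ dep S, y i ≠ 0
  swap
  · push Not at hnl
    obtain ⟨i, hi⟩ := hnl
    have h1 : dep S ≤ Lz (dep S) {i} := by
      intro y hy
      refine ⟨hy, ?_⟩
      intro j hj
      rw [mem_singleton] at hj
      rw [hj]; exact hi y hy
    have h2 := Submodule.finrank_mono h1
    have h3 := finrank_sub S {i}
    have h4 : (S \ pts S {i}).card + 1 = S.card := by
      have : pts S {i} = {(i : E)} := by simp [pts]
      rw [this, card_sdiff_of_subset (by simp)]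
      have : 0 < S.card := card_pos.mpr ⟨i, i.2⟩
      simp only [card_singleton]
      omega
    exact Div2.mono (ih (S \ pts S {i}).card (by omega) _ rfl (hS.mono sdiff_subset) (by omega)
      (by omega)) sdiff_subset
  by_cases hdist : ∀ i j : S, i ≠ j → ∀ c : ℝ, 0 < c → ∃ y ∈ dep S, y j ≠ c * y i
  · -- nice case
    have nice : Nice (dep S) := ⟨⟨fun _ => 1, fun _ => one_pos, fun y hy => by
      simpa using ((mem_dep S y).mp hy).1⟩, hnl, hdist⟩
    obtain ⟨y, hy, hnz, hr⟩ := abs_main (dep S) nice k hk hmd hl (by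
      rw [Fintype.card_coe]; exact hn)
    exact geoDim S k (by omega) y hy hnz hr
  · push Not at hdist
    obtain ⟨i, j, hij, c, hc, hpar⟩ := hdist
    have h1 : Lz (dep S) {i} ≤ Lz (dep S) {i, j} := by
      intro y hy
      refine ⟨hy.1, ?_⟩
      intro x hx
      have hyi : y i = 0 := hy.2 i (mem_singleton_self _)
      rw [mem_insert, mem_singleton] at hx
      rcases hx with rfl | rfl
      · exact hyi
      · rw [hpar y hy.1, hyi, mul_zero]
    have h2 := Submodule.finrank_mono h1
    have h3 := finrank_sub S {i, j}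
    have h5 := hLz1 i
    have hpts : pts S {i, j} = {(i : E), (j : E)} := by simp [pts]
    have hijE : (i : E) ≠ j := fun h => hij (Subtype.ext h)
    have h4 : (S \ pts S {i, j}).card + 2 = S.card := by
      rw [hpts, card_sdiff_of_subset (by
        intro x hx
        rw [mem_insert, mem_singleton] at hx
        rcases hx with rfl | rfl
        · exact i.2
        · exact j.2), card_pair hijE]
      have : 1 < S.card := one_lt_card.mpr ⟨i, i.2, j, j.2, hijE⟩
      omega
    by_cases hl2 : k + 2 ≤ finrank ℝ (dep S)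
    · exact Div2.mono (ih (S \ pts S {i, j}).card (by omega) _ rfl (hS.mono sdiff_subset) (by omega)
        (by omega)) sdiff_subset
    · -- finrank = k + 1
      have h6 := supp_bound (dep S) k hmd (Lz (dep S) {i}) (fun z hz => hz.1) (by omega)
        (univ \ {i, j}) (by
          intro z hz x hx
          have hz' := h1 hz
          simp only [Finset.mem_sdiff, mem_univ, true_and, not_not] at hx
          exact hz'.2 x hx)
      rw [card_sdiff_of_subset (subset_univ _), card_pair hij, card_univ, Fintype.card_coe] at h6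
      have hk2 : k = 2 := by omega
      subst hk2
      have hc7 : S.card = 7 := by omega
      obtain ⟨y, hy, hnz, hr⟩ := seven (dep S) (fun y hy => ((mem_dep S y).mp hy).1) hmd
        (by omega) (by rw [Fintype.card_coe]; exact hc7) hnl i j hij c hc hpar
      exact geoDim S 2 (by omega) y hy hnz (by push_cast; linarith)

/-- Upper bound. -/
theorem upper (d k : ℕ) (hk : 2 ≤ k) (hkd : k + 1 ≤ d) (hE : finrank ℝ E = d) (S : Finset E)
    (hS : KIndep k S) (hc : 2 * d + k - 1 ≤ S.card) : Div2 k S := by
  obtain ⟨T, hT, hTc⟩ := exists_subset_card_eq hc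
  refine Div2.mono ?_ hT
  have hdim : T.card ≤ finrank ℝ (dep T) + (d + 1) := by
    have h1 := LinearMap.finrank_range_add_finrank_ker (depMap T)
    have h2 : finrank ℝ (LinearMap.range (depMap T)) ≤ finrank ℝ (ℝ × E) :=
      Submodule.finrank_le _
    rw [Module.finrank_prod, finrank_self, hE] at h2
    have h3 : finrank ℝ (T → ℝ) = T.card := by
      rw [Module.finrank_fintype_fun_eq_card, Fintype.card_coe]
    rw [h3] at h1
    change T.card ≤ finrank ℝ (LinearMap.ker (depMap T)) + (d + 1)
    omega
  exact recC k hk _ T rfl (hS.mono hT) (by omega) (by omega)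

end Pool.Agent.Helper137.Rec
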