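import Mathlib
import Pool.Agent.Helper137.Dep
import Pool.Agent.Helper137.Rec

set_option autoImplicit false

namespace Pool.Agent.Helper137.Ex

open Finset Module Pool.Agent.Helper137.Dep Pool.Agent.Helper137.Rec

lemma vander (U : Finset ℕ) (W : ℕ → ℝ) (r : ℕ) (hU : U.card ≤ r)
    (h : ∀ m < r, ∑ t ∈ U, W t * (t : ℝ) ^ m = 0) : ∀ t ∈ U, W t = 0 := by
  classical
  intro t₀ ht₀
  set p : Polynomial ℝ := ∏ t ∈ U.erase t₀, (Polynomial.X - Polynomial.C (t : ℝ)) with hp
  have hdeg : p.natDegree < r := by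
    rw [hp, Polynomial.natDegree_prod_of_monic _ _ (fun t _ => Polynomial.monic_X_sub_C _)]
    simp only [Polynomial.natDegree_X_sub_C, sum_const, smul_eq_mul, mul_one]
    rw [card_erase_of_mem ht₀]
    have : 0 < U.card := card_pos.mpr ⟨t₀, ht₀⟩
    omega
  have h1 : ∑ t ∈ U, W t * p.eval (t : ℝ) = 0 := by
    have : ∀ t ∈ U, W t * p.eval (t : ℝ) = ∑ m ∈ range r, p.coeff m * (W t * (t : ℝ) ^ m) := by
      intro t _
      rw [Polynomial.eval_eq_sum_range' hdeg, mul_sum]
      apply sum_congr rfl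
      intro m _
      ring
    rw [sum_congr rfl this, sum_comm]
    apply sum_eq_zero
    intro m hm
    rw [← mul_sum, h m (mem_range.mp hm), mul_zero]
  have h2 : ∑ t ∈ U, W t * p.eval (t : ℝ) = W t₀ * p.eval (t₀ : ℝ) := by
    apply sum_eq_single_of_mem t₀ ht₀
    intro t ht hne
    have : p.eval (t : ℝ) = 0 := by
      rw [hp, Polynomial.eval_prod]
      apply prod_eq_zero (mem_erase.mpr ⟨hne, ht⟩)
      simp
    rw [this, mul_zero]
  have h3 : p.eval (t₀ : ℝ) ≠ 0 := by
    rw [hp, Polynomial.eval_prod]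
    apply prod_ne_zero_iff.mpr
    intro t ht
    simp only [Polynomial.eval_sub, Polynomial.eval_X, Polynomial.eval_C]
    rw [sub_ne_zero]
    intro h
    exact (mem_erase.mp ht).1 (Nat.cast_injective h).symm
  rw [h1] at h2
  rcases mul_eq_zero.mp h2.symm with h | h
  · exact h
  · exact absurd h h3

variable {E : Type} [NormedAddCommGroup E] [NormedSpace ℝ E] [DecidableEq E]

lemma kindep_image {α : Type} [DecidableEq α] (I : Finset α) (P : α → E)
    (hinj : Set.InjOn P I) (k : ℕ)
    (h : ∀ J ⊆ I, J.card ≤ k + 1 → ∀ w : α → ℝ, ∑ j ∈ J, w j = 0 → ∑ j ∈ J, w j • P j = 0 →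
      ∀ j ∈ J, w j = 0) : KIndep k (I.image P) := by
  intro T hT hc
  set J := I.filter (fun j => P j ∈ T) with hJ
  have hJI : J ⊆ I := filter_subset _ _
  have hJT : J.image P = T := by
    ext x
    rw [mem_image]
    constructor
    · rintro ⟨j, hj, rfl⟩
      exact (mem_filter.mp hj).2
    · intro hx
      obtain ⟨j, hj, rfl⟩ := mem_image.mp (hT hx)
      exact ⟨j, mem_filter.mpr ⟨hj, hx⟩, rfl⟩
  have hcJ : J.card ≤ k + 1 := by
    have : (J.image P).card = J.card := card_image_of_injOn (fun a ha b hb hab =>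
      hinj (hJI ha) (hJI hb) hab)
    rw [hJT] at this
    omega
  let f : J → T := fun j => ⟨P j, (mem_filter.mp j.2).2⟩
  have hf : Function.Bijective f := by
    constructor
    · intro a b hab
      apply Subtype.ext
      exact hinj (hJI a.2) (hJI b.2) (congrArg (fun x : T => (x : E)) hab)
    · intro t
      have : (t : E) ∈ J.image P := by rw [hJT]; exact t.2
      obtain ⟨j, hj, hjt⟩ := mem_image.mp this
      exact ⟨⟨j, hj⟩, Subtype.ext hjt⟩
  have key : AffineIndependent ℝ ((fun x : T => (x : E)) ∘ (Equiv.ofBijective f hf)) := by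
    rw [affineIndependent_iff]
    intro s w hw1 hw2 e he
    set w' : α → ℝ := fun a => if h : a ∈ J then w ⟨a, h⟩ else 0 with hw'
    have e0 : ∀ j : J, w' j = w j := by
      intro j
      simp [hw']
    have := h (s.map (Function.Embedding.subtype _)) (by
        intro x hx
        obtain ⟨j, _, rfl⟩ := mem_map.mp hx
        exact hJI j.2) (by
        rw [card_map]
        refine le_trans ?_ hcJ
        have := card_le_univ s
        rwa [Fintype.card_coe] at this) w' (by
        rw [sum_map]
        rw [← hw1]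
        apply sum_congr rfl
        intro j _
        exact e0 j) (by
        rw [sum_map]
        rw [← hw2]
        apply sum_congr rfl
        intro j _
        show w' j • P j = w j • P j
        rw [e0 j])
    have h2 := this e (mem_map.mpr ⟨e, he, rfl⟩)
    rw [e0 e] at h2
    exact h2
  exact (affineIndependent_equiv _).mp key

/-- A hull intersection contained in a small subspace has small dimension. -/
lemma not_div_of_sub [FiniteDimensional ℝ E] (k : ℕ) (S : Finset E)
    (h : ∀ A B : Finset E, A ∪ B = S → Disjoint A B →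
      (convexHull ℝ (A : Set E) ∩ convexHull ℝ (B : Set E)).Nonempty →
      ∃ M : Submodule ℝ E, finrank ℝ M < k ∧
        vectorSpan ℝ (convexHull ℝ (A : Set E) ∩ convexHull ℝ (B : Set E)) ≤ M) : ¬ Div2 k S := by
  rintro ⟨A, B, hAB, hd, hne, hk⟩
  obtain ⟨M, hM, hle⟩ := h A B hAB hd hne
  have := Submodule.finrank_mono hle
  omega

section Ex1

variable (k d : ℕ)

/-- Points of the first example. -/
noncomputable def P1 (p : ℕ × ℤ) : EuclideanSpace ℝ (Fin d) :=
  WithLp.toLp 2 (fun m : Fin d => if (m : ℕ) < k - 1 then (p.1 : ℝ) ^ ((m : ℕ) + 1)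
    else if (m : ℕ) + 1 = p.1 then (p.2 : ℝ) else 0)

/-- Index set of the first example. -/
def I1 : Finset (ℕ × ℤ) := (range k ×ˢ {0}) ∪ (Ico k (d + 1) ×ˢ {1, -1})

lemma P1_apply (p : ℕ × ℤ) (m : Fin d) : P1 k d p m = if (m : ℕ) < k - 1 then
    (p.1 : ℝ) ^ ((m : ℕ) + 1) else if (m : ℕ) + 1 = p.1 then (p.2 : ℝ) else 0 := rfl

lemma mem_I1 (p : ℕ × ℤ) : p ∈ I1 k d ↔ (p.1 < k ∧ p.2 = 0) ∨
    (k ≤ p.1 ∧ p.1 < d + 1 ∧ (p.2 = 1 ∨ p.2 = -1)) := by
  simp only [I1, mem_union, mem_product, mem_range, mem_singleton, mem_Ico, mem_insert]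
  tauto

lemma card_I1 (hkd : k ≤ d) : (I1 k d).card = 2 * d + 2 - k := by
  rw [I1, card_union_of_disjoint, card_product, card_product]
  · simp
    omega
  · rw [disjoint_left]
    rintro ⟨a, b⟩ h1 h2
    simp only [mem_product, mem_range, mem_singleton, mem_Ico] at h1 h2
    omega

lemma P1_inj (hk : 2 ≤ k) (hkd : k ≤ d) : Set.InjOn (P1 k d) (I1 k d) := by
  rintro ⟨t, σ⟩ hp ⟨t', σ'⟩ hp' heq
  rw [mem_coe, mem_I1] at hp hp'
  have h0 : t = t' := by
    have := congrArg (fun x : EuclideanSpace ℝ (Fin d) => x ⟨0, by omega⟩) heq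
    simp only [P1_apply] at this
    rw [if_pos (by omega), if_pos (by omega)] at this
    simpa using this
  subst h0
  by_cases ht : t < k
  · have e1 : σ = 0 := by rcases hp with h | h <;> [exact h.2; (dsimp only at h; omega)]
    have e2 : σ' = 0 := by rcases hp' with h | h <;> [exact h.2; (dsimp only at h; omega)]
    rw [e1, e2]
  · have ht2 : t < d + 1 := by rcases hp with h | h <;> [(dsimp only at h; omega); exact h.2.1]
    have := congrArg (fun x : EuclideanSpace ℝ (Fin d) => x ⟨t - 1, by omega⟩) heq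
    simp only [P1_apply] at this
    rw [if_neg (show ¬ (t - 1 < k - 1) by omega), if_pos (show t - 1 + 1 = t by omega),
      if_neg (show ¬ (t - 1 < k - 1) by omega), if_pos (show t - 1 + 1 = t by omega)] at this
    have : σ = σ' := by exact_mod_cast this
    rw [this]

/-- independence -/
lemma P1_indep (hk : 2 ≤ k) (hkd : k ≤ d) : KIndep k ((I1 k d).image (P1 k d)) := by
  classical
  apply kindep_image _ _ (P1_inj k d hk hkd)
  intro J hJ hcJ w hw1 hw2
  set w0 : ℕ × ℤ → ℝ := fun p => if p ∈ J then w p else 0 with hw0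
  -- sums over J as sums over I1
  have sumJ : ∀ F : ℕ × ℤ → ℝ, ∑ p ∈ J, w p * F p = ∑ p ∈ I1 k d, w0 p * F p := by
    intro F
    rw [← sum_subset hJ]
    · apply sum_congr rfl
      intro p hp
      simp [hw0, hp]
    · intro p _ hp
      simp [hw0, hp]
  have sumI : ∀ F : ℕ × ℤ → ℝ, ∑ p ∈ I1 k d, w0 p * F p =
      ∑ t ∈ range k, w0 (t, 0) * F (t, 0) +
      ∑ t ∈ Ico k (d + 1), (w0 (t, 1) * F (t, 1) + w0 (t, -1) * F (t, -1)) := by
    intro F
    rw [I1, sum_union, sum_product, sum_product]
    · congr 1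
      · apply sum_congr rfl
        intro t _
        rw [sum_singleton]
      · apply sum_congr rfl
        intro t _
        rw [sum_pair (by norm_num)]
    · rw [disjoint_left]
      rintro ⟨a, b⟩ h1 h2
      simp only [mem_product, mem_range, mem_singleton, mem_Ico] at h1 h2
      omega
  have coord : ∀ m : Fin d, ∑ p ∈ J, w p * P1 k d p m = 0 := by
    intro m
    have := congrArg (fun x : EuclideanSpace ℝ (Fin d) => x m) hw2
    simpa using this
  -- the two signs have equal weight
  have hbal : ∀ t, k ≤ t → t < d + 1 → w0 (t, 1) = w0 (t, -1) := by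
    intro t ht ht2
    have h := coord ⟨t - 1, by omega⟩
    rw [sumJ (fun p => P1 k d p ⟨t - 1, by omega⟩), sumI] at h
    have z1 : ∑ s ∈ range k, w0 (s, 0) * P1 k d (s, 0) ⟨t - 1, by omega⟩ = 0 := by
      apply sum_eq_zero
      intro s hs
      rw [mem_range] at hs
      rw [P1_apply, if_neg (show ¬ (t - 1 < k - 1) by omega), if_neg (by dsimp only; omega), mul_zero]
    have z2 : ∑ s ∈ Ico k (d + 1), (w0 (s, 1) * P1 k d (s, 1) ⟨t - 1, by omega⟩ +
        w0 (s, -1) * P1 k d (s, -1) ⟨t - 1, by omega⟩) = w0 (t, 1) - w0 (t, -1) := by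
      rw [sum_eq_single_of_mem t (mem_Ico.mpr ⟨ht, ht2⟩)]
      · rw [P1_apply, P1_apply, if_neg (show ¬ (t - 1 < k - 1) by omega),
          if_pos (show t - 1 + 1 = t by omega), if_neg (show ¬ (t - 1 < k - 1) by omega),
          if_pos (show t - 1 + 1 = t by omega)]
        push_cast
        ring
      · intro s hs hne
        rw [mem_Ico] at hs
        rw [P1_apply, P1_apply, if_neg (show ¬ (t - 1 < k - 1) by omega),
          if_neg (show ¬ (t - 1 + 1 = s) by omega), if_neg (show ¬ (t - 1 < k - 1) by omega),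
          if_neg (show ¬ (t - 1 + 1 = s) by omega)]
        ring
    rw [z1, z2] at h
    linarith
  set W : ℕ → ℝ := fun t => if t < k then w0 (t, 0) else 2 * w0 (t, 1) with hW
  have sumW : ∀ F : ℕ → ℝ, ∑ p ∈ J, w p * F p.1 = ∑ t ∈ range (d + 1), W t * F t := by
    intro F
    rw [sumJ (fun p => F p.1), sumI, ← sum_range_add_sum_Ico _ (show k ≤ d + 1 by omega)]
    congr 1
    · apply sum_congr rfl
      intro t ht
      simp [hW, mem_range.mp ht]
    · apply sum_congr rfl
      intro t ht
      rw [mem_Ico] at ht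
      rw [← hbal t ht.1 ht.2]
      have : ¬ t < k := by omega
      simp only [hW, this, if_false]
      ring
  set U := (range (d + 1)).filter (fun t => W t ≠ 0) with hU
  have hmem : ∀ p, w0 p ≠ 0 → p ∈ J := by
    intro p hp
    by_contra hc
    exact hp (by simp [hw0, hc])
  have hUk : U.card ≤ k := by
    by_cases hex : ∃ t ∈ U, k ≤ t
    · obtain ⟨t₀, ht₀, hkt₀⟩ := hex
      rw [hU, mem_filter, mem_range] at ht₀
      have h1 : w0 (t₀, 1) ≠ 0 := by
        intro h0
        apply ht₀.2
        have : ¬ t₀ < k := by omega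
        simp [hW, this, h0]
      have h2 : (t₀, (-1 : ℤ)) ∈ J := by
        apply hmem
        rw [← hbal t₀ hkt₀ ht₀.1]
        exact h1
      have h3 : U.card ≤ (J.erase (t₀, -1)).card := by
        apply card_le_card_of_injOn (fun t => if t < k then (t, (0 : ℤ)) else (t, 1))
        · intro t ht
          rw [mem_coe, hU, mem_filter, mem_range] at ht
          rw [mem_coe, mem_erase]
          by_cases htk : t < k
          · simp only [htk, if_true]
            refine ⟨?_, hmem _ ?_⟩
            · intro h; rw [Prod.mk.injEq] at h; omega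
            · have := ht.2
              simpa [hW, htk] using this
          · simp only [htk, if_false]
            refine ⟨?_, hmem _ ?_⟩
            · intro h; rw [Prod.mk.injEq] at h; omega
            · have := ht.2
              intro h0
              apply this
              simp [hW, htk, h0]
        · intro a _ b _ hab
          dsimp only at hab
          split_ifs at hab <;> exact (Prod.mk.inj hab).1
      rw [card_erase_of_mem h2] at h3
      omega
    · push Not at hex
      have : U ⊆ range k := by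
        intro t ht
        exact mem_range.mpr (hex t ht)
      have := card_le_card this
      rwa [card_range] at this
  have hsumU : ∀ m < k, ∑ t ∈ U, W t * (t : ℝ) ^ m = 0 := by
    intro m hm
    have h1 : ∑ t ∈ U, W t * (t : ℝ) ^ m = ∑ t ∈ range (d + 1), W t * (t : ℝ) ^ m := by
      apply sum_subset (filter_subset _ _)
      intro t ht hn
      have : W t = 0 := by
        by_contra hc
        exact hn (mem_filter.mpr ⟨ht, hc⟩)
      rw [this, zero_mul]
    rw [h1, ← sumW (fun t => (t : ℝ) ^ m)]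
    by_cases hm0 : m = 0
    · subst hm0
      simpa using hw1
    · have h := coord ⟨m - 1, by omega⟩
      rw [← h]
      apply sum_congr rfl
      intro p _
      rw [P1_apply, if_pos (show m - 1 < k - 1 by omega)]
      dsimp only
      rw [show m - 1 + 1 = m by omega]
  have hW0 : ∀ t ∈ range (d + 1), W t = 0 := by
    intro t ht
    by_contra hc
    exact hc (vander U W k hUk hsumU t (mem_filter.mpr ⟨ht, hc⟩))
  rintro ⟨t, σ⟩ hp
  have hpI := (mem_I1 k d (t, σ)).mp (hJ hp)
  have hwp : w (t, σ) = w0 (t, σ) := by simp [hw0, hp]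
  rw [hwp]
  rcases hpI with ⟨h1, h2⟩ | ⟨h1, h2, h3⟩
  · dsimp only at h1 h2
    have := hW0 t (mem_range.mpr (by omega))
    simp only [hW, h1, if_true] at this
    rw [h2]
    exact this
  · dsimp only at h1 h2 h3
    have := hW0 t (mem_range.mpr h2)
    have hnk : ¬ t < k := by omega
    simp only [hW, hnk, if_false] at this
    have h4 : w0 (t, 1) = 0 := by linarith
    rcases h3 with h3 | h3
    · rw [h3]; exact h4
    · rw [h3, ← hbal t h1 h2]; exact h4

/-- Vectors supported on the first `k - 1` coordinates. -/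
def low : Submodule ℝ (EuclideanSpace ℝ (Fin d)) where
  carrier := {x | ∀ m : Fin d, k - 1 ≤ (m : ℕ) → x m = 0}
  zero_mem' := fun _ _ => rfl
  add_mem' := by
    intro a b ha hb m hm
    simp [ha m hm, hb m hm]
  smul_mem' := by
    intro c a ha m hm
    simp [ha m hm]

lemma finrank_low (hk : 2 ≤ k) : finrank ℝ (low k d) < k := by
  let φ : low k d →ₗ[ℝ] (Fin (k - 1) → ℝ) :=
    { toFun := fun x j => if h : (j : ℕ) < d then (x : EuclideanSpace ℝ (Fin d)) ⟨j, h⟩ else 0
      map_add' := by
        intro a b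
        ext j
        simp only [Pi.add_apply]
        split_ifs <;> simp
      map_smul' := by
        intro c a
        ext j
        simp only [Pi.smul_apply, RingHom.id_apply]
        split_ifs <;> simp }
  have hinj : Function.Injective φ := by
    intro a b hab
    apply Subtype.ext
    ext m
    by_cases hm : (m : ℕ) < k - 1
    · have := congrFun hab ⟨m, hm⟩
      simpa [φ] using this
    · rw [a.2 m (by omega), b.2 m (by omega)]
  have := LinearMap.finrank_le_finrank_of_injective hinj
  rw [Module.finrank_fintype_fun_eq_card, Fintype.card_fin] at this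
  omega

lemma hull_nonneg (A : Finset (EuclideanSpace ℝ (Fin d))) (m : Fin d)
    (h : ∀ x ∈ A, 0 ≤ x m) : ∀ x ∈ convexHull ℝ (A : Set (EuclideanSpace ℝ (Fin d))), 0 ≤ x m := by
  have hc : Convex ℝ {x : EuclideanSpace ℝ (Fin d) | 0 ≤ x m} := by
    intro x hx y hy a b ha hb _
    simp only [Set.mem_setOf_eq] at hx hy ⊢
    have : (a • x + b • y) m = a * x m + b * y m := by simp
    rw [this]
    positivity
  intro x hx
  exact convexHull_min (fun y hy => h y hy) hc hx

lemma hull_nonpos (A : Finset (EuclideanSpace ℝ (Fin d))) (m : Fin d)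
    (h : ∀ x ∈ A, x m ≤ 0) : ∀ x ∈ convexHull ℝ (A : Set (EuclideanSpace ℝ (Fin d))), x m ≤ 0 := by
  have hc : Convex ℝ {x : EuclideanSpace ℝ (Fin d) | x m ≤ 0} := by
    intro x hx y hy a b ha hb _
    simp only [Set.mem_setOf_eq] at hx hy ⊢
    have : (a • x + b • y) m = a * x m + b * y m := by simp
    rw [this]
    nlinarith
  intro x hx
  exact convexHull_min (fun y hy => h y hy) hc hx

lemma P1_not_div (hk : 2 ≤ k) (hkd : k ≤ d) : ¬ Div2 k ((I1 k d).image (P1 k d)) := by
  classical
  apply not_div_of_sub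
  intro A B hAB hd _
  refine ⟨low k d, finrank_low k d hk, ?_⟩
  -- values of a high coordinate on the points
  have hval : ∀ (m : Fin d), k - 1 ≤ (m : ℕ) → ∀ x ∈ A ∪ B,
      (x m = 0) ∨ (x = P1 k d ((m : ℕ) + 1, 1) ∧ x m = 1) ∨
        (x = P1 k d ((m : ℕ) + 1, -1) ∧ x m = -1) := by
    intro m hm x hx
    rw [hAB, mem_image] at hx
    obtain ⟨⟨t, σ⟩, hp, rfl⟩ := hx
    rw [mem_I1] at hp
    dsimp only at hp
    rw [P1_apply, if_neg (by omega)]
    dsimp only
    by_cases ht : (m : ℕ) + 1 = t
    · rw [if_pos ht]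
      rcases hp with ⟨h1, h2⟩ | ⟨h1, h2, h3 | h3⟩
      · left; rw [h2]; simp
      · right; left; rw [h3, ht]; simp
      · right; right; rw [h3, ht]; simp
    · left; rw [if_neg ht]
  have hmemS : ∀ (m : Fin d), k - 1 ≤ (m : ℕ) → ∀ σ : ℤ, (σ = 1 ∨ σ = -1) →
      P1 k d ((m : ℕ) + 1, σ) ∈ A ∪ B := by
    intro m hm σ hσ
    rw [hAB]
    apply mem_image_of_mem
    rw [mem_I1]
    right
    have := m.2
    refine ⟨?_, ?_, hσ⟩ <;> (dsimp only; omega)
  have hz : ∀ x ∈ convexHull ℝ (A : Set (EuclideanSpace ℝ (Fin d))) ∩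
      convexHull ℝ (B : Set (EuclideanSpace ℝ (Fin d))), ∀ m : Fin d, k - 1 ≤ (m : ℕ) → x m = 0 := by
    rintro x ⟨hxA, hxB⟩ m hm
    have dj : ∀ y, y ∈ A → y ∈ B → False := fun y h1 h2 => (disjoint_left.mp hd) h1 h2
    -- upper bound
    have up : x m ≤ 0 := by
      rcases mem_union.mp (hmemS m hm 1 (Or.inl rfl)) with h | h
      · apply hull_nonpos d B m _ x hxB
        intro y hy
        rcases hval m hm y (mem_union_right _ hy) with h1 | ⟨h1, _⟩ | ⟨_, h1⟩
        · exact h1.le
        · exact absurd hy (fun hy' => dj _ h (h1 ▸ hy'))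
        · rw [h1]; norm_num
      · apply hull_nonpos d A m _ x hxA
        intro y hy
        rcases hval m hm y (mem_union_left _ hy) with h1 | ⟨h1, _⟩ | ⟨_, h1⟩
        · exact h1.le
        · exact absurd h (fun hy' => dj _ (h1 ▸ hy) hy')
        · rw [h1]; norm_num
    have lo : 0 ≤ x m := by
      rcases mem_union.mp (hmemS m hm (-1) (Or.inr rfl)) with h | h
      · apply hull_nonneg d B m _ x hxB
        intro y hy
        rcases hval m hm y (mem_union_right _ hy) with h1 | ⟨_, h1⟩ | ⟨h1, _⟩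
        · exact h1.ge
        · rw [h1]; norm_num
        · exact absurd hy (fun hy' => dj _ h (h1 ▸ hy'))
      · apply hull_nonneg d A m _ x hxA
        intro y hy
        rcases hval m hm y (mem_union_left _ hy) with h1 | ⟨_, h1⟩ | ⟨h1, _⟩
        · exact h1.ge
        · rw [h1]; norm_num
        · exact absurd h (fun hy' => dj _ (h1 ▸ hy) hy')
    linarith
  rw [vectorSpan_def, Submodule.span_le]
  rintro v ⟨a, ha, b, hb, rfl⟩
  intro m hm
  have h1 := hz a ha m hm
  have h2 := hz b hb m hm
  simp only [vsub_eq_sub, PiLp.sub_apply, h1, h2, sub_zero]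

end Ex1

section Ex2

/-- Points on the moment curve. -/
noncomputable def P2 (d t : ℕ) : EuclideanSpace ℝ (Fin d) :=
  WithLp.toLp 2 (fun m : Fin d => (t : ℝ) ^ ((m : ℕ) + 1))

lemma P2_apply (d t : ℕ) (m : Fin d) : P2 d t m = (t : ℝ) ^ ((m : ℕ) + 1) := rfl

lemma P2_inj (d n : ℕ) (hd : 1 ≤ d) : Set.InjOn (P2 d) (range n) := by
  intro t _ t' _ heq
  have := congrArg (fun x : EuclideanSpace ℝ (Fin d) => x ⟨0, by omega⟩) heq
  simp only [P2_apply] at this
  simpa using this

lemma P2_indep (d n : ℕ) (hd : 1 ≤ d) : KIndep d ((range n).image (P2 d)) := by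
  apply kindep_image _ _ (P2_inj d n hd)
  intro J _ hcJ w hw1 hw2
  apply vander J w (d + 1) hcJ
  intro m hm
  by_cases hm0 : m = 0
  · subst hm0; simpa using hw1
  · have := congrArg (fun x : EuclideanSpace ℝ (Fin d) => x ⟨m - 1, by omega⟩) hw2
    simp only [PiLp.zero_apply] at this
    rw [← this]
    simp only [WithLp.ofLp_sum, WithLp.ofLp_smul, Finset.sum_apply, Pi.smul_apply, smul_eq_mul]
    apply sum_congr rfl
    intro j _
    rw [P2_apply]
    dsimp only
    rw [show m - 1 + 1 = m by omega]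

lemma gp_not_div (d k : ℕ) (hk : 1 ≤ k) (S : Finset (EuclideanSpace ℝ (Fin d)))
    (h : KIndep d S) (hc : S.card = d + k + 1) : ¬ Div2 k S := by
  classical
  rintro ⟨A, B, hAB, hd, hne, hK⟩
  set K := convexHull ℝ (A : Set (EuclideanSpace ℝ (Fin d))) ∩
    convexHull ℝ (B : Set (EuclideanSpace ℝ (Fin d))) with hKdef
  have hcard : A.card + B.card = d + k + 1 := by
    rw [← card_union_of_disjoint hd, hAB, hc]
  have hspan : ∀ C : Finset (EuclideanSpace ℝ (Fin d)),
      vectorSpan ℝ (convexHull ℝ (C : Set (EuclideanSpace ℝ (Fin d)))) =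
        vectorSpan ℝ (C : Set (EuclideanSpace ℝ (Fin d))) := by
    intro C
    rw [← direction_affineSpan, affineSpan_convexHull, direction_affineSpan]
  have hA : vectorSpan ℝ K ≤ vectorSpan ℝ (A : Set (EuclideanSpace ℝ (Fin d))) := by
    rw [← hspan A]
    exact vectorSpan_mono ℝ Set.inter_subset_left
  have hB : vectorSpan ℝ K ≤ vectorSpan ℝ (B : Set (EuclideanSpace ℝ (Fin d))) := by
    rw [← hspan B]
    exact vectorSpan_mono ℝ Set.inter_subset_right
  have hAne : A.Nonempty := by
    obtain ⟨x, hx, _⟩ := hne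
    exact_mod_cast (convexHull_nonempty_iff (𝕜 := ℝ)).mp ⟨x, hx⟩
  have hBne : B.Nonempty := by
    obtain ⟨x, _, hx⟩ := hne
    exact_mod_cast (convexHull_nonempty_iff (𝕜 := ℝ)).mp ⟨x, hx⟩
  have hup : ∀ C : Finset (EuclideanSpace ℝ (Fin d)), C.Nonempty →
      finrank ℝ (vectorSpan ℝ (C : Set (EuclideanSpace ℝ (Fin d)))) ≤ C.card - 1 := by
    intro C hC
    have h1 : 0 < C.card := card_pos.mpr hC
    have := finrank_vectorSpan_image_finset_le ℝ (id : EuclideanSpace ℝ (Fin d) → _) C
      (n := C.card - 1) (by omega)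
    rw [image_id] at this
    exact this
  have h1 := hup A hAne
  have h2 := hup B hBne
  have h3 := Submodule.finrank_mono hA
  have h4 := Submodule.finrank_mono hB
  have hsupr : vectorSpan ℝ (A : Set (EuclideanSpace ℝ (Fin d))) ⊔
      vectorSpan ℝ (B : Set (EuclideanSpace ℝ (Fin d))) = ⊤ := by
    obtain ⟨T, hT, hTc⟩ := exists_subset_card_eq (show d + 1 ≤ S.card by omega)
    have hind := h T hT (by omega)
    have hfr := hind.finrank_vectorSpan (n := d) (by rw [Fintype.card_coe]; exact hTc)
    have hTtop : vectorSpan ℝ (Set.range (fun x : T => (x : EuclideanSpace ℝ (Fin d)))) = ⊤ := by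
      apply Submodule.eq_top_of_finrank_eq
      rw [hfr, finrank_euclideanSpace_fin]
    rw [eq_top_iff, ← hTtop, vectorSpan_def, Submodule.span_le]
    obtain ⟨q, hqA, hqB⟩ := hne
    have dirA : ∀ a ∈ A, a -ᵥ q ∈ vectorSpan ℝ (A : Set (EuclideanSpace ℝ (Fin d))) := by
      intro a ha
      rw [← hspan A]
      exact vsub_mem_vectorSpan ℝ (subset_convexHull ℝ _ ha) hqA
    have dirB : ∀ b ∈ B, b -ᵥ q ∈ vectorSpan ℝ (B : Set (EuclideanSpace ℝ (Fin d))) := by
      intro b hb
      rw [← hspan B]
      exact vsub_mem_vectorSpan ℝ (subset_convexHull ℝ _ hb) hqB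
    have dir : ∀ x ∈ T, x -ᵥ q ∈ vectorSpan ℝ (A : Set (EuclideanSpace ℝ (Fin d))) ⊔
        vectorSpan ℝ (B : Set (EuclideanSpace ℝ (Fin d))) := by
      intro x hx
      have : x ∈ A ∪ B := by rw [hAB]; exact hT hx
      rcases mem_union.mp this with h' | h'
      · exact Submodule.mem_sup_left (dirA x h')
      · exact Submodule.mem_sup_right (dirB x h')
    rintro v ⟨_, ⟨a, rfl⟩, _, ⟨b, rfl⟩, rfl⟩
    have e : (fun x : T => (x : EuclideanSpace ℝ (Fin d))) a -ᵥ
        (fun x : T => (x : EuclideanSpace ℝ (Fin d))) b =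
        ((a : EuclideanSpace ℝ (Fin d)) -ᵥ q) - ((b : EuclideanSpace ℝ (Fin d)) -ᵥ q) := by
      simp only [vsub_eq_sub]; abel
    simp only [SetLike.mem_coe]
    rw [e]
    exact Submodule.sub_mem _ (dir a a.2) (dir b b.2)
  have h5 := Submodule.finrank_sup_add_finrank_inf_eq
    (vectorSpan ℝ (A : Set (EuclideanSpace ℝ (Fin d))))
    (vectorSpan ℝ (B : Set (EuclideanSpace ℝ (Fin d))))
  rw [hsupr, finrank_top, finrank_euclideanSpace_fin] at h5
  have h6 := Submodule.finrank_mono (le_inf hA hB)
  have h7 : 0 < A.card := card_pos.mpr hAne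
  have h8 : 0 < B.card := card_pos.mpr hBne
  omega

end Ex2

end Pool.Agent.Helper137.Ex
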