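import Mathlib

set_option autoImplicit false

namespace Pool.Agent.Helper137.IA

open Finset Module

variable {ι : Type*} [Fintype ι] [DecidableEq ι]

/-- The coordinates in `X` are independent as functionals on `B`. -/
def Ind (B : Submodule ℝ (ι → ℝ)) (X : Finset ι) : Prop :=
  ∀ c : ι → ℝ, (∀ β ∈ B, ∑ i ∈ X, c i * β i = 0) → ∀ i ∈ X, c i = 0

structure Hyp (s : Finset ι) (D A B : Submodule ℝ (ι → ℝ)) : Prop where
  hA : A ≤ D
  hB : B ≤ D
  span : ∀ y ∈ D, (∀ i ∈ s, y i = 0) → y = 0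
  nz : ∀ i ∈ s, ∃ y ∈ D, y i ≠ 0
  simple : ∀ i ∈ s, ∀ j ∈ s, i ≠ j → ∀ c : ℝ, 0 < c → ∃ y ∈ D, y j ≠ c * y i
  dep : ∀ α ∈ A, α ≠ 0 → ¬ Ind B (s.filter (fun i => α i ≠ 0))



theorem mz_ind_mono {B : Submodule ℝ (ι → ℝ)} {X Y : Finset ι} (h : Ind B X) (hYX : Y ⊆ X) :
    Ind B Y := by
  intro c hc i hi
  have h1 := h (fun j => if j ∈ Y then c j else 0) ?_ i (hYX hi)
  · simpa [hi] using h1
  · intro β hβ
    refine Eq.trans ?_ (hc β hβ)
    symm
    rw [← Finset.sum_subset hYX]
    · apply Finset.sum_congr rfl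
      intro j hj
      simp [hj]
    · intro j _ hj
      simp [hj]

/-- (a) maximal zero set -/
theorem maxzero (s : Finset ι) (D B : Submodule ℝ (ι → ℝ))
    (hspan : ∀ y ∈ D, (∀ i ∈ s, y i = 0) → y = 0)
    (y : ι → ℝ) (hy : y ∈ D) (hind : Ind B (s.filter (fun i => y i < 0)))
    (w : ι) (hw : w ∈ s) (hyw : y w < 0) :
    ∃ y ∈ D, y w < 0 ∧ Ind B (s.filter (fun i => y i < 0)) ∧
      (∀ z ∈ D, (∀ i ∈ s, y i = 0 → z i = 0) → ∃ t : ℝ, z = t • y) := by
  classical
  let P : (ι → ℝ) → Prop := fun y1 => y1 ∈ D ∧ y1 w < 0 ∧ Ind B (s.filter (fun i => y1 i < 0))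
  have hex : ∃ m : ℕ, ∃ y1, P y1 ∧ s.card - (s.filter (fun i => y1 i = 0)).card = m :=
    ⟨_, y, ⟨hy, hyw, hind⟩, rfl⟩
  obtain ⟨y1, ⟨hyD, hyw1, hyI⟩, hm⟩ := Nat.find_spec hex
  have hmax : ∀ y2, P y2 → (s.filter (fun i => y2 i = 0)).card ≤ (s.filter (fun i => y1 i = 0)).card := by
    intro y2 hP2
    have h1 : Nat.find hex ≤ s.card - (s.filter (fun i => y2 i = 0)).card :=
      Nat.find_min' hex ⟨y2, hP2, rfl⟩
    have h2 : (s.filter (fun i => y2 i = 0)).card ≤ s.card := Finset.card_filter_le _ _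
    have h3 : (s.filter (fun i => y1 i = 0)).card ≤ s.card := Finset.card_filter_le _ _
    omega
  refine ⟨y1, hyD, hyw1, hyI, fun z hz hz0 => ⟨z w / y1 w, ?_⟩⟩
  by_contra hne
  have hywne : y1 w ≠ 0 := hyw1.ne
  obtain ⟨z1, hz1def⟩ : ∃ z1 : ι → ℝ, z1 = z - (z w / y1 w) • y1 := ⟨_, rfl⟩
  have hz1D : z1 ∈ D := by
    rw [hz1def]
    exact D.sub_mem hz (D.smul_mem _ hyD)
  have hz1ne : z1 ≠ 0 := by
    rw [hz1def]
    intro h
    exact hne (sub_eq_zero.1 h)
  have hz1w : z1 w = 0 := by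
    rw [hz1def]
    simp only [Pi.sub_apply, Pi.smul_apply, smul_eq_mul]
    field_simp
    ring
  have hz1z : ∀ i ∈ s, y1 i = 0 → z1 i = 0 := by
    intro i hi h0
    rw [hz1def]
    simp only [Pi.sub_apply, Pi.smul_apply, smul_eq_mul]
    rw [hz0 i hi h0, h0]; ring
  have hT : (s.filter (fun i => z1 i ≠ 0)).Nonempty := by
    by_contra hT
    rw [Finset.not_nonempty_iff_eq_empty, Finset.filter_eq_empty_iff] at hT
    apply hz1ne
    apply hspan z1 hz1D
    intro i hi
    by_contra h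
    exact hT hi h
  obtain ⟨i0, hi0, hmin⟩ := Finset.exists_min_image _ (fun i => |y1 i / z1 i|) hT
  rw [Finset.mem_filter] at hi0
  have hy2 : P (y1 + (-(y1 i0 / z1 i0)) • z1) := by
    refine ⟨D.add_mem hyD (D.smul_mem _ hz1D), ?_, ?_⟩
    · simp only [Pi.add_apply, Pi.smul_apply, smul_eq_mul, hz1w, mul_zero, add_zero]
      exact hyw1
    · apply mz_ind_mono hyI
      intro j hj
      rw [Finset.mem_filter] at hj ⊢
      refine ⟨hj.1, ?_⟩
      have hj2 := hj.2
      simp only [Pi.add_apply, Pi.smul_apply, smul_eq_mul] at hj2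
      by_contra hge
      rw [not_lt] at hge
      by_cases hzj : z1 j = 0
      · rw [hzj, mul_zero, add_zero] at hj2
        linarith
      · have h1 := hmin j (Finset.mem_filter.2 ⟨hj.1, hzj⟩)
        have h2 : |(-(y1 i0 / z1 i0)) * z1 j| ≤ |y1 j| := by
          rw [abs_mul, abs_neg]
          calc |y1 i0 / z1 i0| * |z1 j| ≤ |y1 j / z1 j| * |z1 j| :=
                mul_le_mul_of_nonneg_right h1 (abs_nonneg _)
            _ = |y1 j| := by
                rw [← abs_mul, div_mul_cancel₀ _ hzj]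
        rw [abs_of_nonneg hge] at h2
        have h3 := neg_abs_le ((-(y1 i0 / z1 i0)) * z1 j)
        linarith
  have hlt : (s.filter (fun i => y1 i = 0)).card
      < (s.filter (fun i => (y1 + (-(y1 i0 / z1 i0)) • z1) i = 0)).card := by
    apply Finset.card_lt_card
    rw [Finset.ssubset_iff_of_subset]
    · refine ⟨i0, ?_, ?_⟩
      · rw [Finset.mem_filter]
        refine ⟨hi0.1, ?_⟩
        simp only [Pi.add_apply, Pi.smul_apply, smul_eq_mul]
        have := hi0.2
        field_simp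
        ring
      · rw [Finset.mem_filter]
        rintro ⟨_, h⟩
        exact hi0.2 (hz1z i0 hi0.1 h)
    · intro j hj
      rw [Finset.mem_filter] at hj ⊢
      refine ⟨hj.1, ?_⟩
      simp only [Pi.add_apply, Pi.smul_apply, smul_eq_mul]
      rw [hz1z j hj.1 hj.2, hj.2]; ring
  have := hmax _ hy2
  omega




omit [Fintype ι] in
theorem aux_small (s : Finset ι) (y v : ι → ℝ) :
    ∃ ε : ℝ, 0 < ε ∧ ∀ ε' : ℝ, 0 < ε' → ε' ≤ ε → ∀ k ∈ s, 0 < y k → 0 < y k + ε' * v k := by
  induction s using Finset.induction_on with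
  | empty => exact ⟨1, one_pos, fun _ _ _ k hk => absurd hk (Finset.notMem_empty k)⟩
  | insert a s ha ih =>
    obtain ⟨ε, hε, h⟩ := ih
    by_cases hy : 0 < y a
    · have hden : 0 < |v a| + 1 := by positivity
      refine ⟨min ε (y a / (|v a| + 1)), lt_min hε (div_pos hy hden), ?_⟩
      intro ε' h1 h2 k hk hyk
      rcases Finset.mem_insert.1 hk with rfl | hk'
      · have h3 : ε' ≤ y k / (|v k| + 1) := h2.trans (min_le_right _ _)
        rw [le_div_iff₀ hden] at h3
        have h4 : -|v k| ≤ v k := neg_abs_le _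
        nlinarith
      · exact h ε' h1 (h2.trans (min_le_left _ _)) k hk' hyk
    · refine ⟨ε, hε, ?_⟩
      intro ε' h1 h2 k hk hyk
      rcases Finset.mem_insert.1 hk with rfl | hk'
      · exact absurd hyk hy
      · exact h ε' h1 h2 k hk' hyk

omit [Fintype ι] in
theorem aux_red (s : Finset ι) (D B : Submodule ℝ (ι → ℝ))
    (hsimple : ∀ i ∈ s, ∀ j ∈ s, i ≠ j → ∀ c : ℝ, 0 < c → ∃ y ∈ D, y j ≠ c * y i)
    (δ : ι → ℝ) (hδ : δ ∈ D) (hpos : ∀ i ∈ s, 0 < δ i) (n : ℕ) :
    ∀ y ∈ D, (∀ i ∈ s, 0 ≤ y i) → (s.filter (fun i => y i = 0)).Nonempty →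
      (∀ i ∈ s, y i = 0 → ∃ β ∈ B, β i ≠ 0) → (s.filter (fun i => y i = 0)).card = n →
      ∃ y' ∈ D, ∃ w ∈ s, (∀ i ∈ s, i ≠ w → 0 < y' i) ∧ y' w = 0 ∧ ∃ β ∈ B, β w ≠ 0 := by
  induction n using Nat.strong_induction_on with
  | _ n ih =>
    intro y hy h0 hne hnl hcard
    by_cases h1 : ∃ i ∈ s.filter (fun i => y i = 0), ∃ j ∈ s.filter (fun i => y i = 0), i ≠ j
    · obtain ⟨i, hi, j, hj, hij⟩ := h1
      obtain ⟨his, hyi⟩ := Finset.mem_filter.1 hi
      obtain ⟨hjs, hyj⟩ := Finset.mem_filter.1 hj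
      have hdi := hpos i his
      have hdj := hpos j hjs
      obtain ⟨z, hz, hzj⟩ := hsimple i his j hjs hij (δ j / δ i) (div_pos hdj hdi)
      obtain ⟨z1, hz1⟩ : ∃ z1 : ι → ℝ, z1 = z - (z i / δ i) • δ := ⟨_, rfl⟩
      have hz1D : z1 ∈ D := by
        rw [hz1]
        exact D.sub_mem hz (D.smul_mem _ hδ)
      have hz1k : ∀ k, z1 k = z k - z i / δ i * δ k := by
        intro k
        rw [hz1]
        simp
      have hz1i : z1 i = 0 := by
        rw [hz1k, div_mul_cancel₀ _ hdi.ne', sub_self]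
      have hz1j : z1 j ≠ 0 := by
        rw [hz1k]
        intro h
        apply hzj
        have : z i / δ i * δ j = δ j / δ i * z i := by ring
        linarith
      obtain ⟨k0, hk0, hmax⟩ := Finset.exists_max_image (s.filter (fun i => y i = 0))
        (fun k => z1 k / δ k) hne
      obtain ⟨ρ, hρ⟩ : ∃ ρ : ℝ, ρ = z1 k0 / δ k0 := ⟨_, rfl⟩
      obtain ⟨ε, hε, hsm⟩ := aux_small s y (fun k => ρ * δ k - z1 k)
      have hsm' := hsm ε hε le_rfl
      obtain ⟨y2, hy2⟩ : ∃ y2 : ι → ℝ, y2 = y + ε • (ρ • δ - z1) := ⟨_, rfl⟩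
      have hy2k : ∀ k, y2 k = y k + ε * (ρ * δ k - z1 k) := by
        intro k
        rw [hy2]
        simp
      have hy2D : y2 ∈ D := by
        rw [hy2]
        exact D.add_mem hy (D.smul_mem _ (D.sub_mem (D.smul_mem _ hδ) hz1D))
      have hle : ∀ k ∈ s, y k = 0 → z1 k ≤ ρ * δ k := by
        intro k hk hyk
        have h2 := hmax k (Finset.mem_filter.2 ⟨hk, hyk⟩)
        rw [← hρ, div_le_iff₀ (hpos k hk)] at h2
        exact h2
      have hy2nn : ∀ k ∈ s, 0 ≤ y2 k := by
        intro k hk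
        rw [hy2k]
        rcases (h0 k hk).eq_or_lt with h2 | h2
        · rw [← h2, zero_add]
          exact mul_nonneg hε.le (by linarith [hle k hk h2.symm])
        · exact (hsm' k hk h2).le
      have hy2z : ∀ k ∈ s, y2 k = 0 → y k = 0 ∧ z1 k = ρ * δ k := by
        intro k hk h2
        rw [hy2k] at h2
        rcases (h0 k hk).eq_or_lt with h3 | h3
        · refine ⟨h3.symm, ?_⟩
          rw [← h3, zero_add] at h2
          rcases mul_eq_zero.1 h2 with h4 | h4
          · exact absurd h4 hε.ne'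
          · linarith
        · exact absurd h2 (hsm' k hk h3).ne'
      obtain ⟨hk0s, hyk0⟩ := Finset.mem_filter.1 hk0
      have hk0z : y2 k0 = 0 := by
        rw [hy2k, hyk0, hρ, div_mul_cancel₀ _ (hpos k0 hk0s).ne', sub_self, mul_zero, add_zero]
      have hsub : s.filter (fun i => y2 i = 0) ⊂ s.filter (fun i => y i = 0) := by
        rw [Finset.ssubset_iff_of_subset]
        · by_cases hr : ρ = 0
          · refine ⟨j, hj, ?_⟩
            intro h2
            obtain ⟨_, h3⟩ := Finset.mem_filter.1 h2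
            have h4 := (hy2z j hjs h3).2
            rw [hr, zero_mul] at h4
            exact hz1j h4
          · refine ⟨i, hi, ?_⟩
            intro h2
            obtain ⟨_, h3⟩ := Finset.mem_filter.1 h2
            have h4 := (hy2z i his h3).2
            rw [hz1i] at h4
            exact mul_ne_zero hr hdi.ne' h4.symm
        · intro k hk
          obtain ⟨h2, h3⟩ := Finset.mem_filter.1 hk
          exact Finset.mem_filter.2 ⟨h2, (hy2z k h2 h3).1⟩
      have hlt := Finset.card_lt_card hsub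
      exact ih _ (by omega) y2 hy2D hy2nn ⟨k0, Finset.mem_filter.2 ⟨hk0s, hk0z⟩⟩
        (fun k hk h2 => hnl k hk (hy2z k hk h2).1) rfl
    · push Not at h1
      obtain ⟨w, hw⟩ := hne
      obtain ⟨hws, hyw⟩ := Finset.mem_filter.1 hw
      refine ⟨y, hy, w, hws, ?_, hyw, hnl w hws hyw⟩
      intro k hk hkw
      rcases (h0 k hk).eq_or_lt with h2 | h2
      · exact absurd (h1 k (Finset.mem_filter.2 ⟨hk, h2.symm⟩) w hw) hkw
      · exact h2

/-- acyclic case: an extreme ray which is not a loop of `B` -/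
theorem acyc (s : Finset ι) (D B : Submodule ℝ (ι → ℝ)) (hB : B ≤ D)
    (hspan : ∀ y ∈ D, (∀ i ∈ s, y i = 0) → y = 0)
    (hsimple : ∀ i ∈ s, ∀ j ∈ s, i ≠ j → ∀ c : ℝ, 0 < c → ∃ y ∈ D, y j ≠ c * y i)
    (δ : ι → ℝ) (hδ : δ ∈ D) (hpos : ∀ i ∈ s, 0 < δ i) (hBne : ∃ β ∈ B, β ≠ 0) :
    ∃ y ∈ D, ∃ w ∈ s, y w < 0 ∧ (∀ i ∈ s, i ≠ w → 0 < y i) ∧ ∃ β ∈ B, β w ≠ 0 := by
  have h1 : ∃ β ∈ B, ∃ i ∈ s, 0 < β i := by
    obtain ⟨β, hβ, hne⟩ := hBne
    by_contra hcon
    push Not at hcon
    apply hne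
    apply hspan β (hB hβ)
    intro i hi
    have h2 := hcon β hβ i hi
    have h3 := hcon (-β) (B.neg_mem hβ) i hi
    rw [Pi.neg_apply] at h3
    linarith
  obtain ⟨β, hβ, i0, hi0, hβ0⟩ := h1
  obtain ⟨i1, hi1, hmax⟩ := Finset.exists_max_image s (fun k => β k / δ k) ⟨i0, hi0⟩
  obtain ⟨r, hr⟩ : ∃ r : ℝ, r = β i1 / δ i1 := ⟨_, rfl⟩
  have hmax' : ∀ k ∈ s, β k ≤ r * δ k := by
    intro k hk
    have h2 := hmax k hk
    rw [← hr, div_le_iff₀ (hpos k hk)] at h2
    exact h2
  have hrpos : 0 < r := by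
    have h2 := hmax' i0 hi0
    have h3 := hpos i0 hi0
    by_contra h4
    push Not at h4
    nlinarith
  obtain ⟨y1, hy1⟩ : ∃ y1 : ι → ℝ, y1 = r • δ - β := ⟨_, rfl⟩
  have hy1k : ∀ k, y1 k = r * δ k - β k := by
    intro k
    rw [hy1]
    simp
  have hy1D : y1 ∈ D := by
    rw [hy1]
    exact D.sub_mem (D.smul_mem _ hδ) (hB hβ)
  have hz : y1 i1 = 0 := by
    rw [hy1k, hr, div_mul_cancel₀ _ (hpos i1 hi1).ne', sub_self]
  obtain ⟨y, hy, w, hw, hyp, hyw, hnl⟩ := aux_red s D B hsimple δ hδ hpos _ y1 hy1D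
    (fun k hk => by rw [hy1k]; linarith [hmax' k hk])
    ⟨i1, Finset.mem_filter.2 ⟨hi1, hz⟩⟩
    (fun k hk h2 => ⟨β, hβ, by
      rw [hy1k] at h2
      have h3 : β k = r * δ k := by linarith
      rw [h3]
      exact (mul_pos hrpos (hpos k hk)).ne'⟩) rfl
  obtain ⟨ε, hε, hsm⟩ := aux_small s y (fun k => - δ k)
  have hsm' := hsm ε hε le_rfl
  refine ⟨y - ε • δ, D.sub_mem hy (D.smul_mem _ hδ), w, hw, ?_, ?_, hnl⟩
  · rw [Pi.sub_apply, hyw, Pi.smul_apply, smul_eq_mul]
    have := mul_pos hε (hpos w hw)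
    linarith
  · intro i hi hiw
    rw [Pi.sub_apply, Pi.smul_apply, smul_eq_mul]
    have := hsm' i hi (hyp i hi hiw)
    linarith



theorem ind_mono {B : Submodule ℝ (ι → ℝ)} {X Y : Finset ι} (hXY : X ⊆ Y) (hY : Ind B Y) : Ind B X := by
  classical
  intro c hc i hi
  have h1 := hY (fun j => if j ∈ X then c j else 0) (by
    intro β hβ
    have h2 := hc β hβ
    have h3 : ∑ j ∈ X, (if j ∈ X then c j else 0) * β j = ∑ j ∈ Y, (if j ∈ X then c j else 0) * β j := by
      apply Finset.sum_subset hXY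
      intro j _ hj
      rw [if_neg hj, zero_mul]
    have h4 : ∑ j ∈ X, (if j ∈ X then c j else 0) * β j = ∑ j ∈ X, c j * β j := by
      apply Finset.sum_congr rfl
      intro j hj
      rw [if_pos hj]
    rw [← h3, h4, h2]) i (hXY hi)
  simpa [hi] using h1

theorem ind_single {B : Submodule ℝ (ι → ℝ)} {w : ι} {β : ι → ℝ} (hβ : β ∈ B) (hw : β w ≠ 0) :
    Ind B {w} := by
  intro c hc i hi
  rw [Finset.mem_singleton] at hi
  subst hi
  have := hc β hβ
  rw [Finset.sum_singleton] at this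
  rcases mul_eq_zero.mp this with h | h
  · exact h
  · exact absurd h hw

/-- Step 1 -/
theorem step1 (s : Finset ι) (D A B : Submodule ℝ (ι → ℝ)) (h : Hyp s D A B)
    (hmin : ∀ i ∈ s, ¬ Hyp (s.erase i) D A B) (hBne : ∃ β ∈ B, β ≠ 0) :
    ∃ y ∈ D, y ≠ 0 ∧ Ind B (s.filter (fun i => y i < 0)) ∧
      ((∃ i ∈ s, y i < 0) ∨ y ∉ B) ∧
      (∀ z ∈ D, (∀ i ∈ s, y i = 0 → z i = 0) → ∃ t : ℝ, z = t • y) := by
  classical
  by_cases hcol : ∃ w ∈ s, ∃ z ∈ D, z ≠ 0 ∧ ∀ i ∈ s.erase w, z i = 0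
  · obtain ⟨w, hws, z0, hz0D, hz0ne, hz0⟩ := hcol
    have hz0w : z0 w ≠ 0 := by
      intro h0
      apply hz0ne
      apply h.span z0 hz0D
      intro i hi
      by_cases hiw : i = w
      · rw [hiw]; exact h0
      · exact hz0 i (Finset.mem_erase.mpr ⟨hiw, hi⟩)
    obtain ⟨z, hzD, hzw, hz⟩ : ∃ z ∈ D, z w = 1 ∧ ∀ i ∈ s, i ≠ w → z i = 0 := by
      refine ⟨(z0 w)⁻¹ • z0, D.smul_mem _ hz0D, ?_, ?_⟩
      · simp [hz0w]
      · intro i hi hiw
        simp [hz0 i (Finset.mem_erase.mpr ⟨hiw, hi⟩)]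
    have hmax : ∀ z2 ∈ D, (∀ i ∈ s, z i = 0 → z2 i = 0) → z2 = (z2 w) • z := by
      intro z2 hz2 hv
      have h1 : z2 - (z2 w) • z = 0 := by
        apply h.span _ (D.sub_mem hz2 (D.smul_mem _ hzD))
        intro i hi
        by_cases hiw : i = w
        · rw [hiw]; simp [hzw]
        · have h2 := hz i hi hiw
          have h3 := hv i hi h2
          simp [h2, h3]
      exact sub_eq_zero.mp h1
    by_cases hb : ∃ β ∈ B, β w ≠ 0
    · obtain ⟨β, hβ, hβw⟩ := hb
      refine ⟨-z, D.neg_mem hzD, ?_, ?_, ?_, ?_⟩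
      · intro h0
        have : (-z) w = 0 := by rw [h0]; rfl
        rw [Pi.neg_apply, hzw] at this
        norm_num at this
      · apply ind_mono (Y := {w}) _ (ind_single hβ hβw)
        intro i hi
        rw [Finset.mem_filter] at hi
        rw [Finset.mem_singleton]
        by_contra hiw
        have := hi.2
        rw [Pi.neg_apply, hz i hi.1 hiw] at this
        norm_num at this
      · left
        exact ⟨w, hws, by rw [Pi.neg_apply, hzw]; norm_num⟩
      · intro z2 hz2 hv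
        refine ⟨-(z2 w), ?_⟩
        have := hmax z2 hz2 (fun i hi h0 => hv i hi (by rw [Pi.neg_apply, h0, neg_zero]))
        rw [smul_neg, neg_smul, neg_neg]
        exact this
    · refine ⟨z, hzD, ?_, ?_, ?_, ?_⟩
      · intro h0
        rw [h0] at hzw
        norm_num at hzw
      · have he : s.filter (fun i => z i < 0) = ∅ := by
          apply Finset.filter_eq_empty_iff.mpr
          intro i hi
          by_cases hiw : i = w
          · rw [hiw, hzw]; norm_num
          · rw [hz i hi hiw]; norm_num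
        rw [he]
        intro c _ i hi
        exact absurd hi (Finset.notMem_empty i)
      · right
        intro hzB
        exact hb ⟨z, hzB, by rw [hzw]; norm_num⟩
      · intro z2 hz2 hv
        exact ⟨z2 w, hmax z2 hz2 hv⟩
  · have key : ∀ w ∈ s, ∃ α ∈ A, 0 < α w ∧ Ind B (s.filter (fun i => α i < 0)) := by
      intro w hws
      by_contra hno
      apply hmin w hws
      refine ⟨h.hA, h.hB, ?_, ?_, ?_, ?_⟩
      · intro y hy hy0
        by_contra hne
        exact hcol ⟨w, hws, y, hy, hne, hy0⟩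
      · intro i hi
        exact h.nz i (Finset.mem_of_mem_erase hi)
      · intro i hi j hj hij c hc
        exact h.simple i (Finset.mem_of_mem_erase hi) j (Finset.mem_of_mem_erase hj) hij c hc
      · intro α hα hαne hInd
        have hαw : α w ≠ 0 := by
          intro h0
          apply h.dep α hα hαne
          apply ind_mono _ hInd
          intro i hi
          rw [Finset.mem_filter] at hi ⊢
          refine ⟨Finset.mem_erase.mpr ⟨?_, hi.1⟩, hi.2⟩
          intro hiw
          rw [hiw] at hi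
          exact hi.2 h0
        rcases lt_or_gt_of_ne hαw with hlt | hgt
        · apply hno
          refine ⟨-α, A.neg_mem hα, by rw [Pi.neg_apply]; linarith, ?_⟩
          apply ind_mono _ hInd
          intro i hi
          rw [Finset.mem_filter] at hi ⊢
          have h2 := hi.2
          rw [Pi.neg_apply] at h2
          refine ⟨Finset.mem_erase.mpr ⟨?_, hi.1⟩, ?_⟩
          · intro hiw
            rw [hiw] at h2
            linarith
          · intro h0
            rw [h0] at h2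
            norm_num at h2
        · apply hno
          refine ⟨α, hα, hgt, ?_⟩
          apply ind_mono _ hInd
          intro i hi
          rw [Finset.mem_filter] at hi ⊢
          have h2 := hi.2
          refine ⟨Finset.mem_erase.mpr ⟨?_, hi.1⟩, ?_⟩
          · intro hiw
            rw [hiw] at h2
            linarith
          · intro h0
            rw [h0] at h2
            norm_num at h2
    choose! α hα hαw hαI using key
    by_cases hex : ∃ w ∈ s, ∃ w0 ∈ s, α w w0 < 0
    · obtain ⟨w, hw, w0, hw0, hlt⟩ := hex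
      obtain ⟨y, hyD, hyw, hyI, hymax⟩ := maxzero s D B h.span (α w) (h.hA (hα w hw)) (hαI w hw) w0 hw0 hlt
      refine ⟨y, hyD, ?_, hyI, Or.inl ⟨w0, hw0, hyw⟩, hymax⟩
      intro h0
      rw [h0] at hyw
      simp at hyw
    · push Not at hex
      obtain ⟨y, hyD, w, hws, hyw, hpos, β, hβ, hβw⟩ := acyc s D B h.hB h.span h.simple (∑ w ∈ s, α w)
        (D.sum_mem (fun w hw => h.hA (hα w hw))) (by
          intro i hi
          rw [Finset.sum_apply]
          apply Finset.sum_pos'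
          · intro w hw
            exact hex w hw i hi
          · exact ⟨i, hi, hαw i hi⟩) hBne
      have hI : Ind B (s.filter (fun i => y i < 0)) := by
        apply ind_mono (Y := {w}) _ (ind_single hβ hβw)
        intro i hi
        rw [Finset.mem_filter] at hi
        rw [Finset.mem_singleton]
        by_contra hiw
        have := hpos i hi.1 hiw
        linarith [hi.2]
      obtain ⟨y', hyD', hyw', hyI', hymax'⟩ := maxzero s D B h.span y hyD hI w hws hyw
      refine ⟨y', hyD', ?_, hyI', Or.inl ⟨w, hws, hyw'⟩, hymax'⟩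
      intro h0
      rw [h0] at hyw'
      simp at hyw'




/-- small perturbation keeps strict signs -/
theorem perturb (s : Finset ι) (y z : ι → ℝ) :
    ∃ ε : ℝ, 0 < ε ∧ ∀ i ∈ s, (0 < y i → 0 < y i + ε * z i) ∧ (y i < 0 → y i + ε * z i < 0) := by
  have h1 : ∀ i ∈ s, ∀ᶠ ε in nhds (0 : ℝ),
      (0 < y i → 0 < y i + ε * z i) ∧ (y i < 0 → y i + ε * z i < 0) := by
    intro i _
    have hc : Continuous (fun ε : ℝ => y i + ε * z i) := by fun_prop
    have h0 : (fun ε : ℝ => y i + ε * z i) 0 = y i := by simp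
    apply Filter.Eventually.and
    · by_cases h : 0 < y i
      · have := hc.continuousAt.eventually_const_lt (show (0 : ℝ) < (fun ε : ℝ => y i + ε * z i) 0 by
          rw [h0]; exact h)
        exact this.mono fun ε hε _ => hε
      · exact Filter.Eventually.of_forall fun ε h' => absurd h' h
    · by_cases h : y i < 0
      · have := hc.continuousAt.eventually_lt_const (show (fun ε : ℝ => y i + ε * z i) 0 < (0 : ℝ) by
          rw [h0]; exact h)
        exact this.mono fun ε hε _ => hε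
      · exact Filter.Eventually.of_forall fun ε h' => absurd h' h
  have h2 : ∀ᶠ ε in nhds (0 : ℝ), ∀ i ∈ s,
      (0 < y i → 0 < y i + ε * z i) ∧ (y i < 0 → y i + ε * z i < 0) :=
    (Filter.eventually_all_finset s).2 h1
  have h3 : ∀ᶠ ε in nhdsWithin (0 : ℝ) (Set.Ioi 0), ∀ i ∈ s,
      (0 < y i → 0 < y i + ε * z i) ∧ (y i < 0 → y i + ε * z i < 0) :=
    h2.filter_mono nhdsWithin_le_nhds
  have h4 : ∀ᶠ ε in nhdsWithin (0 : ℝ) (Set.Ioi 0), 0 < ε := self_mem_nhdsWithin
  obtain ⟨ε, h5, h6⟩ := (h4.and h3).exists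
  exact ⟨ε, h5, h6⟩

/-- case `B = 0` -/
theorem poshit (s : Finset ι) (D : Submodule ℝ (ι → ℝ))
    (hspan : ∀ y ∈ D, (∀ i ∈ s, y i = 0) → y = 0) :
    ∃ y ∈ D, ∀ α ∈ D, (∀ i ∈ s, 0 < y i → α i = 0) → α = 0 := by
  classical
  by_contra hcon
  push Not at hcon
  have key : ∀ n : ℕ, ∃ y ∈ D, n ≤ (s.filter (fun i => 0 < y i)).card := by
    intro n
    induction n with
    | zero => exact ⟨0, D.zero_mem, Nat.zero_le _⟩
    | succ n ih =>
      obtain ⟨y, hy, hn⟩ := ih
      obtain ⟨α, hα, hα0, hαne⟩ := hcon y hy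
      have h1 : ∃ i ∈ s, α i ≠ 0 := by
        by_contra h2
        push Not at h2
        exact hαne (hspan α hα h2)
      obtain ⟨i, hi, hαi⟩ := h1
      refine ⟨y + ((|y i| + 1) * (α i)⁻¹) • α, D.add_mem hy (D.smul_mem _ hα), ?_⟩
      have h3 : insert i (s.filter (fun i => 0 < y i)) ⊆
          s.filter (fun j => 0 < (y + ((|y i| + 1) * (α i)⁻¹) • α) j) := by
        intro j hj
        rcases Finset.mem_insert.1 hj with rfl | hj
        · rw [Finset.mem_filter]
          refine ⟨hi, ?_⟩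
          simp only [Pi.add_apply, Pi.smul_apply, smul_eq_mul]
          rw [mul_assoc, inv_mul_cancel₀ hαi, mul_one]
          have := neg_abs_le (y j)
          linarith
        · rw [Finset.mem_filter] at hj ⊢
          refine ⟨hj.1, ?_⟩
          simp only [Pi.add_apply, Pi.smul_apply, smul_eq_mul]
          rw [hα0 j hj.1 hj.2, mul_zero, add_zero]
          exact hj.2
      have h4 : i ∉ s.filter (fun i => 0 < y i) := by
        intro h5
        rw [Finset.mem_filter] at h5
        exact hαi (hα0 i h5.1 h5.2)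
      have h6 := Finset.card_le_card h3
      rw [Finset.card_insert_of_notMem h4] at h6
      omega
  obtain ⟨y, _, hn⟩ := key (s.card + 1)
  have := Finset.card_filter_le s (fun i => 0 < y i)
  omega




/-- zero out the coordinates outside `Z` -/
def proj (Z : Finset ι) : (ι → ℝ) →ₗ[ℝ] (ι → ℝ) where
  toFun f := fun i => if i ∈ Z then f i else 0
  map_add' := by
    intro a b; funext i; by_cases h : i ∈ Z <;> simp [h]
  map_smul' := by
    intro c a; funext i; by_cases h : i ∈ Z <;> simp [h]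

/-- functions in `A` vanishing on `F` -/
def van (A : Submodule ℝ (ι → ℝ)) (F : Finset ι) : Submodule ℝ (ι → ℝ) where
  carrier := {y | y ∈ A ∧ ∀ i ∈ F, y i = 0}
  zero_mem' := ⟨A.zero_mem, fun _ _ => rfl⟩
  add_mem' := by
    rintro a b ⟨ha, ha2⟩ ⟨hb, hb2⟩
    refine ⟨A.add_mem ha hb, fun i hi => ?_⟩
    simp [ha2 i hi, hb2 i hi]
  smul_mem' := by
    rintro c a ⟨ha, ha2⟩
    refine ⟨A.smul_mem c ha, fun i hi => ?_⟩
    simp [ha2 i hi]

/-- local problem at `y` -/
theorem proj_in (Z : Finset ι) (f : ι → ℝ) {i : ι} (hi : i ∈ Z) : proj Z f i = f i := by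
  change (if i ∈ Z then f i else 0) = f i
  rw [if_pos hi]

theorem proj_out (Z : Finset ι) (f : ι → ℝ) {i : ι} (hi : i ∉ Z) : proj Z f i = 0 := by
  change (if i ∈ Z then f i else 0) = 0
  rw [if_neg hi]

theorem van_le (A : Submodule ℝ (ι → ℝ)) (F : Finset ι) : van A F ≤ A := fun _ h => h.1

theorem local_hyp (s : Finset ι) (D A B : Submodule ℝ (ι → ℝ)) (h : Hyp s D A B)
    (y : ι → ℝ) (hE : Ind B (s.filter (fun i => y i < 0))) :
    Hyp (s.filter (fun i => y i = 0)) (D.map (proj (s.filter (fun i => y i = 0))))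
      ((van A (s.filter (fun i => 0 < y i))).map (proj (s.filter (fun i => y i = 0))))
      ((van B (s.filter (fun i => y i < 0))).map (proj (s.filter (fun i => y i = 0)))) := by
  set Z := s.filter (fun i => y i = 0) with hZ
  refine ⟨Submodule.map_mono ((van_le _ _).trans h.hA), Submodule.map_mono ((van_le _ _).trans h.hB),
    ?_, ?_, ?_, ?_⟩
  · rintro _ ⟨w, -, rfl⟩ h0
    funext i
    by_cases hi : i ∈ Z
    · exact h0 i hi
    · exact proj_out Z w hi
  · intro i hi
    obtain ⟨w, hw, hwi⟩ := h.nz i (Finset.mem_filter.1 hi).1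
    exact ⟨proj Z w, ⟨w, hw, rfl⟩, by rw [proj_in Z w hi]; exact hwi⟩
  · intro i hi j hj hij c hc
    obtain ⟨w, hw, hwi⟩ := h.simple i (Finset.mem_filter.1 hi).1 j (Finset.mem_filter.1 hj).1 hij c hc
    exact ⟨proj Z w, ⟨w, hw, rfl⟩, by rw [proj_in Z w hi, proj_in Z w hj]; exact hwi⟩
  · rintro _ ⟨α, ⟨hαA, hαF⟩, rfl⟩ hne hInd
    have hα0 : α ≠ 0 := by
      rintro rfl
      exact hne (map_zero _)
    apply h.dep α hαA hα0
    intro c hc
    have hpos : ∀ i ∈ s, 0 < y i → α i = 0 := fun i hi hy =>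
      hαF i (Finset.mem_filter.2 ⟨hi, hy⟩)
    have step1 : ∀ i ∈ s, y i = 0 → α i ≠ 0 → c i = 0 := by
      intro i hi hy hαi
      have hiZ : i ∈ Z := Finset.mem_filter.2 ⟨hi, hy⟩
      apply hInd c _ i (Finset.mem_filter.2 ⟨hiZ, by rw [proj_in Z α hiZ]; exact hαi⟩)
      rintro _ ⟨β, ⟨hβB, hβE⟩, rfl⟩
      refine Eq.trans ?_ (hc β hβB)
      rw [Finset.sum_congr rfl (g := fun i => c i * β i)]
      · apply Finset.sum_subset
        · intro j hj
          obtain ⟨hj1, hj2⟩ := Finset.mem_filter.1 hj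
          rw [proj_in Z α hj1] at hj2
          exact Finset.mem_filter.2 ⟨(Finset.mem_filter.1 hj1).1, hj2⟩
        · intro j hj hj'
          obtain ⟨hj1, hj2⟩ := Finset.mem_filter.1 hj
          rcases lt_trichotomy (y j) 0 with hy' | hy' | hy'
          · rw [hβE j (Finset.mem_filter.2 ⟨hj1, hy'⟩), mul_zero]
          · exfalso
            apply hj'
            have hjZ : j ∈ Z := Finset.mem_filter.2 ⟨hj1, hy'⟩
            exact Finset.mem_filter.2 ⟨hjZ, by rw [proj_in Z α hjZ]; exact hj2⟩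
          · exact absurd (hpos j hj1 hy') hj2
      · intro j hj
        rw [proj_in Z β (Finset.mem_filter.1 hj).1]
    have step2 : ∀ i ∈ s.filter (fun i => y i < 0), (if α i ≠ 0 then c i else 0) = 0 := by
      apply hE (fun i => if α i ≠ 0 then c i else 0)
      intro β hβ
      have e1 := hc β hβ
      rw [Finset.sum_filter] at e1
      refine Eq.trans ?_ e1
      rw [Finset.sum_congr rfl (g := fun i => if α i ≠ 0 then c i * β i else 0)]
      · apply Finset.sum_subset (Finset.filter_subset _ _)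
        intro j hj hj'
        by_cases hαj : α j ≠ 0
        · rw [if_pos hαj]
          rcases lt_trichotomy (y j) 0 with hy' | hy' | hy'
          · exact absurd (Finset.mem_filter.2 ⟨hj, hy'⟩) hj'
          · rw [step1 j hj hy' hαj, zero_mul]
          · exact absurd (hpos j hj hy') hαj
        · rw [if_neg hαj]
      · intro j _
        by_cases hαj : α j ≠ 0
        · rw [if_pos hαj, if_pos hαj]
        · rw [if_neg hαj, if_neg hαj, zero_mul]
    intro i hi
    obtain ⟨hi1, hi2⟩ := Finset.mem_filter.1 hi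
    rcases lt_trichotomy (y i) 0 with hy' | hy' | hy'
    · have := step2 i (Finset.mem_filter.2 ⟨hi1, hy'⟩)
      rwa [if_pos hi2] at this
    · exact step1 i hi1 hy' hi2
    · exact absurd (hpos i hi1 hy') hi2


theorem ia_rank (D : Submodule ℝ (ι → ℝ)) (f : (ι → ℝ) →ₗ[ℝ] (ι → ℝ)) (y : ι → ℝ) (hy : y ∈ D)
    (hy0 : y ≠ 0) (hf : f y = 0) : finrank ℝ (D.map f) < finrank ℝ D := by
  have h1 := LinearMap.finrank_range_add_finrank_ker (f.domRestrict D)
  rw [LinearMap.range_domRestrict] at h1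
  have h2 : 0 < finrank ℝ (LinearMap.ker (f.domRestrict D)) := by
    rcases Nat.eq_zero_or_pos (finrank ℝ (LinearMap.ker (f.domRestrict D))) with h | h
    · exfalso
      rw [Submodule.finrank_eq_zero] at h
      have hm : (⟨y, hy⟩ : D) ∈ LinearMap.ker (f.domRestrict D) := by
        rw [LinearMap.mem_ker]
        exact hf
      rw [h, Submodule.mem_bot] at hm
      exact hy0 (congrArg Subtype.val hm)
    · exact h
  omega

theorem main : ∀ (n : ℕ) (s : Finset ι) (D A B : Submodule ℝ (ι → ℝ)), finrank ℝ D = n →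
    Hyp s D A B →
    ∃ y ∈ D, (∀ α ∈ A, (∀ i ∈ s, 0 < y i → α i = 0) → α = 0) ∧
      (∀ β ∈ B, (∀ i ∈ s, y i < 0 → β i = 0) → β = 0) := by
  intro n
  induction n using Nat.strong_induction_on with
  | _ n ih =>
  suffices H : ∀ (m : ℕ) (s : Finset ι) (D A B : Submodule ℝ (ι → ℝ)), s.card = m →
      finrank ℝ D = n → Hyp s D A B →
      ∃ y ∈ D, (∀ α ∈ A, (∀ i ∈ s, 0 < y i → α i = 0) → α = 0) ∧
        (∀ β ∈ B, (∀ i ∈ s, y i < 0 → β i = 0) → β = 0) by
    intro s D A B hn h
    exact H s.card s D A B rfl hn h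
  intro m
  induction m using Nat.strong_induction_on with
  | _ m ihm =>
  intro s D A B hm hn h
  by_cases hc1 : ∃ i ∈ s, Hyp (s.erase i) D A B
  · obtain ⟨i, hi, hH⟩ := hc1
    have hlt : (s.erase i).card < m := by
      rw [← hm]
      exact Finset.card_erase_lt_of_mem hi
    obtain ⟨y, hy, h1, h2⟩ := ihm _ hlt (s.erase i) D A B rfl hn hH
    exact ⟨y, hy, fun α hα hv => h1 α hα fun j hj => hv j (Finset.mem_of_mem_erase hj),
      fun β hβ hv => h2 β hβ fun j hj => hv j (Finset.mem_of_mem_erase hj)⟩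
  push Not at hc1
  by_cases hB : ∃ β ∈ B, β ≠ 0
  swap
  · push Not at hB
    obtain ⟨y, hy, h1⟩ := poshit s D h.span
    exact ⟨y, hy, fun α hα hv => h1 α (h.hA hα) hv, fun β hβ _ => hB β hβ⟩
  obtain ⟨y0, hy0, hy00, hInd, halt, huniq⟩ := step1 s D A B h hc1 hB
  have hloc := local_hyp s D A B h y0 hInd
  set Z := s.filter (fun i => y0 i = 0) with hZ
  have hprojZ : ∀ (f : ι → ℝ) (i : ι), i ∈ Z → proj Z f i = f i := by
    intro f i hi
    show (if i ∈ Z then f i else 0) = f i
    rw [if_pos hi]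
  have hrk : finrank ℝ (D.map (proj Z)) < n := by
    rw [← hn]
    refine ia_rank D (proj Z) y0 hy0 hy00 ?_
    funext i
    show (if i ∈ Z then y0 i else 0) = 0
    split_ifs with hi
    · exact (Finset.mem_filter.1 hi).2
    · rfl
  obtain ⟨y1, ⟨z, hz, rfl⟩, h1, h2⟩ := ih _ hrk Z _ _ _ rfl hloc
  obtain ⟨ε, hε, hpert⟩ := perturb s y0 z
  have hvanish : ∀ α ∈ D, proj Z α = 0 → ∃ t : ℝ, α = t • y0 := by
    intro α hα hp
    refine huniq α hα fun i hi hi0 => ?_
    have hiZ : i ∈ Z := Finset.mem_filter.2 ⟨hi, hi0⟩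
    rw [← hprojZ α i hiZ, hp]
    rfl
  refine ⟨y0 + ε • z, D.add_mem hy0 (D.smul_mem ε hz), fun α hα hv => ?_, fun β hβ hv => ?_⟩
  · have hF : ∀ i ∈ s.filter (fun i => 0 < y0 i), α i = 0 := by
      intro i hi
      have hi' := Finset.mem_filter.1 hi
      exact hv i hi'.1 ((hpert i hi'.1).1 hi'.2)
    have hp : proj Z α = 0 := by
      refine h1 _ ⟨α, ⟨hα, hF⟩, rfl⟩ fun i hi hpos => ?_
      rw [hprojZ z i hi] at hpos
      rw [hprojZ α i hi]
      have hi' := Finset.mem_filter.1 hi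
      refine hv i hi'.1 ?_
      show 0 < y0 i + ε * z i
      rw [hi'.2, zero_add]
      positivity
    obtain ⟨t, ht⟩ := hvanish α (h.hA hα) hp
    by_contra hα0
    have ht0 : t ≠ 0 := by
      rintro rfl
      exact hα0 (by rw [ht, zero_smul])
    have hy0A : y0 ∈ A := by
      have : y0 = t⁻¹ • α := by rw [ht, smul_smul, inv_mul_cancel₀ ht0, one_smul]
      rw [this]
      exact A.smul_mem _ hα
    have hFe : ∀ i ∈ s, ¬ 0 < y0 i := by
      intro i hi hpos
      have h3 := hF i (Finset.mem_filter.2 ⟨hi, hpos⟩)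
      rw [ht] at h3
      have h4 : t * y0 i = 0 := h3
      rcases mul_eq_zero.1 h4 with h5 | h5
      · exact ht0 h5
      · exact hpos.ne' h5
    apply h.dep y0 hy0A hy00
    have hfe : s.filter (fun i => y0 i ≠ 0) = s.filter (fun i => y0 i < 0) := by
      refine Finset.filter_congr fun i hi => ?_
      constructor
      · intro h5
        exact lt_of_le_of_ne (not_lt.1 (hFe i hi)) h5
      · intro h5
        exact h5.ne
    rw [hfe]
    exact hInd
  · have hE : ∀ i ∈ s.filter (fun i => y0 i < 0), β i = 0 := by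
      intro i hi
      have hi' := Finset.mem_filter.1 hi
      exact hv i hi'.1 ((hpert i hi'.1).2 hi'.2)
    have hp : proj Z β = 0 := by
      refine h2 _ ⟨β, ⟨hβ, hE⟩, rfl⟩ fun i hi hneg => ?_
      rw [hprojZ z i hi] at hneg
      rw [hprojZ β i hi]
      have hi' := Finset.mem_filter.1 hi
      refine hv i hi'.1 ?_
      show y0 i + ε * z i < 0
      rw [hi'.2, zero_add]
      exact mul_neg_of_pos_of_neg hε hneg
    obtain ⟨t, ht⟩ := hvanish β (h.hB hβ) hp
    by_contra hβ0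
    have ht0 : t ≠ 0 := by
      rintro rfl
      exact hβ0 (by rw [ht, zero_smul])
    have hy0B : y0 ∈ B := by
      have : y0 = t⁻¹ • β := by rw [ht, smul_smul, inv_mul_cancel₀ ht0, one_smul]
      rw [this]
      exact B.smul_mem _ hβ
    rcases halt with ⟨i, hi, hneg⟩ | hnB
    · have h3 := hE i (Finset.mem_filter.2 ⟨hi, hneg⟩)
      rw [ht] at h3
      have h4 : t * y0 i = 0 := h3
      rcases mul_eq_zero.1 h4 with h5 | h5
      · exact ht0 h5
      · exact hneg.ne h5
    · exact hnB hy0B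


end Pool.Agent.Helper137.IA
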