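import Mathlib
import Pool.Agent.Helper137.IA
import Pool.Agent.Helper137.KL
import Pool.Agent.Helper137.Rec

set_option autoImplicit false

namespace Pool.Agent.Helper137.IB

open Finset Module Pool.Agent.Helper137.Core Pool.Agent.Helper137.KL
open Pool.Agent.Helper137.IA (Ind Hyp main local_hyp proj van)

section A

variable {ι : Type*} [Fintype ι] [DecidableEq ι]

theorem perturb0 (s : Finset ι) (y z : ι → ℝ) :
    ∃ ε : ℝ, 0 < ε ∧ ∀ i ∈ s, (0 < y i → 0 < y i + ε * z i) ∧ (y i < 0 → y i + ε * z i < 0) :=
  Pool.Agent.Helper137.IA.perturb s y z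

/-- If the coordinates in `X` are independent on `B`, then `|X| ≤ dim B`. -/
theorem ind_card (B : Submodule ℝ (ι → ℝ)) (X : Finset ι) (h : Ind B X) :
    X.card ≤ finrank ℝ B := by
  have hli : LinearIndependent ℝ (fun i : X =>
      ((LinearMap.proj (R := ℝ) (φ := fun _ : ι => ℝ) i.1).comp B.subtype : Module.Dual ℝ B)) := by
    rw [Fintype.linearIndependent_iff]
    intro g hg i
    have h1 := h (fun i => if hi : i ∈ X then g ⟨i, hi⟩ else 0) (by
      intro β hβ
      have h2 := LinearMap.congr_fun hg (⟨β, hβ⟩ : B)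
      rw [LinearMap.sum_apply] at h2
      simp only [LinearMap.smul_apply, LinearMap.comp_apply, LinearMap.proj_apply,
        Submodule.subtype_apply, smul_eq_mul, LinearMap.zero_apply] at h2
      rw [← h2, ← Finset.sum_coe_sort X]
      refine Finset.sum_congr rfl fun j _ => ?_
      rw [dif_pos j.2]) i.1 i.2
    rw [dif_pos i.2] at h1
    exact h1
  have h1 := hli.fintype_card_le_finrank
  rw [Fintype.card_coe, Subspace.dual_finrank_eq] at h1
  exact h1

/-- From a vector hitting `L` positively and a subspace `B` of dimension `k+1` negatively. -/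
theorem finish (L B : Submodule ℝ (ι → ℝ)) (hB : B ≤ L) (k : ℕ) (hBk : k + 1 ≤ finrank ℝ B)
    (hnl : ∀ i, ∃ y ∈ L, y i ≠ 0) (y : ι → ℝ) (hy : y ∈ L)
    (h1 : ∀ α ∈ L, (∀ i, 0 < y i → α i = 0) → α = 0)
    (h2 : ∀ β ∈ B, (∀ i, y i < 0 → β i = 0) → β = 0) :
    ∃ y ∈ L, (∀ i, y i ≠ 0) ∧ (finrank ℝ L : ℤ) + k + 1 ≤ rk L (pos y) + rk L (neg y) := by
  classical
  obtain ⟨y1, hy1, hs, hg⟩ := perturb L y hy
    (univ.image (fun i => (LinearMap.proj (R := ℝ) (φ := fun _ : ι => ℝ) i))) (by
      intro g hg
      obtain ⟨i, -, rfl⟩ := Finset.mem_image.1 hg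
      obtain ⟨v, hv, hvi⟩ := hnl i
      exact ⟨v, hv, hvi⟩)
  have hne : ∀ i, y1 i ≠ 0 := fun i => hg _ (Finset.mem_image_of_mem _ (Finset.mem_univ i))
  refine ⟨y1, hy1, hne, ?_⟩
  have hp : ∀ i, 0 < y i → i ∈ pos y1 := by
    intro i hi
    rw [KL.mem_pos]
    have h3 := hs i hi.ne'
    exact (mul_pos_iff_of_pos_left hi).1 h3
  have hn : ∀ i, y i < 0 → i ∈ neg y1 := by
    intro i hi
    rw [KL.mem_neg]
    have h3 := hs i hi.ne
    by_contra hcon
    push Not at hcon
    have := mul_nonpos_of_nonpos_of_nonneg hi.le hcon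
    linarith
  have e1 : Lz L (pos y1) = ⊥ := by
    rw [Submodule.eq_bot_iff]
    rintro v ⟨hv, hv2⟩
    exact h1 v hv (fun i hi => hv2 i (hp i hi))
  have e2 : Lz L (neg y1) ⊓ B = ⊥ := by
    rw [Submodule.eq_bot_iff]
    rintro v ⟨⟨hv, hv2⟩, hvB⟩
    exact h2 v hvB (fun i hi => hv2 i (hn i hi))
  have e3 := Submodule.finrank_sup_add_finrank_inf_eq (Lz L (neg y1)) B
  rw [e2, finrank_bot, add_zero] at e3
  have hle : Lz L (neg y1) ⊔ B ≤ L := sup_le (fun v hv => hv.1) hB
  have e4 := Submodule.finrank_mono hle
  unfold rk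
  rw [e1, finrank_bot]
  push_cast
  omega


/-- The simple case. -/
theorem simple_case (L : Submodule ℝ (ι → ℝ)) (k : ℕ) (hnl : ∀ i, ∃ y ∈ L, y i ≠ 0)
    (hdist : ∀ i j, i ≠ j → ∀ c : ℝ, 0 < c → ∃ y ∈ L, y j ≠ c * y i)
    (hmd : ∀ z ∈ L, ∀ P : Finset ι, P.card ≤ k + 1 → (∀ i, i ∉ P → z i = 0) → z = 0)
    (hl : k + 1 ≤ finrank ℝ L) :
    ∃ y ∈ L, (∀ i, y i ≠ 0) ∧ (finrank ℝ L : ℤ) + k + 1 ≤ rk L (pos y) + rk L (neg y) := by
  obtain ⟨t, ht, hli⟩ := exists_finset_linearIndependent_of_le_finrank hl
  -- the span of `t` mapped to the ambient space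
  set B : Submodule ℝ (ι → ℝ) := (Submodule.span ℝ (t : Set L)).map L.subtype with hBdef
  have hBL : B ≤ L := by
    rw [hBdef]
    rintro _ ⟨x, -, rfl⟩
    exact x.2
  have hBf : finrank ℝ B = k + 1 := by
    rw [hBdef, Submodule.finrank_map_subtype_eq, finrank_span_finset_eq_card hli, ht]
  have hyp : Hyp univ L L B :=
    { hA := le_rfl
      hB := hBL
      span := fun y _ h => funext fun i => h i (mem_univ i)
      nz := fun i _ => hnl i
      simple := fun i _ j _ hij c hc => hdist i j hij c hc
      dep := by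
        intro α hα hα0 hind
        refine hα0 (hmd α hα (univ.filter fun i => α i ≠ 0) ?_ ?_)
        · have := ind_card B _ hind
          rwa [hBf] at this
        · intro i hi
          by_contra h
          exact hi (by simp [h]) }
  obtain ⟨y, hy, h1, h2⟩ := main _ univ L L B rfl hyp
  refine finish L B hBL k hBf.ge hnl y hy ?_ ?_
  · intro α hα h
    exact h1 α hα fun i _ hi => h i hi
  · intro β hβ h
    exact h2 β hβ fun i _ hi => h i hi


theorem ind_mono671 (B : Submodule ℝ (ι → ℝ)) (X E : Finset ι) (h : Ind B X) (hE : E ⊆ X) :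
    Ind B E := by
  intro c hc a ha
  have h2 := h (fun a => if a ∈ E then c a else 0) (fun β hβ => by
    have e : ∑ a ∈ X, (if a ∈ E then c a else 0) * β a = ∑ a ∈ E, c a * β a := by
      rw [← Finset.sum_subset hE (fun a _ ha => by simp [ha])]
      refine Finset.sum_congr rfl fun a ha => by simp [ha]
    rw [e]; exact hc β hβ) a (hE ha)
  simpa [ha] using h2

theorem heavy1B (L : Submodule ℝ (ι → ℝ)) (hL : ∀ y ∈ L, ∑ i, y i = 0) (k : ℕ)
    (hnl : ∀ i, ∃ y ∈ L, y i ≠ 0)
    (hmd : ∀ z ∈ L, ∀ P : Finset ι, P.card ≤ k + 1 → (∀ i, i ∉ P → z i = 0) → z = 0)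
    (hl : finrank ℝ L = k + 1)
    (i j : ι) (hij : i ≠ j) (c : ℝ) (hc : 0 < c) (hpar : ∀ y ∈ L, y j = c * y i)
    (hdist : ∀ a b, a ≠ j → b ≠ j → a ≠ b → ∀ c : ℝ, 0 < c → ∃ y ∈ L, y b ≠ c * y a)
    (α : ι → ℝ) (hα : α ∈ L) (hαi : 0 < α i)
    (hX : Ind L ((univ.erase j).filter (fun a => α a ≠ 0))) :
    ∃ y ∈ L, (∀ i, y i ≠ 0) ∧ (finrank ℝ L : ℤ) + k + 1 ≤ rk L (pos y) + rk L (neg y) := by
  classical
  have hXc : ((univ.erase j).filter (fun a => α a ≠ 0)).card ≤ k + 1 :=
    (ind_card L _ hX).trans hl.le
  have hαj : 0 < α j := by rw [hpar α hα]; positivity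
  have his : i ∈ (univ.erase j : Finset ι) := by simp [hij]
  -- w
  obtain ⟨w, hw⟩ : ∃ w, α w < 0 := by
    by_contra hcon
    push Not at hcon
    have h0 := hL α hα
    have := (Finset.sum_eq_zero_iff_of_nonneg (fun a _ => hcon a)).1 h0 i (mem_univ i)
    exact hαi.ne' this
  have hwj : w ≠ j := by rintro rfl; linarith
  have hE : Ind L ((univ.erase j).filter (fun a => α a < 0)) := by
    refine ind_mono671 L _ _ hX fun a ha => ?_
    rw [mem_filter] at ha ⊢
    exact ⟨ha.1, ha.2.ne⟩
  have hEc : ((univ.erase j).filter (fun a => α a < 0)).card ≤ k + 1 :=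
    (ind_card L _ hE).trans hl.le
  have hiF : i ∈ (univ.erase j).filter (fun a => 0 < α a) := by
    rw [mem_filter]; exact ⟨his, hαi⟩
  have hH : Hyp (univ.erase j) L (van L ((univ.erase j).filter (fun a => 0 < α a))) L := by
    refine ⟨fun y hy => hy.1, le_rfl, ?_, fun a _ => hnl a, ?_, ?_⟩
    · intro y hy h0
      funext a
      by_cases haj : a = j
      · subst haj
        rw [hpar y hy, h0 i his, mul_zero]; rfl
      · exact h0 a (by simp [haj])
    · intro a ha b hb hab
      exact hdist a b (by simpa using ha) (by simpa using hb) hab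
    · intro α1 hα1 hne hI
      apply hne
      have h1i : α1 i = 0 := hα1.2 i hiF
      have h1j : α1 j = 0 := by rw [hpar α1 hα1.1, h1i, mul_zero]
      refine hmd α1 hα1.1 _ ((ind_card L _ hI).trans hl.le) fun a ha => ?_
      by_contra hcon
      apply ha
      rw [mem_filter]
      refine ⟨?_, hcon⟩
      have : a ≠ j := by rintro rfl; exact hcon h1j
      simp [this]
  have hloc := local_hyp _ _ _ _ hH α hE
  obtain ⟨y1, hy1, hp1, hp2⟩ := main _ _ _ _ _ rfl hloc
  obtain ⟨z, hz, rfl⟩ := hy1
  obtain ⟨ε, hε, hpert⟩ := perturb0 (univ.erase j) α z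
  have hyL : α + ε • z ∈ L := L.add_mem hα (L.smul_mem ε hz)
  have hyv : ∀ a, (α + ε • z) a = α a + ε * z a := fun a => by
    simp [smul_eq_mul]
  refine finish L L le_rfl k hl.ge hnl (α + ε • z) hyL ?_ ?_
  · intro α1 hα1 hv
    have hF1 : ∀ a ∈ (univ.erase j).filter (fun a => 0 < α a), α1 a = 0 := by
      intro a ha
      rw [mem_filter] at ha
      apply hv
      rw [hyv]
      exact (hpert a ha.1).1 ha.2
    have hproj : proj ((univ.erase j).filter (fun a => α a = 0)) α1 = 0 := by
      refine hp1 _ ⟨α1, ⟨⟨hα1, hF1⟩, hF1⟩, rfl⟩ ?_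
      intro a ha hpa
      have haZ := ha
      rw [mem_filter] at haZ
      simp only [proj, LinearMap.coe_mk, AddHom.coe_mk, ha, if_true] at hpa ⊢
      apply hv
      rw [hyv, haZ.2, zero_add]
      positivity
    have hZ0 : ∀ a ∈ (univ.erase j).filter (fun a => α a = 0), α1 a = 0 := by
      intro a ha
      have := congrFun hproj a
      simp only [proj, LinearMap.coe_mk, AddHom.coe_mk, ha, if_true] at this
      exact this
    have h1i : α1 i = 0 := hF1 i hiF
    have h1j : α1 j = 0 := by rw [hpar α1 hα1, h1i, mul_zero]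
    refine hmd α1 hα1 _ hEc fun a ha => ?_
    by_cases haj : a = j
    · rw [haj]; exact h1j
    have has : a ∈ (univ.erase j : Finset ι) := by simp [haj]
    rcases lt_trichotomy (α a) 0 with h | h | h
    · exact absurd (mem_filter.2 ⟨has, h⟩) ha
    · exact hZ0 a (mem_filter.2 ⟨has, h⟩)
    · exact hF1 a (mem_filter.2 ⟨has, h⟩)
  · intro β hβ hv
    have hE1 : ∀ a ∈ (univ.erase j).filter (fun a => α a < 0), β a = 0 := by
      intro a ha
      rw [mem_filter] at ha
      apply hv
      rw [hyv]
      exact (hpert a ha.1).2 ha.2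
    have hproj : proj ((univ.erase j).filter (fun a => α a = 0)) β = 0 := by
      refine hp2 _ ⟨β, ⟨hβ, hE1⟩, rfl⟩ ?_
      intro a ha hpa
      have haZ := ha
      rw [mem_filter] at haZ
      simp only [proj, LinearMap.coe_mk, AddHom.coe_mk, ha, if_true] at hpa ⊢
      apply hv
      rw [hyv, haZ.2, zero_add]
      exact mul_neg_of_pos_of_neg hε hpa
    have hZ0 : ∀ a ∈ (univ.erase j).filter (fun a => α a = 0), β a = 0 := by
      intro a ha
      have := congrFun hproj a
      simp only [proj, LinearMap.coe_mk, AddHom.coe_mk, ha, if_true] at this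
      exact this
    have hβw : β w = 0 := hE1 w (mem_filter.2 ⟨by simp [hwj], hw⟩)
    by_contra hβ0
    obtain ⟨f, hfF, hf⟩ : ∃ f ∈ (univ.erase j).filter (fun a => 0 < α a), β f ≠ 0 := by
      by_contra hcon
      push Not at hcon
      apply hβ0
      have h1i : β i = 0 := hcon i hiF
      have h1j : β j = 0 := by rw [hpar β hβ, h1i, mul_zero]
      funext a
      by_cases haj : a = j
      · rw [haj]; exact h1j
      have has : a ∈ (univ.erase j : Finset ι) := by simp [haj]
      rcases lt_trichotomy (α a) 0 with h | h | h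
      · exact hE1 a (mem_filter.2 ⟨has, h⟩)
      · exact hZ0 a (mem_filter.2 ⟨has, h⟩)
      · exact hcon a (mem_filter.2 ⟨has, h⟩)
    rw [mem_filter] at hfF
    have hfpos := hfF.2
    have hγL : β - (β f / α f) • α ∈ L := L.sub_mem hβ (L.smul_mem _ hα)
    have hγv : ∀ a, (β - (β f / α f) • α) a = β a - β f / α f * α a := fun a => by
      simp [smul_eq_mul]
    have hγf : (β - (β f / α f) • α) f = 0 := by
      rw [hγv]; field_simp; ring
    have hγZ : ∀ a, a ≠ j → α a = 0 → (β - (β f / α f) • α) a = 0 := by
      intro a haj ha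
      rw [hγv, ha, hZ0 a (mem_filter.2 ⟨by simp [haj], ha⟩)]; ring
    have hγ0 : β - (β f / α f) • α = 0 := by
      by_cases hfi : f = i
      · have hγj : (β - (β f / α f) • α) j = 0 := by
          rw [hpar _ hγL, ← hfi, hγf, mul_zero]
        refine hmd _ hγL _ hXc fun a ha => ?_
        by_cases haj : a = j
        · rw [haj]; exact hγj
        · apply hγZ a haj
          by_contra hcon
          exact ha (mem_filter.2 ⟨by simp [haj], hcon⟩)
      · refine hmd _ hγL (insert j (((univ.erase j).filter (fun a => α a ≠ 0)).erase f)) ?_ fun a ha => ?_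
        · refine (card_insert_le _ _).trans ?_
          rw [card_erase_add_one]
          · exact hXc
          · exact mem_filter.2 ⟨hfF.1, hfpos.ne'⟩
        · rw [mem_insert, not_or] at ha
          by_cases haf : a = f
          · rw [haf]; exact hγf
          · apply hγZ a ha.1
            by_contra hcon
            exact ha.2 (mem_erase.2 ⟨haf, mem_filter.2 ⟨by simp [ha.1], hcon⟩⟩)
    have hw0 := congrFun hγ0 w
    rw [hγv, hβw] at hw0
    have : β f / α f = 0 := by
      have h3 : β f / α f * α w = 0 := by
        have : (0 : ι → ℝ) w = 0 := rfl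
        rw [this] at hw0
        linarith
      rcases mul_eq_zero.1 h3 with h | h
      · exact h
      · exact absurd h hw.ne
    rcases div_eq_zero_iff.1 this with h | h
    · exact hf h
    · exact hfpos.ne' h

/-- Exactly one class of two positively proportional coordinates, `dim L = k + 1`. -/
theorem heavy1 (L : Submodule ℝ (ι → ℝ)) (hL : ∀ y ∈ L, ∑ i, y i = 0) (k : ℕ)
    (hnl : ∀ i, ∃ y ∈ L, y i ≠ 0)
    (hmd : ∀ z ∈ L, ∀ P : Finset ι, P.card ≤ k + 1 → (∀ i, i ∉ P → z i = 0) → z = 0)
    (hl : finrank ℝ L = k + 1)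
    (i j : ι) (hij : i ≠ j) (c : ℝ) (hc : 0 < c) (hpar : ∀ y ∈ L, y j = c * y i)
    (hdist : ∀ a b, a ≠ j → b ≠ j → a ≠ b → ∀ c : ℝ, 0 < c → ∃ y ∈ L, y b ≠ c * y a) :
    ∃ y ∈ L, (∀ i, y i ≠ 0) ∧ (finrank ℝ L : ℤ) + k + 1 ≤ rk L (pos y) + rk L (neg y) := by
  classical
  have his : i ∈ (univ.erase j : Finset ι) := by simp [hij]
  by_cases hdep : ∀ α ∈ L, α ≠ 0 → ¬ Ind L ((univ.erase j).filter (fun a => α a ≠ 0))
  · have hH : Hyp (univ.erase j) L L L := by
      refine ⟨le_rfl, le_rfl, ?_, fun a _ => hnl a, ?_, hdep⟩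
      · intro y hy h0
        funext a
        by_cases haj : a = j
        · subst haj
          rw [hpar y hy, h0 i his, mul_zero]; rfl
        · exact h0 a (by simp [haj])
      · intro a ha b hb hab
        exact hdist a b (by simpa using ha) (by simpa using hb) hab
    obtain ⟨y, hy, h1, h2⟩ := main _ _ _ _ _ rfl hH
    exact finish L L le_rfl k hl.ge hnl y hy (fun α hα h => h1 α hα fun a _ hp => h a hp)
      (fun α hα h => h2 α hα fun a _ hp => h a hp)
  · push Not at hdep
    obtain ⟨α, hα, hα0, hI⟩ := hdep
    have hXc : ((univ.erase j).filter (fun a => α a ≠ 0)).card ≤ k + 1 :=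
      (ind_card L _ hI).trans hl.le
    have hαi : α i ≠ 0 := by
      intro h0
      have hj0 : α j = 0 := by rw [hpar α hα, h0, mul_zero]
      apply hα0
      refine hmd α hα _ hXc fun a ha => ?_
      by_contra hcon
      apply ha
      rw [mem_filter]
      refine ⟨?_, hcon⟩
      have : a ≠ j := by rintro rfl; exact hcon hj0
      simp [this]
    rcases lt_or_gt_of_ne hαi with h | h
    · refine heavy1B L hL k hnl hmd hl i j hij c hc hpar hdist (-α) (L.neg_mem hα) (by
        simpa using h) ?_
      simpa using hI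
    · exact heavy1B L hL k hnl hmd hl i j hij c hc hpar hdist α hα h hI


end A

open Pool.Agent.Helper137.Dep Pool.Agent.Helper137.Rec

variable {E : Type} [NormedAddCommGroup E] [NormedSpace ℝ E] [FiniteDimensional ℝ E] [DecidableEq E]

/-- The recursion. -/
theorem recD (k : ℕ) (hk : 2 ≤ k) : ∀ n : ℕ, ∀ S : Finset E, S.card = n → KIndep k S →
    k + 1 ≤ finrank ℝ (dep S) → S.card ≤ 2 * finrank ℝ (dep S) + 1 → Div2 k S := by
  classical
  intro n
  induction n using Nat.strong_induction_on with
  | _ n ih =>
  intro S hSn hS hl hn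
  have hmd := hmd_of_KIndep k S hS
  have hLz1 : ∀ x : S, finrank ℝ (dep S) ≤ finrank ℝ (Lz (dep S) {x}) + 1 := by
    intro x
    have := rk_insert_le (dep S) ∅ x
    have e1 : (insert x ∅ : Finset S) = {x} := by ext z; simp
    rw [rk_empty, e1] at this
    simp only [rk] at this
    omega
  by_cases hnl : ∀ i : S, ∃ y ∈ dep S, y i ≠ 0
  swap
  · push Not at hnl
    obtain ⟨i, hi⟩ := hnl
    have h1 : dep S ≤ Lz (dep S) {i} := by
      intro y hy
      refine ⟨hy, ?_⟩
      intro j hj
      rw [mem_singleton] at hj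
      rw [hj]; exact hi y hy
    have h2 := Submodule.finrank_mono h1
    have h3 := finrank_sub S {i}
    have h4 : (S \ pts S {i}).card + 1 = S.card := by
      have : pts S {i} = {(i : E)} := by simp [pts]
      rw [this, card_sdiff_of_subset (by simp)]
      have : 0 < S.card := card_pos.mpr ⟨i, i.2⟩
      simp only [card_singleton]
      omega
    exact Div2.mono (ih (S \ pts S {i}).card (by omega) _ rfl (hS.mono sdiff_subset) (by omega)
      (by omega)) sdiff_subset
  by_cases hdist : ∀ i j : S, i ≠ j → ∀ c : ℝ, 0 < c → ∃ y ∈ dep S, y j ≠ c * y i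
  · -- simple case
    obtain ⟨y, hy, hnz, hr⟩ := simple_case (dep S) k hnl hdist hmd hl
    exact geoDim S k (by omega) y hy hnz hr
  · push Not at hdist
    obtain ⟨i, j, hij, c, hc, hpar⟩ := hdist
    have h1 : Lz (dep S) {i} ≤ Lz (dep S) {i, j} := by
      intro y hy
      refine ⟨hy.1, ?_⟩
      intro x hx
      have hyi : y i = 0 := hy.2 i (mem_singleton_self _)
      rw [mem_insert, mem_singleton] at hx
      rcases hx with rfl | rfl
      · exact hyi
      · rw [hpar y hy.1, hyi, mul_zero]
    have h2 := Submodule.finrank_mono h1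
    have h3 := finrank_sub S {i, j}
    have h5 := hLz1 i
    have hpts : pts S {i, j} = {(i : E), (j : E)} := by simp [pts]
    have hijE : (i : E) ≠ j := fun h => hij (Subtype.ext h)
    have h4 : (S \ pts S {i, j}).card + 2 = S.card := by
      rw [hpts, card_sdiff_of_subset (by
        intro x hx
        rw [mem_insert, mem_singleton] at hx
        rcases hx with rfl | rfl
        · exact i.2
        · exact j.2), card_pair hijE]
      have : 1 < S.card := one_lt_card.mpr ⟨i, i.2, j, j.2, hijE⟩
      omega
    by_cases hl2 : k + 2 ≤ finrank ℝ (dep S)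
    · exact Div2.mono (ih (S \ pts S {i, j}).card (by omega) _ rfl (hS.mono sdiff_subset) (by omega)
        (by omega)) sdiff_subset
    · -- finrank = k + 1
      have hl3 : finrank ℝ (dep S) = k + 1 := by omega
      have hsupp : ∀ (M : Submodule ℝ (S → ℝ)), M ≤ dep S → 1 ≤ finrank ℝ M → ∀ T : Finset S,
          (∀ z ∈ M, ∀ x, x ∉ T → z x = 0) → k + 1 + finrank ℝ M ≤ T.card := by
        intro M hM h1M T hT
        have := supp_bound (dep S) k hmd M hM h1M T hT
        omega
      obtain ⟨y, hy, hnz, hr⟩ := heavy1 (dep S) (fun y hy => ((mem_dep S y).mp hy).1) k hnl hmd hl3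
        i j hij c hc hpar (by
          intro a b haj hbj hab c' hc'
          by_contra hcon
          push Not at hcon
          have u2 : ∀ (P : Finset S) (x : S), finrank ℝ (Lz (dep S) P) ≤
              finrank ℝ (Lz (dep S) (insert x P)) + 1 := by
            intro P x
            have := rk_insert_le (dep S) P x
            simp only [rk] at this
            omega
          by_cases hai : a = i
          · subst hai
            have := hsupp (Lz (dep S) {a}) (fun z hz => hz.1) (by omega) (univ \ {a, j, b}) (by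
              intro z hz x hx
              have hz' : z a = 0 := hz.2 a (mem_singleton_self _)
              simp only [Finset.mem_sdiff, mem_univ, true_and, not_not, mem_insert,
                mem_singleton] at hx
              rcases hx with rfl | rfl | rfl
              · exact hz'
              · rw [hpar z hz.1, hz', mul_zero]
              · rw [hcon z hz.1, hz', mul_zero])
            have hc3 : ({a, j, b} : Finset S).card = 3 := by
              rw [card_eq_three]
              exact ⟨a, j, b, hij, hab, fun h => hbj h.symm, rfl⟩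
            rw [card_sdiff_of_subset (subset_univ _), hc3, card_univ, Fintype.card_coe] at this
            omega
          by_cases hbi : b = i
          · subst hbi
            have := hsupp (Lz (dep S) {a}) (fun z hz => hz.1) (by have := hLz1 a; omega)
              (univ \ {a, j, b}) (by
              intro z hz x hx
              have hz' : z a = 0 := hz.2 a (mem_singleton_self _)
              have hz'' : z b = 0 := by rw [hcon z hz.1, hz', mul_zero]
              simp only [Finset.mem_sdiff, mem_univ, true_and, not_not, mem_insert,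
                mem_singleton] at hx
              rcases hx with rfl | rfl | rfl
              · exact hz'
              · rw [hpar z hz.1, hz'', mul_zero]
              · exact hz'')
            have hc3 : ({a, j, b} : Finset S).card = 3 := by
              rw [card_eq_three]
              exact ⟨a, j, b, haj, hab, fun h => hbj h.symm, rfl⟩
            rw [card_sdiff_of_subset (subset_univ _), hc3, card_univ, Fintype.card_coe] at this
            have h7 := hLz1 a
            omega
          · have h8 := u2 {i} a
            have := hsupp (Lz (dep S) (insert a {i})) (fun z hz => hz.1) (by omega)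
              (univ \ {i, j, a, b}) (by
              intro z hz x hx
              have hza : z a = 0 := hz.2 a (mem_insert_self _ _)
              have hzi : z i = 0 := hz.2 i (mem_insert_of_mem (mem_singleton_self _))
              simp only [Finset.mem_sdiff, mem_univ, true_and, not_not, mem_insert,
                mem_singleton] at hx
              rcases hx with rfl | rfl | rfl | rfl
              · exact hzi
              · rw [hpar z hz.1, hzi, mul_zero]
              · exact hza
              · rw [hcon z hz.1, hza, mul_zero])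
            have hc4 : ({i, j, a, b} : Finset S).card = 4 := by
              rw [card_insert_of_notMem, card_insert_of_notMem, card_insert_of_notMem,
                card_singleton]
              · rw [mem_singleton]; exact hab
              · rw [mem_insert, mem_singleton]
                rintro (h | h)
                · exact haj h.symm
                · exact hbj h.symm
              · rw [mem_insert, mem_insert, mem_singleton]
                rintro (h | h | h)
                · exact hij h
                · exact hai h.symm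
                · exact hbi h.symm
            rw [card_sdiff_of_subset (subset_univ _), hc4, card_univ, Fintype.card_coe] at this
            omega)
      exact geoDim S k (by omega) y hy hnz hr

/-- Upper bound. -/
theorem upperD (d k : ℕ) (hk : 2 ≤ k) (hkd : k + 1 ≤ d) (hE : finrank ℝ E = d) (S : Finset E)
    (hS : KIndep k S) (hc : 2 * d + 1 ≤ S.card) : Div2 k S := by
  obtain ⟨T, hT, hTc⟩ := exists_subset_card_eq hc
  refine Div2.mono ?_ hT
  have hdim : T.card ≤ finrank ℝ (dep T) + (d + 1) := by
    have h1 := LinearMap.finrank_range_add_finrank_ker (depMap T)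
    have h2 : finrank ℝ (LinearMap.range (depMap T)) ≤ finrank ℝ (ℝ × E) :=
      Submodule.finrank_le _
    rw [Module.finrank_prod, finrank_self, hE] at h2
    have h3 : finrank ℝ (T → ℝ) = T.card := by
      rw [Module.finrank_fintype_fun_eq_card, Fintype.card_coe]
    rw [h3] at h1
    change T.card ≤ finrank ℝ (LinearMap.ker (depMap T)) + (d + 1)
    omega
  exact recD k hk _ T rfl (hS.mono hT) (by omega) (by omega)


end Pool.Agent.Helper137.IB
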