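import Mathlib
import Pool.Agent.Helper137.IB

set_option autoImplicit false

namespace Pool.Agent.Helper137.IC

section Cases

open Finset Module

variable {ι : Type*}

/-- Ten coordinates, two pairs of proportional ones, dimension four, supports of size at least
five. -/
structure H (L : Submodule ℝ (ι → ℝ)) (i1 j1 i2 j2 p1 p2 p3 q1 q2 q3 : ι) (c1 c2 : ℝ) : Prop where
  hall : ∀ x, x = i1 ∨ x = j1 ∨ x = i2 ∨ x = j2 ∨ x = p1 ∨ x = p2 ∨ x = p3 ∨ x = q1 ∨ x = q2 ∨ x = q3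
  sum : ∀ y ∈ L, y i1 + y j1 + y i2 + y j2 + y p1 + y p2 + y p3 + y q1 + y q2 + y q3 = 0
  hmd : ∀ z ∈ L, ∀ a b c d : ι, (∀ x, x ≠ a → x ≠ b → x ≠ c → x ≠ d → z x = 0) → z = 0
  hc1 : 0 < c1
  hc2 : 0 < c2
  par1 : ∀ y ∈ L, y j1 = c1 * y i1
  par2 : ∀ y ∈ L, y j2 = c2 * y i2
  fin : finrank ℝ L = 4

/-- Both sides of `y` span. -/
def Full (L : Submodule ℝ (ι → ℝ)) (y : ι → ℝ) : Prop :=
  (∀ z ∈ L, (∀ x, 0 < y x → z x = 0) → z = 0) ∧ (∀ z ∈ L, (∀ x, y x < 0 → z x = 0) → z = 0)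



theorem caseC (L : Submodule ℝ (ι → ℝ)) (i1 j1 i2 j2 p1 p2 p3 q1 q2 q3 : ι) (c1 c2 : ℝ)
    (h : H L i1 j1 i2 j2 p1 p2 p3 q1 q2 q3 c1 c2) (y0 : ι → ℝ) (hy0 : y0 ∈ L)
    (h1 : y0 i1 = 0) (h2 : y0 i2 = 0) (hp1 : 0 < y0 p1) (hp2 : 0 < y0 p2) (hp3 : 0 < y0 p3)
    (hq1 : y0 q1 < 0) (hq2 : y0 q2 < 0) (hq3 : y0 q3 < 0)
    (u : ι → ℝ) (hu : u ∈ L) (hu1 : u i1 = 1) (hu2 : u i2 = -1)
    (hP : ∀ z ∈ L, z p1 = 0 → z p2 = 0 → z p3 = 0 → z i1 = 0 → z = 0)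
    (hQ : ∀ z ∈ L, z q1 = 0 → z q2 = 0 → z q3 = 0 → z i2 = 0 → z = 0) :
    ∃ y ∈ L, Full L y := by
  have key : ∀ a b : ℝ, 0 < a → ∀ᶠ ε in nhdsWithin (0:ℝ) (Set.Ioi 0), 0 < a + ε * b := by
    intro a b ha
    have h1 : Filter.Tendsto (fun ε : ℝ => a + ε * b) (nhdsWithin (0:ℝ) (Set.Ioi 0))
        (nhds (a + 0 * b)) := by
      apply Filter.Tendsto.mono_left _ nhdsWithin_le_nhds
      exact (continuous_const.add (continuous_id.mul continuous_const)).tendsto 0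
    exact h1.eventually (lt_mem_nhds (by simpa using ha))
  have key2 : ∀ a b : ℝ, a < 0 → ∀ᶠ ε in nhdsWithin (0:ℝ) (Set.Ioi 0), a + ε * b < 0 := by
    intro a b ha
    filter_upwards [key (-a) (-b) (by linarith)] with ε hε
    linarith
  have hpos : ∀ᶠ ε in nhdsWithin (0:ℝ) (Set.Ioi 0), (0:ℝ) < ε := by
    filter_upwards [self_mem_nhdsWithin] with ε hε using hε
  obtain ⟨ε, hε, e1, e2, e3, e4, e5, e6⟩ :=
    (hpos.and ((key _ (u p1) hp1).and ((key _ (u p2) hp2).and ((key _ (u p3) hp3).and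
      ((key2 _ (u q1) hq1).and ((key2 _ (u q2) hq2).and (key2 _ (u q3) hq3))))))).exists
  have hv : ∀ x, (y0 + ε • u) x = y0 x + ε * u x := fun x => by
    simp [Pi.add_apply, Pi.smul_apply, smul_eq_mul]
  refine ⟨y0 + ε • u, L.add_mem hy0 (L.smul_mem ε hu), ?_, ?_⟩
  · intro z hz hzx
    refine hP z hz (hzx p1 ?_) (hzx p2 ?_) (hzx p3 ?_) (hzx i1 ?_)
    · rw [hv]; exact e1
    · rw [hv]; exact e2
    · rw [hv]; exact e3
    · rw [hv, h1, hu1]; linarith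
  · intro z hz hzx
    refine hQ z hz (hzx q1 ?_) (hzx q2 ?_) (hzx q3 ?_) (hzx i2 ?_)
    · rw [hv]; exact e4
    · rw [hv]; exact e5
    · rw [hv]; exact e6
    · rw [hv, h2, hu2]; linarith


theorem h636_pick1 (Y1 Y2 Y3 Z1 Z2 Z3 : ℝ) (h1 : 0 < Y1) (hZ : Z1 < 0)
    (h12 : Y2 * Z1 < Y1 * Z2) (h13 : Y3 * Z1 < Y1 * Z3) :
    ∃ s : ℝ, 0 < s ∧ Y1 + s * Z1 < 0 ∧ 0 < Y2 + s * Z2 ∧ 0 < Y3 + s * Z3 := by
  have hs : 0 < -Y1 / Z1 := div_pos_of_neg_of_neg (by linarith) hZ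
  have e1 : Y1 + (-Y1 / Z1) * Z1 = 0 := by
    rw [div_mul_cancel₀ _ hZ.ne]; ring
  have e2 : 0 < Y2 + (-Y1 / Z1) * Z2 := by
    have : Y2 + (-Y1 / Z1) * Z2 = (Y2 * Z1 - Y1 * Z2) / Z1 := by
      field_simp [hZ.ne]; ring
    rw [this]
    exact div_pos_of_neg_of_neg (by linarith) hZ
  have e3 : 0 < Y3 + (-Y1 / Z1) * Z3 := by
    have : Y3 + (-Y1 / Z1) * Z3 = (Y3 * Z1 - Y1 * Z3) / Z1 := by
      field_simp [hZ.ne]; ring
    rw [this]
    exact div_pos_of_neg_of_neg (by linarith) hZ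
  have c2 : Continuous (fun s : ℝ => Y2 + s * Z2) := by fun_prop
  have c3 : Continuous (fun s : ℝ => Y3 + s * Z3) := by fun_prop
  have k2 : ∀ᶠ s in nhdsWithin (-Y1 / Z1) (Set.Ioi (-Y1 / Z1)), 0 < Y2 + s * Z2 :=
    nhdsWithin_le_nhds (c2.continuousAt.eventually (lt_mem_nhds e2))
  have k3 : ∀ᶠ s in nhdsWithin (-Y1 / Z1) (Set.Ioi (-Y1 / Z1)), 0 < Y3 + s * Z3 :=
    nhdsWithin_le_nhds (c3.continuousAt.eventually (lt_mem_nhds e3))
  have k4 : ∀ᶠ s in nhdsWithin (-Y1 / Z1) (Set.Ioi (-Y1 / Z1)), -Y1 / Z1 < s :=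
    eventually_mem_nhdsWithin
  obtain ⟨s, ⟨h2, h3⟩, h4⟩ := ((k2.and k3).and k4).exists
  refine ⟨s, hs.trans h4, ?_, h2, h3⟩
  nlinarith

theorem h636_pick (Y1 Y2 Y3 Z1 Z2 Z3 : ℝ) (h1 : 0 < Y1) (h2 : 0 < Y2) (h3 : 0 < Y3)
    (hn : Z1 < 0 ∨ Z2 < 0 ∨ Z3 < 0) (h12 : Y1 * Z2 - Y2 * Z1 ≠ 0) (h13 : Y1 * Z3 - Y3 * Z1 ≠ 0)
    (h23 : Y2 * Z3 - Y3 * Z2 ≠ 0) :
    ∃ s : ℝ, 0 < s ∧ ((Y1 + s * Z1 < 0 ∧ 0 < Y2 + s * Z2 ∧ 0 < Y3 + s * Z3) ∨
      (Y2 + s * Z2 < 0 ∧ 0 < Y1 + s * Z1 ∧ 0 < Y3 + s * Z3) ∨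
      (Y3 + s * Z3 < 0 ∧ 0 < Y1 + s * Z1 ∧ 0 < Y2 + s * Z2)) := by
  have key : ∀ a b c d : ℝ, 0 < a → 0 < c → (a * d - c * b < 0 ↔ d / c < b / a) := by
    intro a b c d ha hc
    rw [div_lt_div_iff₀ hc ha]
    constructor <;> intro h <;> linarith
  have r12 : Z1 / Y1 ≠ Z2 / Y2 := by
    intro h
    rw [div_eq_div_iff h1.ne' h2.ne'] at h
    apply h12; linarith
  have r13 : Z1 / Y1 ≠ Z3 / Y3 := by
    intro h
    rw [div_eq_div_iff h1.ne' h3.ne'] at h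
    apply h13; linarith
  have r23 : Z2 / Y2 ≠ Z3 / Y3 := by
    intro h
    rw [div_eq_div_iff h2.ne' h3.ne'] at h
    apply h23; linarith
  have hneg : Z1 / Y1 < 0 ∨ Z2 / Y2 < 0 ∨ Z3 / Y3 < 0 := by
    rcases hn with h | h | h
    · exact Or.inl (div_neg_of_neg_of_pos h h1)
    · exact Or.inr (Or.inl (div_neg_of_neg_of_pos h h2))
    · exact Or.inr (Or.inr (div_neg_of_neg_of_pos h h3))
  have case1 : Z1 / Y1 < Z2 / Y2 → Z1 / Y1 < Z3 / Y3 → ∃ s : ℝ, 0 < s ∧ Y1 + s * Z1 < 0 ∧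
      0 < Y2 + s * Z2 ∧ 0 < Y3 + s * Z3 := by
    intro ha hb
    have hz : Z1 / Y1 < 0 := by
      rcases hneg with h | h | h <;> linarith
    have hz1 : Z1 < 0 := by
      by_contra hc
      exact absurd hz (not_lt.2 (div_nonneg (not_lt.1 hc) h1.le))
    rw [div_lt_div_iff₀ h1 h2] at ha
    rw [div_lt_div_iff₀ h1 h3] at hb
    exact h636_pick1 Y1 Y2 Y3 Z1 Z2 Z3 h1 hz1 (by linarith) (by linarith)
  have case2 : Z2 / Y2 < Z1 / Y1 → Z2 / Y2 < Z3 / Y3 → ∃ s : ℝ, 0 < s ∧ Y2 + s * Z2 < 0 ∧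
      0 < Y1 + s * Z1 ∧ 0 < Y3 + s * Z3 := by
    intro ha hb
    have hz : Z2 / Y2 < 0 := by
      rcases hneg with h | h | h <;> linarith
    have hz1 : Z2 < 0 := by
      by_contra hc
      exact absurd hz (not_lt.2 (div_nonneg (not_lt.1 hc) h2.le))
    rw [div_lt_div_iff₀ h2 h1] at ha
    rw [div_lt_div_iff₀ h2 h3] at hb
    exact h636_pick1 Y2 Y1 Y3 Z2 Z1 Z3 h2 hz1 (by linarith) (by linarith)
  have case3 : Z3 / Y3 < Z1 / Y1 → Z3 / Y3 < Z2 / Y2 → ∃ s : ℝ, 0 < s ∧ Y3 + s * Z3 < 0 ∧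
      0 < Y1 + s * Z1 ∧ 0 < Y2 + s * Z2 := by
    intro ha hb
    have hz : Z3 / Y3 < 0 := by
      rcases hneg with h | h | h <;> linarith
    have hz1 : Z3 < 0 := by
      by_contra hc
      exact absurd hz (not_lt.2 (div_nonneg (not_lt.1 hc) h3.le))
    rw [div_lt_div_iff₀ h3 h1] at ha
    rw [div_lt_div_iff₀ h3 h2] at hb
    exact h636_pick1 Y3 Y1 Y2 Z3 Z1 Z2 h3 hz1 (by linarith) (by linarith)
  rcases lt_or_gt_of_ne r12 with a | a
  · rcases lt_or_gt_of_ne r13 with b | b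
    · obtain ⟨s, hs, h⟩ := case1 a b
      exact ⟨s, hs, Or.inl h⟩
    · obtain ⟨s, hs, h⟩ := case3 b (b.trans a)
      exact ⟨s, hs, Or.inr (Or.inr h)⟩
  · rcases lt_or_gt_of_ne r23 with b | b
    · obtain ⟨s, hs, h⟩ := case2 a b
      exact ⟨s, hs, Or.inr (Or.inl h)⟩
    · obtain ⟨s, hs, h⟩ := case3 (b.trans a) b
      exact ⟨s, hs, Or.inr (Or.inr h)⟩

theorem h636_poly (a b c : ℝ) (h : ¬ (a = 0 ∧ b = 0)) :
    ∀ᶠ δ in nhdsWithin (0 : ℝ) (Set.Ioi 0), c + δ * a + δ ^ 2 * b ≠ 0 := by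
  have hpos : ∀ᶠ δ in nhdsWithin (0 : ℝ) (Set.Ioi 0), 0 < δ := eventually_mem_nhdsWithin
  by_cases hc : c = 0
  · subst hc
    by_cases ha : a = 0
    · have hb : b ≠ 0 := fun hb => h ⟨ha, hb⟩
      filter_upwards [hpos] with δ hδ
      rw [ha]
      simp only [mul_zero, add_zero, zero_add]
      exact mul_ne_zero (pow_ne_zero _ hδ.ne') hb
    · have hcont : Continuous (fun δ : ℝ => a + δ * b) := by fun_prop
      have hne : (fun δ : ℝ => a + δ * b) 0 ≠ 0 := by simpa using ha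
      have k : ∀ᶠ δ in nhdsWithin (0 : ℝ) (Set.Ioi 0), a + δ * b ≠ 0 :=
        nhdsWithin_le_nhds (hcont.continuousAt.eventually_ne hne)
      filter_upwards [hpos, k] with δ hδ hk
      have : 0 + δ * a + δ ^ 2 * b = δ * (a + δ * b) := by ring
      rw [this]
      exact mul_ne_zero hδ.ne' hk
  · have hcont : Continuous (fun δ : ℝ => c + δ * a + δ ^ 2 * b) := by fun_prop
    have hne : (fun δ : ℝ => c + δ * a + δ ^ 2 * b) 0 ≠ 0 := by simpa using hc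
    exact nhdsWithin_le_nhds (hcont.continuousAt.eventually_ne hne)

theorem h636_pos (a b c : ℝ) (h : 0 < c) :
    ∀ᶠ δ in nhdsWithin (0 : ℝ) (Set.Ioi 0), 0 < c + δ * a + δ ^ 2 * b := by
  have hcont : Continuous (fun δ : ℝ => c + δ * a + δ ^ 2 * b) := by fun_prop
  have hne : 0 < (fun δ : ℝ => c + δ * a + δ ^ 2 * b) 0 := by simpa using h
  exact nhdsWithin_le_nhds (hcont.continuousAt.eventually (lt_mem_nhds hne))

theorem h636_neg (a b c : ℝ) (h : c < 0) :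
    ∀ᶠ δ in nhdsWithin (0 : ℝ) (Set.Ioi 0), c + δ * a + δ ^ 2 * b < 0 := by
  have hcont : Continuous (fun δ : ℝ => c + δ * a + δ ^ 2 * b) := by fun_prop
  have hne : (fun δ : ℝ => c + δ * a + δ ^ 2 * b) 0 < 0 := by simpa using h
  exact nhdsWithin_le_nhds (hcont.continuousAt.eventually (gt_mem_nhds hne))

theorem h636_gne (L : Submodule ℝ (ι → ℝ)) (i1 i2 a b : ι)
    (hF : ∀ w ∈ L, w i1 = 0 → w i2 = 0 → w a = 0 → w b = 0 → w = 0)
    (e f : ι → ℝ) (he : e ∈ L) (hf : f ∈ L) (he1 : e i1 = 0) (he2 : e i2 = 0) (hf1 : f i1 = 0)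
    (hf2 : f i2 = 0) (hef : ∀ a b : ℝ, a • e + b • f = 0 → a = 0 ∧ b = 0)
    (z : ι → ℝ) (hza : z a ≠ 0) :
    ¬ (e a * z b - e b * z a = 0 ∧ f a * z b - f b * z a = 0) := by
  rintro ⟨g1, g2⟩
  have hw : f a • e + (-e a) • f = 0 := by
    apply hF _ (L.add_mem (L.smul_mem _ he) (L.smul_mem _ hf))
    · simp [he1, hf1]
    · simp [he2, hf2]
    · simp only [Pi.add_apply, Pi.smul_apply, smul_eq_mul]; ring
    · simp only [Pi.add_apply, Pi.smul_apply, smul_eq_mul]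
      have : z a * (f a * e b + -e a * f b) = 0 := by
        linear_combination e a * g2 - f a * g1
      exact (mul_eq_zero.1 this).resolve_left hza
  obtain ⟨k1, k2⟩ := hef _ _ hw
  have k3 : e a = 0 := by linarith
  have k4 : e b = 0 := by
    rw [k3] at g1
    have : e b * z a = 0 := by linarith
    exact (mul_eq_zero.1 this).resolve_right hza
  have k5 : e = 0 := hF e he he1 he2 k3 k4
  have k6 := hef 1 0 (by rw [k5]; simp)
  exact one_ne_zero k6.1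

theorem h636_final (L : Submodule ℝ (ι → ℝ)) (i1 i2 a b c q1 q2 q3 : ι)
    (hF : ∀ w ∈ L, w i1 = 0 → w i2 = 0 → w b = 0 → w c = 0 → w = 0)
    (u : ι → ℝ) (hu : u ∈ L) (hu1 : u i1 = 1) (z : ι → ℝ) (hza : z a ≠ 0)
    (huniq : ∀ z' ∈ L, z' q1 = 0 → z' q2 = 0 → z' q3 = 0 → ∃ t : ℝ, z' = t • z)
    (y : ι → ℝ) (hy : y ∈ L) (h1 : y i1 = 0) (h2 : 0 < y i2) (ha : y a < 0) (hb : 0 < y b)
    (hc : 0 < y c) (hq1 : y q1 < 0) (hq2 : y q2 < 0) (hq3 : y q3 < 0) : ∃ y ∈ L, Full L y := by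
  have hpos : ∀ᶠ δ in nhdsWithin (0 : ℝ) (Set.Ioi 0), 0 < δ := eventually_mem_nhdsWithin
  obtain ⟨δ, ⟨⟨⟨⟨⟨⟨⟨k0, k1⟩, k2⟩, k3⟩, k4⟩, k5⟩, k6⟩, k7⟩⟩ := (((((((hpos.and
    (h636_pos (u i2) 0 (y i2) h2)).and (h636_neg (u a) 0 (y a) ha)).and
    (h636_pos (u b) 0 (y b) hb)).and (h636_pos (u c) 0 (y c) hc)).and
    (h636_neg (u q1) 0 (y q1) hq1)).and (h636_neg (u q2) 0 (y q2) hq2)).and
    (h636_neg (u q3) 0 (y q3) hq3)).exists
  simp only [mul_zero, add_zero] at k1 k2 k3 k4 k5 k6 k7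
  refine ⟨y + δ • u, L.add_mem hy (L.smul_mem _ hu), ?_, ?_⟩
  · intro w hw hwz
    apply hF w hw
    · apply hwz
      simp only [Pi.add_apply, Pi.smul_apply, smul_eq_mul, h1, hu1]
      linarith
    · exact hwz _ k1
    · exact hwz _ k3
    · exact hwz _ k4
  · intro w hw hwz
    obtain ⟨t, ht⟩ := huniq w hw (hwz _ k5) (hwz _ k6) (hwz _ k7)
    have h3 : w a = 0 := hwz _ k2
    rw [ht] at h3
    simp only [Pi.smul_apply, smul_eq_mul] at h3
    have h4 : t = 0 := (mul_eq_zero.1 h3).resolve_right hza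
    rw [ht, h4, zero_smul]

theorem h636_main (L : Submodule ℝ (ι → ℝ)) (i1 j1 i2 j2 p1 p2 p3 q1 q2 q3 : ι) (c1 c2 : ℝ)
    (h : H L i1 j1 i2 j2 p1 p2 p3 q1 q2 q3 c1 c2) (y0 : ι → ℝ) (hy0 : y0 ∈ L)
    (h1 : y0 i1 = 0) (h2 : y0 i2 = 0) (hp1 : 0 < y0 p1) (hp2 : 0 < y0 p2) (hp3 : 0 < y0 p3)
    (hq1 : y0 q1 < 0) (hq2 : y0 q2 < 0) (hq3 : y0 q3 < 0)
    (u : ι → ℝ) (hu : u ∈ L) (hu1 : u i1 = 1)
    (e f : ι → ℝ) (he : e ∈ L) (hf : f ∈ L) (he1 : e i1 = 0) (he2 : e i2 = 0) (hf1 : f i1 = 0)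
    (hf2 : f i2 = 0) (hef : ∀ a b : ℝ, a • e + b • f = 0 → a = 0 ∧ b = 0)
    (z : ι → ℝ) (hz : z ∈ L) (hz0 : z ≠ 0) (hzq1 : z q1 = 0) (hzq2 : z q2 = 0) (hzq3 : z q3 = 0)
    (hz1 : z i1 = 0) (hz2 : 0 < z i2)
    (huniq : ∀ z' ∈ L, z' q1 = 0 → z' q2 = 0 → z' q3 = 0 → ∃ t : ℝ, z' = t • z) :
    ∃ y ∈ L, Full L y := by
  have hzj1 : z j1 = 0 := by rw [h.par1 z hz, hz1, mul_zero]
  have hzj2 : z j2 = c2 * z i2 := h.par2 z hz
  have F23 : ∀ w ∈ L, w i1 = 0 → w i2 = 0 → w p2 = 0 → w p3 = 0 → w = 0 := by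
    intro w hw w1 w2 wa wb
    have w3 : w j1 = 0 := by rw [h.par1 w hw, w1, mul_zero]
    have w4 : w j2 = 0 := by rw [h.par2 w hw, w2, mul_zero]
    apply h.hmd w hw p1 q1 q2 q3
    intro x n1 n2 n3 n4
    rcases h.hall x with rfl | rfl | rfl | rfl | rfl | rfl | rfl | rfl | rfl | rfl <;>
      first | assumption | exact absurd rfl n1 | exact absurd rfl n2 | exact absurd rfl n3 |
        exact absurd rfl n4
  have F13 : ∀ w ∈ L, w i1 = 0 → w i2 = 0 → w p1 = 0 → w p3 = 0 → w = 0 := by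
    intro w hw w1 w2 wa wb
    have w3 : w j1 = 0 := by rw [h.par1 w hw, w1, mul_zero]
    have w4 : w j2 = 0 := by rw [h.par2 w hw, w2, mul_zero]
    apply h.hmd w hw p2 q1 q2 q3
    intro x n1 n2 n3 n4
    rcases h.hall x with rfl | rfl | rfl | rfl | rfl | rfl | rfl | rfl | rfl | rfl <;>
      first | assumption | exact absurd rfl n1 | exact absurd rfl n2 | exact absurd rfl n3 |
        exact absurd rfl n4
  have F12 : ∀ w ∈ L, w i1 = 0 → w i2 = 0 → w p1 = 0 → w p2 = 0 → w = 0 := by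
    intro w hw w1 w2 wa wb
    have w3 : w j1 = 0 := by rw [h.par1 w hw, w1, mul_zero]
    have w4 : w j2 = 0 := by rw [h.par2 w hw, w2, mul_zero]
    apply h.hmd w hw p3 q1 q2 q3
    intro x n1 n2 n3 n4
    rcases h.hall x with rfl | rfl | rfl | rfl | rfl | rfl | rfl | rfl | rfl | rfl <;>
      first | assumption | exact absurd rfl n1 | exact absurd rfl n2 | exact absurd rfl n3 |
        exact absurd rfl n4
  have hzp1 : z p1 ≠ 0 := by
    intro hp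
    apply hz0
    apply h.hmd z hz i2 j2 p2 p3
    intro x n1 n2 n3 n4
    rcases h.hall x with rfl | rfl | rfl | rfl | rfl | rfl | rfl | rfl | rfl | rfl <;>
      first | assumption | exact absurd rfl n1 | exact absurd rfl n2 | exact absurd rfl n3 |
        exact absurd rfl n4
  have hzp2 : z p2 ≠ 0 := by
    intro hp
    apply hz0
    apply h.hmd z hz i2 j2 p1 p3
    intro x n1 n2 n3 n4
    rcases h.hall x with rfl | rfl | rfl | rfl | rfl | rfl | rfl | rfl | rfl | rfl <;>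
      first | assumption | exact absurd rfl n1 | exact absurd rfl n2 | exact absurd rfl n3 |
        exact absurd rfl n4
  have hzp3 : z p3 ≠ 0 := by
    intro hp
    apply hz0
    apply h.hmd z hz i2 j2 p1 p2
    intro x n1 n2 n3 n4
    rcases h.hall x with rfl | rfl | rfl | rfl | rfl | rfl | rfl | rfl | rfl | rfl <;>
      first | assumption | exact absurd rfl n1 | exact absurd rfl n2 | exact absurd rfl n3 |
        exact absurd rfl n4
  have hneg : z p1 < 0 ∨ z p2 < 0 ∨ z p3 < 0 := by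
    by_contra hc
    push Not at hc
    obtain ⟨c1', c2', c3'⟩ := hc
    have hs := h.sum z hz
    rw [hz1, hzj1, hzj2, hzq1, hzq2, hzq3] at hs
    have := mul_pos h.hc2 hz2
    linarith
  have G12 := h636_gne L i1 i2 p1 p2 F12 e f he hf he1 he2 hf1 hf2 hef z hzp1
  have G13 := h636_gne L i1 i2 p1 p3 F13 e f he hf he1 he2 hf1 hf2 hef z hzp1
  have G23 := h636_gne L i1 i2 p2 p3 F23 e f he hf he1 he2 hf1 hf2 hef z hzp2
  obtain ⟨δ, ⟨⟨⟨⟨⟨⟨⟨⟨k1, k2⟩, k3⟩, k4⟩, k5⟩, k6⟩, k7⟩, k8⟩, k9⟩⟩ := ((((((((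
    (h636_pos (e p1) (f p1) (y0 p1) hp1).and (h636_pos (e p2) (f p2) (y0 p2) hp2)).and
    (h636_pos (e p3) (f p3) (y0 p3) hp3)).and (h636_neg (e q1) (f q1) (y0 q1) hq1)).and
    (h636_neg (e q2) (f q2) (y0 q2) hq2)).and (h636_neg (e q3) (f q3) (y0 q3) hq3)).and
    (h636_poly _ _ (y0 p1 * z p2 - y0 p2 * z p1) G12)).and
    (h636_poly _ _ (y0 p1 * z p3 - y0 p3 * z p1) G13)).and
    (h636_poly _ _ (y0 p2 * z p3 - y0 p3 * z p2) G23)).exists
  obtain ⟨y1, hy1⟩ : ∃ y1 : ι → ℝ, y1 = y0 + δ • e + δ ^ 2 • f := ⟨_, rfl⟩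
  have hv : ∀ x, y1 x = y0 x + δ * e x + δ ^ 2 * f x := by
    intro x
    rw [hy1]
    simp
  rw [← hv] at k1 k2 k3 k4 k5 k6
  have hy1L : y1 ∈ L := by
    rw [hy1]
    exact L.add_mem (L.add_mem hy0 (L.smul_mem _ he)) (L.smul_mem _ hf)
  have m12 : y1 p1 * z p2 - y1 p2 * z p1 ≠ 0 := by
    rw [hv, hv]
    intro hc
    apply k7
    linear_combination hc
  have m13 : y1 p1 * z p3 - y1 p3 * z p1 ≠ 0 := by
    rw [hv, hv]
    intro hc
    apply k8
    linear_combination hc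
  have m23 : y1 p2 * z p3 - y1 p3 * z p2 ≠ 0 := by
    rw [hv, hv]
    intro hc
    apply k9
    linear_combination hc
  have hi1 : y1 i1 = 0 := by rw [hv, h1, he1, hf1]; ring
  have hi2 : y1 i2 = 0 := by rw [hv, h2, he2, hf2]; ring
  obtain ⟨s, hs, hcase⟩ := h636_pick (y1 p1) (y1 p2) (y1 p3) (z p1) (z p2) (z p3) k1 k2 k3 hneg
    m12 m13 m23
  have hyL : y1 + s • z ∈ L := L.add_mem hy1L (L.smul_mem _ hz)
  have vi1 : (y1 + s • z) i1 = 0 := by simp [hi1, hz1]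
  have vi2 : 0 < (y1 + s • z) i2 := by
    simp only [Pi.add_apply, Pi.smul_apply, smul_eq_mul, hi2]
    have := mul_pos hs hz2
    linarith
  have vq1 : (y1 + s • z) q1 < 0 := by
    simp only [Pi.add_apply, Pi.smul_apply, smul_eq_mul, hzq1]
    linarith
  have vq2 : (y1 + s • z) q2 < 0 := by
    simp only [Pi.add_apply, Pi.smul_apply, smul_eq_mul, hzq2]
    linarith
  have vq3 : (y1 + s • z) q3 < 0 := by
    simp only [Pi.add_apply, Pi.smul_apply, smul_eq_mul, hzq3]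
    linarith
  rcases hcase with ⟨a1, a2, a3⟩ | ⟨a1, a2, a3⟩ | ⟨a1, a2, a3⟩
  · exact h636_final L i1 i2 p1 p2 p3 q1 q2 q3 F23 u hu hu1 z hzp1 huniq _ hyL vi1 vi2 a1 a2 a3
      vq1 vq2 vq3
  · exact h636_final L i1 i2 p2 p1 p3 q1 q2 q3 F13 u hu hu1 z hzp2 huniq _ hyL vi1 vi2 a1 a2 a3
      vq1 vq2 vq3
  · exact h636_final L i1 i2 p3 p1 p2 q1 q2 q3 F12 u hu hu1 z hzp3 huniq _ hyL vi1 vi2 a1 a2 a3
      vq1 vq2 vq3

theorem caseA (L : Submodule ℝ (ι → ℝ)) (i1 j1 i2 j2 p1 p2 p3 q1 q2 q3 : ι) (c1 c2 : ℝ)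
    (h : H L i1 j1 i2 j2 p1 p2 p3 q1 q2 q3 c1 c2) (y0 : ι → ℝ) (hy0 : y0 ∈ L)
    (h1 : y0 i1 = 0) (h2 : y0 i2 = 0) (hp1 : 0 < y0 p1) (hp2 : 0 < y0 p2) (hp3 : 0 < y0 p3)
    (hq1 : y0 q1 < 0) (hq2 : y0 q2 < 0) (hq3 : y0 q3 < 0)
    (u : ι → ℝ) (hu : u ∈ L) (hu1 : u i1 = 1)
    (e f : ι → ℝ) (he : e ∈ L) (hf : f ∈ L) (he1 : e i1 = 0) (he2 : e i2 = 0) (hf1 : f i1 = 0)
    (hf2 : f i2 = 0) (hef : ∀ a b : ℝ, a • e + b • f = 0 → a = 0 ∧ b = 0)
    (z : ι → ℝ) (hz : z ∈ L) (hz0 : z ≠ 0) (hzq1 : z q1 = 0) (hzq2 : z q2 = 0) (hzq3 : z q3 = 0)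
    (hz1 : z i1 = 0)
    (huniq : ∀ z' ∈ L, z' q1 = 0 → z' q2 = 0 → z' q3 = 0 → ∃ t : ℝ, z' = t • z) :
    ∃ y ∈ L, Full L y := by
  have hzj1 : z j1 = 0 := by rw [h.par1 z hz, hz1, mul_zero]
  have hzi2 : z i2 ≠ 0 := by
    intro hi2
    have hzj2 : z j2 = 0 := by rw [h.par2 z hz, hi2, mul_zero]
    apply hz0
    apply h.hmd z hz p1 p2 p3 p3
    intro x n1 n2 n3 n4
    rcases h.hall x with rfl | rfl | rfl | rfl | rfl | rfl | rfl | rfl | rfl | rfl <;>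
      first | assumption | exact absurd rfl n1 | exact absurd rfl n2 | exact absurd rfl n3 |
        exact absurd rfl n4
  rcases lt_or_gt_of_ne hzi2 with hlt | hgt
  · refine h636_main L i1 j1 i2 j2 p1 p2 p3 q1 q2 q3 c1 c2 h y0 hy0 h1 h2 hp1 hp2 hp3 hq1 hq2 hq3
      u hu hu1 e f he hf he1 he2 hf1 hf2 hef (-z) (L.neg_mem hz) (neg_ne_zero.2 hz0)
      (by simp [hzq1]) (by simp [hzq2]) (by simp [hzq3]) (by simp [hz1])
      (by simp only [Pi.neg_apply]; linarith) ?_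
    intro z' hz' a b c
    obtain ⟨t, ht⟩ := huniq z' hz' a b c
    exact ⟨-t, by rw [ht]; simp⟩
  · exact h636_main L i1 j1 i2 j2 p1 p2 p3 q1 q2 q3 c1 c2 h y0 hy0 h1 h2 hp1 hp2 hp3 hq1 hq2 hq3
      u hu hu1 e f he hf he1 he2 hf1 hf2 hef z hz hz0 hzq1 hzq2 hzq3 hz1 hgt huniq


theorem bal_aux [DecidableEq ι] (e f : ι → ℝ) (X : Finset ι) :
    (∀ x ∈ X, e x ≠ 0) →
    (∀ x ∈ X, ∀ x' ∈ X, x ≠ x' → f x * e x' ≠ f x' * e x) →
    ∀ T : ℝ, (∀ x ∈ X, f x / e x < T) → ∀ v : ℕ,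
      (((X.filter (fun x => 0 < e x)).card ≤ v ∧ v + (X.filter (fun x => 0 < e x)).card ≤ X.card) ∨
        (v ≤ (X.filter (fun x => 0 < e x)).card ∧
          X.card ≤ v + (X.filter (fun x => 0 < e x)).card)) →
      ∃ t : ℝ, t < T ∧ (∀ x ∈ X, f x - t * e x ≠ 0) ∧
        (X.filter (fun x => 0 < f x - t * e x)).card = v := by
  refine Finset.induction_on_max_value (fun x => f x / e x) X ?_ ?_
  · intro _ _ T _ v hv
    refine ⟨T - 1, by linarith, by simp, ?_⟩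
    simp at hv ⊢
    omega
  · intro a s ha hmax ih he hinj T hT v hv
    have hea : e a ≠ 0 := he a (mem_insert_self a s)
    have hes : ∀ x ∈ s, e x ≠ 0 := fun x hx => he x (mem_insert_of_mem hx)
    have hrs : ∀ x ∈ s, f x / e x < f a / e a := by
      intro x hx
      refine lt_of_le_of_ne (hmax x hx) ?_
      intro h
      rw [div_eq_div_iff (hes x hx) hea] at h
      have hxa : x ≠ a := by
        rintro rfl
        exact ha hx
      exact hinj x (mem_insert_of_mem hx) a (mem_insert_self a s) hxa h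
    have hTa : f a / e a < T := hT a (mem_insert_self a s)
    have ih' := ih hes (fun x hx x' hx' => hinj x (mem_insert_of_mem hx) x' (mem_insert_of_mem hx'))
      (f a / e a) hrs
    have hcard : (insert a s).card = s.card + 1 := card_insert_of_notMem ha
    have hform : ∀ x, e x ≠ 0 → ∀ t, f x - t * e x = e x * (f x / e x - t) := by
      intro x hx t
      field_simp
    -- the last position
    have hlast : ∃ t : ℝ, t < T ∧ (∀ x ∈ insert a s, f x - t * e x ≠ 0) ∧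
        ((insert a s).filter (fun x => 0 < f x - t * e x)).card +
          ((insert a s).filter (fun x => 0 < e x)).card = (insert a s).card := by
      refine ⟨(f a / e a + T) / 2, by linarith, ?_, ?_⟩
      · intro x hx
        have hx2 : f x / e x < (f a / e a + T) / 2 := by
          rcases mem_insert.mp hx with rfl | hx'
          · linarith
          · linarith [hrs x hx']
        rw [hform x (he x hx)]
        exact mul_ne_zero (he x hx) (by linarith)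
      · have e1 : (insert a s).filter (fun x => 0 < f x - (f a / e a + T) / 2 * e x) =
            (insert a s).filter (fun x => ¬ 0 < e x) := by
          apply filter_congr
          intro x hx
          have hx2 : f x / e x < (f a / e a + T) / 2 := by
            rcases mem_insert.mp hx with rfl | hx'
            · linarith
            · linarith [hrs x hx']
          rw [hform x (he x hx)]
          constructor
          · intro h h2
            nlinarith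
          · intro h
            have h3 : e x < 0 := lt_of_le_of_ne (not_lt.mp h) (he x hx)
            exact mul_pos_of_neg_of_neg h3 (by linarith)
        rw [e1, add_comm]
        exact card_filter_add_card_filter_not _
    -- positions before the last root
    have hbefore : ∀ t : ℝ, t < f a / e a → (∀ x ∈ s, f x - t * e x ≠ 0) →
        (∀ x ∈ insert a s, f x - t * e x ≠ 0) ∧
        (if 0 < e a then ((insert a s).filter (fun x => 0 < f x - t * e x)).card =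
          (s.filter (fun x => 0 < f x - t * e x)).card + 1 else
          ((insert a s).filter (fun x => 0 < f x - t * e x)).card =
          (s.filter (fun x => 0 < f x - t * e x)).card) := by
      intro t ht hs
      refine ⟨?_, ?_⟩
      · intro x hx
        rcases mem_insert.mp hx with rfl | hx'
        · rw [hform x hea]
          exact mul_ne_zero hea (by linarith)
        · exact hs x hx'
      · split_ifs with h
        · have h1 : 0 < f a - t * e a := by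
            rw [hform a hea]
            exact mul_pos h (by linarith)
          rw [filter_insert, if_pos h1, card_insert_of_notMem]
          intro h2
          exact ha (mem_of_mem_filter a h2)
        · have h1 : ¬ 0 < f a - t * e a := by
            rw [hform a hea]
            have h3 : e a < 0 := lt_of_le_of_ne (not_lt.mp h) hea
            nlinarith
          rw [filter_insert, if_neg h1]
    by_cases hpos : 0 < e a
    · have hm : ((insert a s).filter (fun x => 0 < e x)).card =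
          (s.filter (fun x => 0 < e x)).card + 1 := by
        rw [filter_insert, if_pos hpos, card_insert_of_notMem]
        intro h2
        exact ha (mem_of_mem_filter a h2)
      rw [hm, hcard] at hv
      rw [hm, hcard] at hlast
      by_cases hvl : v + (s.filter (fun x => 0 < e x)).card = s.card
      · obtain ⟨t, h1, h2, h3⟩ := hlast
        exact ⟨t, h1, h2, by omega⟩
      · obtain ⟨t, h1, h2, h3⟩ := ih' (v - 1) (by omega)
        obtain ⟨h4, h5⟩ := hbefore t h1 h2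
        rw [if_pos hpos] at h5
        exact ⟨t, by linarith, h4, by omega⟩
    · have hm : ((insert a s).filter (fun x => 0 < e x)).card =
          (s.filter (fun x => 0 < e x)).card := by
        rw [filter_insert, if_neg hpos]
      rw [hm, hcard] at hv
      rw [hm, hcard] at hlast
      by_cases hvl : v + (s.filter (fun x => 0 < e x)).card = s.card + 1
      · obtain ⟨t, h1, h2, h3⟩ := hlast
        exact ⟨t, h1, h2, by omega⟩
      · obtain ⟨t, h1, h2, h3⟩ := ih' v (by omega)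
        obtain ⟨h4, h5⟩ := hbefore t h1 h2
        rw [if_neg hpos] at h5
        exact ⟨t, by linarith, h4, by omega⟩

/-- rotating in a two-dimensional space: a balanced position exists -/
theorem bal [DecidableEq ι] (X : Finset ι) (hX : X.card = 6) (e f : ι → ℝ) (he : ∀ x ∈ X, e x ≠ 0)
    (hinj : ∀ x ∈ X, ∀ x' ∈ X, x ≠ x' → f x * e x' ≠ f x' * e x) :
    ∃ t : ℝ, (∀ x ∈ X, f x - t * e x ≠ 0) ∧ (X.filter (fun x => 0 < f x - t * e x)).card = 3 := by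
  have hne : X.Nonempty := by
    rw [← card_pos]
    omega
  obtain ⟨x0, hx0, hmax⟩ := X.exists_max_image (fun x => f x / e x) hne
  obtain ⟨t, -, h1, h2⟩ := bal_aux e f X he hinj (f x0 / e x0 + 1)
    (fun x hx => by linarith [hmax x hx]) 3 (by
      have := card_filter_le X (fun x => 0 < e x)
      omega)
  exact ⟨t, h1, h2⟩


theorem slope_F {L : Submodule ℝ (ι → ℝ)} {i1 j1 i2 j2 p1 p2 p3 q1 q2 q3 : ι} {c1 c2 : ℝ}
    (h : H L i1 j1 i2 j2 p1 p2 p3 q1 q2 q3 c1 c2) (s t a b c d : ι)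
    (hcov : ∀ x, x = i1 ∨ x = j1 ∨ x = i2 ∨ x = j2 ∨ x = s ∨ x = t ∨ x = a ∨ x = b ∨ x = c ∨ x = d)
    (w : ι → ℝ) (hw : w ∈ L) (h1 : w i1 = 0) (h2 : w i2 = 0) (hs : w s = 0) (ht : w t = 0) :
    w = 0 := by
  have hj1 : w j1 = 0 := by rw [h.par1 w hw, h1, mul_zero]
  have hj2 : w j2 = 0 := by rw [h.par2 w hw, h2, mul_zero]
  apply h.hmd w hw a b c d
  intro x xa xb xc xd
  rcases hcov x with h' | h' | h' | h' | h' | h' | h' | h' | h' | h'
  · rw [h', h1]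
  · rw [h', hj1]
  · rw [h', h2]
  · rw [h', hj2]
  · rw [h', hs]
  · rw [h', ht]
  · exact absurd h' xa
  · exact absurd h' xb
  · exact absurd h' xc
  · exact absurd h' xd

theorem slope_solve (e f : ι → ℝ) (s t : ι)
    (hF : ∀ a b : ℝ, a * e s + b * f s = 0 → a * e t + b * f t = 0 → a = 0 ∧ b = 0) (A B : ℝ) :
    ∃ a b : ℝ, a * e s + b * f s = A ∧ a * e t + b * f t = B := by
  have hD : e s * f t - e t * f s ≠ 0 := by
    intro hD
    obtain ⟨h1, h2⟩ := hF (f s) (-(e s)) (by ring) (by linarith)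
    have h2' : e s = 0 := by linarith
    obtain ⟨h3, h4⟩ := hF (f t) (-(e t)) (by rw [h1, h2']; ring) (by ring)
    have h4' : e t = 0 := by linarith
    obtain ⟨h5, _⟩ := hF 1 0 (by rw [h2']; ring) (by rw [h4']; ring)
    exact one_ne_zero h5
  refine ⟨(A * f t - B * f s) / (e s * f t - e t * f s),
    (B * e s - A * e t) / (e s * f t - e t * f s), ?_, ?_⟩
  · rw [div_mul_eq_mul_div, div_mul_eq_mul_div, ← add_div, div_eq_iff hD]
    ring
  · rw [div_mul_eq_mul_div, div_mul_eq_mul_div, ← add_div, div_eq_iff hD]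
    ring

theorem slope_core (L : Submodule ℝ (ι → ℝ)) (i1 i2 p1 p2 p3 q q' q'' : ι)
    (F1 : ∀ w ∈ L, w i1 = 0 → w i2 = 0 → w q' = 0 → w q'' = 0 → w = 0)
    (F2 : ∀ w ∈ L, w i1 = 0 → w i2 = 0 → w p2 = 0 → w p3 = 0 → w = 0)
    (κ1 κ2 : ι → ℝ) (hκ1 : κ1 ∈ L) (hκ2 : κ2 ∈ L)
    (a2 : κ1 q' = 0) (a3 : κ1 q'' = 0) (a4 : κ1 i1 = 1) (a5 : κ1 i2 = 0)
    (b2 : κ2 q' = 0) (b3 : κ2 q'' = 0) (b4 : κ2 i1 = 0) (b5 : κ2 i2 = 1)
    (b6 : κ2 p1 ≠ 0)
    (u : ι → ℝ) (hu : u ∈ L) (u1 : u i1 = 1) (u2 : u i2 = 0) (u3 : u p2 = 0) (u4 : u p3 = 0)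
    (u5 : u q ≠ 0)
    (w : ι → ℝ) (hw : w ∈ L) (w1 : w i1 = 0) (w2 : w i2 = 0) (w3 : w q < 0) (w4 : 0 < w q')
    (w5 : 0 < w q'')
    (y1 : ι → ℝ) (hy1 : y1 ∈ L) (hi1 : 0 < y1 i1) (hi2 : y1 i2 < 0)
    (hp1 : 0 < y1 p1) (hp2 : y1 p2 < 0) (hp3 : y1 p3 < 0)
    (d1 : y1 q = 0) (d2 : y1 q' = 0) (d3 : y1 q'' = 0) :
    ∃ y ∈ L, Full L y := by
  obtain ⟨ε, hε, e1, e2, e3⟩ : ∃ ε : ℝ, 0 < ε ∧ 0 < y1 p1 + ε * w p1 ∧ y1 p2 + ε * w p2 < 0 ∧
      y1 p3 + ε * w p3 < 0 := by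
    have c1 : ∀ᶠ ε : ℝ in nhdsWithin 0 (Set.Ioi 0), 0 < y1 p1 + ε * w p1 := by
      have : Filter.Tendsto (fun ε : ℝ => y1 p1 + ε * w p1) (nhdsWithin 0 (Set.Ioi 0))
          (nhds (y1 p1 + 0 * w p1)) :=
        (Continuous.tendsto (by fun_prop) 0).mono_left nhdsWithin_le_nhds
      exact this.eventually (lt_mem_nhds (by simpa using hp1))
    have c2 : ∀ᶠ ε : ℝ in nhdsWithin 0 (Set.Ioi 0), y1 p2 + ε * w p2 < 0 := by
      have : Filter.Tendsto (fun ε : ℝ => y1 p2 + ε * w p2) (nhdsWithin 0 (Set.Ioi 0))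
          (nhds (y1 p2 + 0 * w p2)) :=
        (Continuous.tendsto (by fun_prop) 0).mono_left nhdsWithin_le_nhds
      exact this.eventually (gt_mem_nhds (by simpa using hp2))
    have c3 : ∀ᶠ ε : ℝ in nhdsWithin 0 (Set.Ioi 0), y1 p3 + ε * w p3 < 0 := by
      have : Filter.Tendsto (fun ε : ℝ => y1 p3 + ε * w p3) (nhdsWithin 0 (Set.Ioi 0))
          (nhds (y1 p3 + 0 * w p3)) :=
        (Continuous.tendsto (by fun_prop) 0).mono_left nhdsWithin_le_nhds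
      exact this.eventually (gt_mem_nhds (by simpa using hp3))
    have c4 : ∀ᶠ ε : ℝ in nhdsWithin 0 (Set.Ioi 0), 0 < ε := eventually_mem_nhdsWithin
    obtain ⟨ε, h1, h2, h3, h4⟩ := (c4.and (c1.and (c2.and c3))).exists
    exact ⟨ε, h1, h2, h3, h4⟩
  have v : ∀ x, (y1 + ε • w) x = y1 x + ε * w x := fun x => rfl
  refine ⟨y1 + ε • w, L.add_mem hy1 (L.smul_mem _ hw), ?_, ?_⟩
  · intro z hz hzero
    have z1 : z i1 = 0 := hzero i1 (by rw [v, w1]; linarith)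
    have z2 : z p1 = 0 := hzero p1 (by rw [v]; exact e1)
    have z3 : z q' = 0 := hzero q' (by rw [v, d2]; have := mul_pos hε w4; linarith)
    have z4 : z q'' = 0 := hzero q'' (by rw [v, d3]; have := mul_pos hε w5; linarith)
    have hz0 : z - (z i2) • κ2 = 0 := by
      apply F1 _ (L.sub_mem hz (L.smul_mem _ hκ2))
      · simp [z1, b4]
      · simp [b5]
      · simp [z3, b2]
      · simp [z4, b3]
    have h1 := congrFun hz0 p1
    simp only [Pi.sub_apply, Pi.smul_apply, Pi.zero_apply, z2, smul_eq_mul, zero_sub,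
      neg_eq_zero, mul_eq_zero] at h1
    have h2 : z i2 = 0 := h1.resolve_right b6
    rw [h2, zero_smul, sub_zero] at hz0
    exact hz0
  · intro z hz hzero
    have z1 : z i2 = 0 := hzero i2 (by rw [v, w2]; linarith)
    have z2 : z p2 = 0 := hzero p2 (by rw [v]; exact e2)
    have z3 : z p3 = 0 := hzero p3 (by rw [v]; exact e3)
    have z4 : z q = 0 := hzero q (by
      rw [v, d1]
      have := mul_pos_of_neg_of_neg (show -ε < 0 by linarith) w3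
      linarith)
    have hz0 : z - (z i1) • u = 0 := by
      apply F2 _ (L.sub_mem hz (L.smul_mem _ hu))
      · simp [u1]
      · simp [z1, u2]
      · simp [z2, u3]
      · simp [z3, u4]
    have h1 := congrFun hz0 q
    simp only [Pi.sub_apply, Pi.smul_apply, Pi.zero_apply, z4, smul_eq_mul, zero_sub,
      neg_eq_zero, mul_eq_zero] at h1
    have h2 : z i1 = 0 := h1.resolve_right u5
    rw [h2, zero_smul, sub_zero] at hz0
    exact hz0

/-- the final step: a slope with exactly one positive coordinate `p1` among the `p`'s -/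
theorem slope (L : Submodule ℝ (ι → ℝ)) (i1 j1 i2 j2 p1 p2 p3 q1 q2 q3 : ι) (c1 c2 : ℝ)
    (h : H L i1 j1 i2 j2 p1 p2 p3 q1 q2 q3 c1 c2)
    (e f : ι → ℝ) (he : e ∈ L) (hf : f ∈ L) (he1 : e i1 = 0) (he2 : e i2 = 0) (hf1 : f i1 = 0)
    (hf2 : f i2 = 0) (hef : ∀ a b : ℝ, a • e + b • f = 0 → a = 0 ∧ b = 0)
    (κ1 κ2 : ι → ℝ) (hκ1 : κ1 ∈ L) (hκ2 : κ2 ∈ L)
    (a1 : κ1 q1 = 0) (a2 : κ1 q2 = 0) (a3 : κ1 q3 = 0) (a4 : κ1 i1 = 1) (a5 : κ1 i2 = 0)
    (b1 : κ2 q1 = 0) (b2 : κ2 q2 = 0) (b3 : κ2 q3 = 0) (b4 : κ2 i1 = 0) (b5 : κ2 i2 = 1)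
    (y1 : ι → ℝ) (hy1 : y1 ∈ L) (hi1 : 0 < y1 i1) (hi2 : y1 i2 < 0)
    (hp1 : 0 < y1 p1) (hp2 : y1 p2 < 0) (hp3 : y1 p3 < 0)
    (d1 : y1 q1 = 0) (d2 : y1 q2 = 0) (d3 : y1 q3 = 0) :
    ∃ y ∈ L, Full L y := by
  have Fq12 := slope_F h q1 q2 q3 p1 p2 p3 (fun x => by have := h.hall x; tauto)
  have Fq13 := slope_F h q1 q3 q2 p1 p2 p3 (fun x => by have := h.hall x; tauto)
  have Fq23 := slope_F h q2 q3 q1 p1 p2 p3 (fun x => by have := h.hall x; tauto)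
  have Fp23 := slope_F h p2 p3 p1 q1 q2 q3 (fun x => by have := h.hall x; tauto)
  have hκ2p1 : κ2 p1 ≠ 0 := by
    intro h0
    have hj1 : κ2 j1 = 0 := by rw [h.par1 κ2 hκ2, b4, mul_zero]
    have : κ2 = 0 := by
      apply h.hmd κ2 hκ2 i2 j2 p2 p3
      intro x xa xb xc xd
      rcases h.hall x with h' | h' | h' | h' | h' | h' | h' | h' | h' | h'
      · rw [h', b4]
      · rw [h', hj1]
      · exact absurd h' xa
      · exact absurd h' xb
      · rw [h', h0]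
      · exact absurd h' xc
      · exact absurd h' xd
      · rw [h', b1]
      · rw [h', b2]
      · rw [h', b3]
    rw [this] at b5
    exact zero_ne_one b5
  have hκ1p2 : κ1 p2 ≠ 0 := by
    intro h0
    have hj2 : κ1 j2 = 0 := by rw [h.par2 κ1 hκ1, a5, mul_zero]
    have : κ1 = 0 := by
      apply h.hmd κ1 hκ1 i1 j1 p1 p3
      intro x xa xb xc xd
      rcases h.hall x with h' | h' | h' | h' | h' | h' | h' | h' | h' | h'
      · exact absurd h' xa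
      · exact absurd h' xb
      · rw [h', a5]
      · rw [h', hj2]
      · exact absurd h' xc
      · rw [h', h0]
      · exact absurd h' xd
      · rw [h', a1]
      · rw [h', a2]
      · rw [h', a3]
    rw [this] at a4
    exact zero_ne_one a4
  have hcomb : ∀ a b : ℝ, a • e + b • f ∈ L := fun a b =>
    L.add_mem (L.smul_mem _ he) (L.smul_mem _ hf)
  have hcv : ∀ (a b : ℝ) (x : ι), (a • e + b • f) x = a * e x + b * f x := fun a b x => rfl
  have hcomb1 : ∀ a b : ℝ, (a • e + b • f) i1 = 0 := fun a b => by rw [hcv, he1, hf1]; ring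
  have hcomb2 : ∀ a b : ℝ, (a • e + b • f) i2 = 0 := fun a b => by rw [hcv, he2, hf2]; ring
  -- elements of the pencil with prescribed values
  have hsq : ∀ A B : ℝ, ∃ a b : ℝ, (a • e + b • f) q1 = A ∧ (a • e + b • f) q2 = B := by
    intro A B
    apply slope_solve e f q1 q2
    intro a b h1 h2
    exact hef a b (Fq12 _ (hcomb a b) (hcomb1 a b) (hcomb2 a b) h1 h2)
  have hsp : ∀ A B : ℝ, ∃ a b : ℝ, (a • e + b • f) p2 = A ∧ (a • e + b • f) p3 = B := by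
    intro A B
    apply slope_solve e f p2 p3
    intro a b h1 h2
    exact hef a b (Fp23 _ (hcomb a b) (hcomb1 a b) (hcomb2 a b) h1 h2)
  obtain ⟨a10, b10, h10, h10'⟩ := hsq 1 0
  obtain ⟨a01, b01, h01, h01'⟩ := hsq 0 1
  set w10 := a10 • e + b10 • f with hw10
  set w01 := a01 • e + b01 • f with hw01
  have hw10L : w10 ∈ L := hcomb _ _
  have hw01L : w01 ∈ L := hcomb _ _
  have hw10i1 : w10 i1 = 0 := hcomb1 _ _
  have hw10i2 : w10 i2 = 0 := hcomb2 _ _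
  have hw01i1 : w01 i1 = 0 := hcomb1 _ _
  have hw01i2 : w01 i2 = 0 := hcomb2 _ _
  have hα : w10 q3 ≠ 0 := by
    intro h0
    have := Fq23 w10 hw10L hw10i1 hw10i2 h10' h0
    rw [this] at h10
    exact zero_ne_one h10
  have hβ : w01 q3 ≠ 0 := by
    intro h0
    have := Fq13 w01 hw01L hw01i1 hw01i2 h01 h0
    rw [this] at h01'
    exact zero_ne_one h01'
  -- the element u
  obtain ⟨au, bu, hu2, hu3⟩ := hsp (-κ1 p2) (-κ1 p3)
  set wu := au • e + bu • f with hwu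
  have hwuL : wu ∈ L := hcomb _ _
  have hwui1 : wu i1 = 0 := hcomb1 _ _
  have hwui2 : wu i2 = 0 := hcomb2 _ _
  have huL : κ1 + wu ∈ L := L.add_mem hκ1 hwuL
  have hui1 : (κ1 + wu) i1 = 1 := by rw [Pi.add_apply, a4, hwui1, add_zero]
  have hui2 : (κ1 + wu) i2 = 0 := by rw [Pi.add_apply, a5, hwui2, add_zero]
  have hup2 : (κ1 + wu) p2 = 0 := by rw [Pi.add_apply, hu2]; ring
  have hup3 : (κ1 + wu) p3 = 0 := by rw [Pi.add_apply, hu3]; ring
  have huq1 : (κ1 + wu) q1 = wu q1 := by rw [Pi.add_apply, a1, zero_add]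
  have huq2 : (κ1 + wu) q2 = wu q2 := by rw [Pi.add_apply, a2, zero_add]
  have huq3 : (κ1 + wu) q3 = wu q3 := by rw [Pi.add_apply, a3, zero_add]
  have hwune : wu ≠ 0 := by
    intro h0
    rw [h0] at hu2
    have : (0 : ι → ℝ) p2 = 0 := rfl
    rw [this] at hu2
    exact hκ1p2 (by linarith)
  have hu12 : (κ1 + wu) q1 ≠ 0 ∨ (κ1 + wu) q2 ≠ 0 := by
    by_contra hcon
    push Not at hcon
    rw [huq1, huq2] at hcon
    exact hwune (Fq12 wu hwuL hwui1 hwui2 hcon.1 hcon.2)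
  have hu13 : (κ1 + wu) q1 ≠ 0 ∨ (κ1 + wu) q3 ≠ 0 := by
    by_contra hcon
    push Not at hcon
    rw [huq1, huq3] at hcon
    exact hwune (Fq13 wu hwuL hwui1 hwui2 hcon.1 hcon.2)
  have hu23 : (κ1 + wu) q2 ≠ 0 ∨ (κ1 + wu) q3 ≠ 0 := by
    by_contra hcon
    push Not at hcon
    rw [huq2, huq3] at hcon
    exact hwune (Fq23 wu hwuL hwui1 hwui2 hcon.1 hcon.2)
  -- elements with given sign patterns
  have hpat : ∀ s t : ℝ, ∃ w ∈ L, w i1 = 0 ∧ w i2 = 0 ∧ w q1 = s ∧ w q2 = t ∧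
      w q3 = s * w10 q3 + t * w01 q3 := by
    intro s t
    refine ⟨s • w10 + t • w01, L.add_mem (L.smul_mem _ hw10L) (L.smul_mem _ hw01L), ?_, ?_, ?_,
      ?_, ?_⟩
    · rw [Pi.add_apply, Pi.smul_apply, Pi.smul_apply, hw10i1, hw01i1]; simp
    · rw [Pi.add_apply, Pi.smul_apply, Pi.smul_apply, hw10i2, hw01i2]; simp
    · rw [Pi.add_apply, Pi.smul_apply, Pi.smul_apply, h10, h01]; simp
    · rw [Pi.add_apply, Pi.smul_apply, Pi.smul_apply, h10', h01']; simp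
    · rfl
  have P1 : (κ1 + wu) q1 ≠ 0 → (0 < w01 q3 ∨ w10 q3 < 0) → ∃ y ∈ L, Full L y := by
    intro hne hor
    obtain ⟨s, t, hs, ht, hst⟩ : ∃ s t : ℝ, s < 0 ∧ 0 < t ∧ 0 < s * w10 q3 + t * w01 q3 := by
      rcases hor with hpos | hneg
      · refine ⟨-1, (|w10 q3| + 1) / w01 q3, by norm_num, by positivity, ?_⟩
        rw [div_mul_cancel₀ _ hpos.ne']
        have := le_abs_self (w10 q3)
        linarith
      · refine ⟨(|w01 q3| + 1) / w10 q3, 1, div_neg_of_pos_of_neg (by positivity) hneg,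
          by norm_num, ?_⟩
        rw [div_mul_cancel₀ _ hneg.ne]
        have := neg_abs_le (w01 q3)
        linarith
    obtain ⟨w, hw, w1, w2, w3, w4, w5⟩ := hpat s t
    exact slope_core L i1 i2 p1 p2 p3 q1 q2 q3 Fq23 Fp23 κ1 κ2 hκ1 hκ2 a2 a3 a4 a5 b2 b3 b4 b5
      hκ2p1 (κ1 + wu) huL hui1 hui2 hup2 hup3 hne w hw w1 w2 (by rw [w3]; exact hs)
      (by rw [w4]; exact ht) (by rw [w5]; exact hst) y1 hy1 hi1 hi2 hp1 hp2 hp3 d1 d2 d3
  have P2 : (κ1 + wu) q2 ≠ 0 → (0 < w10 q3 ∨ w01 q3 < 0) → ∃ y ∈ L, Full L y := by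
    intro hne hor
    obtain ⟨s, t, hs, ht, hst⟩ : ∃ s t : ℝ, 0 < s ∧ t < 0 ∧ 0 < s * w10 q3 + t * w01 q3 := by
      rcases hor with hpos | hneg
      · refine ⟨(|w01 q3| + 1) / w10 q3, -1, by positivity, by norm_num, ?_⟩
        rw [div_mul_cancel₀ _ hpos.ne']
        have := le_abs_self (w01 q3)
        linarith
      · refine ⟨1, (|w10 q3| + 1) / w01 q3, by norm_num,
          div_neg_of_pos_of_neg (by positivity) hneg, ?_⟩
        rw [div_mul_cancel₀ _ hneg.ne]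
        have := neg_abs_le (w10 q3)
        linarith
    obtain ⟨w, hw, w1, w2, w3, w4, w5⟩ := hpat s t
    exact slope_core L i1 i2 p1 p2 p3 q2 q1 q3 Fq13 Fp23 κ1 κ2 hκ1 hκ2 a1 a3 a4 a5 b1 b3 b4 b5
      hκ2p1 (κ1 + wu) huL hui1 hui2 hup2 hup3 hne w hw w1 w2 (by rw [w4]; exact ht)
      (by rw [w3]; exact hs) (by rw [w5]; exact hst) y1 hy1 hi1 hi2 hp1 hp2 hp3 d2 d1 d3
  have P3 : (κ1 + wu) q3 ≠ 0 → (w10 q3 < 0 ∨ w01 q3 < 0) → ∃ y ∈ L, Full L y := by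
    intro hne hor
    obtain ⟨s, t, hs, ht, hst⟩ : ∃ s t : ℝ, 0 < s ∧ 0 < t ∧ s * w10 q3 + t * w01 q3 < 0 := by
      rcases hor with hneg | hneg
      · refine ⟨-(|w01 q3| + 1) / w10 q3, 1, div_pos_of_neg_of_neg
          (by have := abs_nonneg (w01 q3); linarith) hneg, by norm_num, ?_⟩
        rw [div_mul_cancel₀ _ hneg.ne]
        have := le_abs_self (w01 q3)
        linarith
      · refine ⟨1, -(|w10 q3| + 1) / w01 q3, by norm_num, div_pos_of_neg_of_neg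
          (by have := abs_nonneg (w10 q3); linarith) hneg, ?_⟩
        rw [div_mul_cancel₀ _ hneg.ne]
        have := le_abs_self (w10 q3)
        linarith
    obtain ⟨w, hw, w1, w2, w3, w4, w5⟩ := hpat s t
    exact slope_core L i1 i2 p1 p2 p3 q3 q1 q2 Fq12 Fp23 κ1 κ2 hκ1 hκ2 a1 a2 a4 a5 b1 b2 b4 b5
      hκ2p1 (κ1 + wu) huL hui1 hui2 hup2 hup3 hne w hw w1 w2 (by rw [w5]; exact hst)
      (by rw [w3]; exact hs) (by rw [w4]; exact ht) y1 hy1 hi1 hi2 hp1 hp2 hp3 d3 d1 d2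
  rcases lt_or_gt_of_ne hα with hα' | hα' <;> rcases lt_or_gt_of_ne hβ with hβ' | hβ'
  · rcases hu12 with h1 | h1
    · exact P1 h1 (Or.inr hα')
    · exact P2 h1 (Or.inr hβ')
  · rcases hu13 with h1 | h1
    · exact P1 h1 (Or.inr hα')
    · exact P3 h1 (Or.inl hα')
  · rcases hu23 with h1 | h1
    · exact P2 h1 (Or.inl hα')
    · exact P3 h1 (Or.inr hβ')
  · rcases hu12 with h1 | h1
    · exact P1 h1 (Or.inl hβ')
    · exact P2 h1 (Or.inl hα')

theorem H.sw12 {L : Submodule ℝ (ι → ℝ)} {i1 j1 i2 j2 p1 p2 p3 q1 q2 q3 : ι} {c1 c2 : ℝ}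
    (h : H L i1 j1 i2 j2 p1 p2 p3 q1 q2 q3 c1 c2) : H L i1 j1 i2 j2 p2 p1 p3 q1 q2 q3 c1 c2 where
  hall x := by have := h.hall x; tauto
  sum y hy := by have := h.sum y hy; linarith
  hmd := h.hmd
  hc1 := h.hc1
  hc2 := h.hc2
  par1 := h.par1
  par2 := h.par2
  fin := h.fin

theorem H.sw13 {L : Submodule ℝ (ι → ℝ)} {i1 j1 i2 j2 p1 p2 p3 q1 q2 q3 : ι} {c1 c2 : ℝ}
    (h : H L i1 j1 i2 j2 p1 p2 p3 q1 q2 q3 c1 c2) : H L i1 j1 i2 j2 p3 p2 p1 q1 q2 q3 c1 c2 where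
  hall x := by have := h.hall x; tauto
  sum y hy := by have := h.sum y hy; linarith
  hmd := h.hmd
  hc1 := h.hc1
  hc2 := h.hc2
  par1 := h.par1
  par2 := h.par2
  fin := h.fin

theorem H.sw {L : Submodule ℝ (ι → ℝ)} {i1 j1 i2 j2 p1 p2 p3 q1 q2 q3 : ι} {c1 c2 : ℝ}
    (h : H L i1 j1 i2 j2 p1 p2 p3 q1 q2 q3 c1 c2) : H L i2 j2 i1 j1 p1 p2 p3 q1 q2 q3 c2 c1 where
  hall x := by have := h.hall x; tauto
  sum y hy := by have := h.sum y hy; linarith
  hmd := h.hmd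
  hc1 := h.hc2
  hc2 := h.hc1
  par1 := h.par2
  par2 := h.par1
  fin := h.fin

theorem caseCore (L : Submodule ℝ (ι → ℝ)) (i1 j1 i2 j2 p1 p2 p3 q1 q2 q3 : ι) (c1 c2 : ℝ)
    (h : H L i1 j1 i2 j2 p1 p2 p3 q1 q2 q3 c1 c2)
    (e f : ι → ℝ) (he : e ∈ L) (hf : f ∈ L) (he1 : e i1 = 0) (he2 : e i2 = 0) (hf1 : f i1 = 0)
    (hf2 : f i2 = 0) (hef : ∀ a b : ℝ, a • e + b • f = 0 → a = 0 ∧ b = 0)
    (κ1 κ2 : ι → ℝ) (hκ1 : κ1 ∈ L) (hκ2 : κ2 ∈ L)
    (a1 : κ1 q1 = 0) (a2 : κ1 q2 = 0) (a3 : κ1 q3 = 0) (a4 : κ1 i1 = 1) (a5 : κ1 i2 = 0)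
    (b1 : κ2 q1 = 0) (b2 : κ2 q2 = 0) (b3 : κ2 q3 = 0) (b4 : κ2 i1 = 0) (b5 : κ2 i2 = 1)
    (y1 : ι → ℝ) (hy1 : y1 ∈ L) (hi1 : 0 < y1 i1) (hi2 : y1 i2 < 0)
    (n1 : y1 p1 ≠ 0) (n2 : y1 p2 ≠ 0) (n3 : y1 p3 ≠ 0)
    (hpos : 0 < y1 p1 ∨ 0 < y1 p2 ∨ 0 < y1 p3) (hneg : y1 p1 < 0 ∨ y1 p2 < 0 ∨ y1 p3 < 0)
    (d1 : y1 q1 = 0) (d2 : y1 q2 = 0) (d3 : y1 q3 = 0) :
    ∃ y ∈ L, Full L y := by
  have hy1' : -y1 ∈ L := L.neg_mem hy1
  have hi1' : 0 < (-y1) i2 := by rw [Pi.neg_apply]; linarith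
  have hi2' : (-y1) i1 < 0 := by rw [Pi.neg_apply]; linarith
  have d1' : (-y1) q1 = 0 := by rw [Pi.neg_apply, d1, neg_zero]
  have d2' : (-y1) q2 = 0 := by rw [Pi.neg_apply, d2, neg_zero]
  have d3' : (-y1) q3 = 0 := by rw [Pi.neg_apply, d3, neg_zero]
  rcases lt_or_gt_of_ne n1 with h1 | h1 <;> rcases lt_or_gt_of_ne n2 with h2 | h2 <;>
    rcases lt_or_gt_of_ne n3 with h3 | h3
  · -- - - -
    rcases hpos with h' | h' | h' <;> linarith
  · -- - - +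
    exact slope L i1 j1 i2 j2 p3 p2 p1 q1 q2 q3 c1 c2 h.sw13 e f he hf he1 he2 hf1 hf2 hef κ1 κ2
      hκ1 hκ2 a1 a2 a3 a4 a5 b1 b2 b3 b4 b5 y1 hy1 hi1 hi2 h3 h2 h1 d1 d2 d3
  · -- - + -
    exact slope L i1 j1 i2 j2 p2 p1 p3 q1 q2 q3 c1 c2 h.sw12 e f he hf he1 he2 hf1 hf2 hef κ1 κ2
      hκ1 hκ2 a1 a2 a3 a4 a5 b1 b2 b3 b4 b5 y1 hy1 hi1 hi2 h2 h1 h3 d1 d2 d3
  · -- - + +
    exact slope L i2 j2 i1 j1 p1 p2 p3 q1 q2 q3 c2 c1 h.sw e f he hf he2 he1 hf2 hf1 hef κ2 κ1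
      hκ2 hκ1 b1 b2 b3 b5 b4 a1 a2 a3 a5 a4 (-y1) hy1' hi1' hi2'
      (by rw [Pi.neg_apply]; linarith) (by rw [Pi.neg_apply]; linarith)
      (by rw [Pi.neg_apply]; linarith) d1' d2' d3'
  · -- + - -
    exact slope L i1 j1 i2 j2 p1 p2 p3 q1 q2 q3 c1 c2 h e f he hf he1 he2 hf1 hf2 hef κ1 κ2
      hκ1 hκ2 a1 a2 a3 a4 a5 b1 b2 b3 b4 b5 y1 hy1 hi1 hi2 h1 h2 h3 d1 d2 d3
  · -- + - +
    exact slope L i2 j2 i1 j1 p2 p1 p3 q1 q2 q3 c2 c1 h.sw12.sw e f he hf he2 he1 hf2 hf1 hef κ2 κ1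
      hκ2 hκ1 b1 b2 b3 b5 b4 a1 a2 a3 a5 a4 (-y1) hy1' hi1' hi2'
      (by rw [Pi.neg_apply]; linarith) (by rw [Pi.neg_apply]; linarith)
      (by rw [Pi.neg_apply]; linarith) d1' d2' d3'
  · -- + + -
    exact slope L i2 j2 i1 j1 p3 p2 p1 q1 q2 q3 c2 c1 h.sw13.sw e f he hf he2 he1 hf2 hf1 hef κ2 κ1
      hκ2 hκ1 b1 b2 b3 b5 b4 a1 a2 a3 a5 a4 (-y1) hy1' hi1' hi2'
      (by rw [Pi.neg_apply]; linarith) (by rw [Pi.neg_apply]; linarith)
      (by rw [Pi.neg_apply]; linarith) d1' d2' d3'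
  · -- + + +
    rcases hneg with h' | h' | h' <;> linarith

open Filter Topology in
theorem small_t (x y : ℝ) (hx : x ≠ 0) : ∀ᶠ t in 𝓝[>] (0:ℝ), 0 < x * (x - t * y) := by
  have h1 : Continuous (fun t : ℝ => x * (x - t * y)) := by fun_prop
  have h2 : ∀ᶠ t in 𝓝 (0:ℝ), 0 < x * (x - t * y) := by
    apply h1.continuousAt.eventually (lt_mem_nhds _)
    show 0 < x * (x - 0 * y)
    rw [zero_mul, sub_zero]
    exact mul_self_pos.2 hx
  exact h2.filter_mono nhdsWithin_le_nhds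

theorem mid_t (a b c : ℝ) (hab : a < b) : ∃ t, a < t ∧ t < b ∧ t ≠ c := by
  by_cases h : (a + b) / 2 = c
  · refine ⟨(2 * a + b) / 3, by linarith, by linarith, fun h' => ?_⟩
    linarith
  · exact ⟨(a + b) / 2, by linarith, by linarith, h⟩

theorem sgn_pos {x z : ℝ} (h : 0 < x * z) (hx : 0 < x) : 0 < z := (pos_iff_pos_of_mul_pos h).1 hx

theorem sgn_neg {x z : ℝ} (h : 0 < x * z) (hx : x < 0) : z < 0 := (neg_iff_neg_of_mul_pos h).1 hx

theorem caseC_t (x y x' y' x'' y'' : ℝ) (hx : x < 0) (hy : y < 0) (hx' : x' < 0) (hy' : y' < 0)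
    (hx'' : x'' < 0) (hy'' : y'' < 0) (hlt : x / y < x' / y') :
    ∃ t, 0 < t ∧ 0 < x - t * y ∧ x' - t * y' < 0 ∧ x'' - t * y'' ≠ 0 := by
  obtain ⟨t, h1, h2, h3⟩ := mid_t (x / y) (x' / y') (x'' / y'') hlt
  have h0 : 0 < x / y := div_pos_of_neg_of_neg hx hy
  refine ⟨t, h0.trans h1, ?_, ?_, ?_⟩
  · rw [div_lt_iff_of_neg hy] at h1
    linarith
  · rw [lt_div_iff_of_neg hy'] at h2
    linarith
  · intro h4
    apply h3
    rw [eq_div_iff hy''.ne]
    linarith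

open Filter Topology in
theorem exT (x1 x2 x3 y1 y2 y3 : ℝ) (hx1 : x1 ≠ 0) (hx2 : x2 ≠ 0) (hx3 : x3 ≠ 0)
    (hy1 : y1 ≠ 0) (hy2 : y2 ≠ 0) (hy3 : y3 ≠ 0) (hx : x1 < 0 ∨ x2 < 0 ∨ x3 < 0)
    (hy : y1 < 0 ∨ y2 < 0 ∨ y3 < 0)
    (hρ : ∀ ρ : ℝ, ¬ (x1 = ρ * y1 ∧ x2 = ρ * y2 ∧ x3 = ρ * y3)) :
    ∃ t, 0 < t ∧ x1 - t * y1 ≠ 0 ∧ x2 - t * y2 ≠ 0 ∧ x3 - t * y3 ≠ 0 ∧
      (0 < x1 - t * y1 ∨ 0 < x2 - t * y2 ∨ 0 < x3 - t * y3) ∧
      (x1 - t * y1 < 0 ∨ x2 - t * y2 < 0 ∨ x3 - t * y3 < 0) := by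
  by_cases hA : 0 < x1 ∨ 0 < x2 ∨ 0 < x3
  · obtain ⟨t, ⟨⟨h1, h2⟩, h3⟩, ht⟩ := ((((small_t x1 y1 hx1).and (small_t x2 y2 hx2)).and
      (small_t x3 y3 hx3)).and self_mem_nhdsWithin).exists
    refine ⟨t, ht, right_ne_zero_of_mul h1.ne', right_ne_zero_of_mul h2.ne',
      right_ne_zero_of_mul h3.ne', ?_, ?_⟩
    · rcases hA with h | h | h
      · exact Or.inl (sgn_pos h1 h)
      · exact Or.inr (Or.inl (sgn_pos h2 h))
      · exact Or.inr (Or.inr (sgn_pos h3 h))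
    · rcases hx with h | h | h
      · exact Or.inl (sgn_neg h1 h)
      · exact Or.inr (Or.inl (sgn_neg h2 h))
      · exact Or.inr (Or.inr (sgn_neg h3 h))
  · by_cases hB : 0 < y1 ∨ 0 < y2 ∨ 0 < y3
    · obtain ⟨t, ⟨⟨h1, h2⟩, h3⟩, ht⟩ := ((((small_t y1 x1 hy1).and (small_t y2 x2 hy2)).and
        (small_t y3 x3 hy3)).and self_mem_nhdsWithin).exists
      have ht' : 0 < t := ht
      have key : ∀ x y : ℝ, 0 < y * (y - t * x) → y * (x - t⁻¹ * y) < 0 := by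
        intro x y h
        have e : y * (x - t⁻¹ * y) = -(t⁻¹ * (y * (y - t * x))) := by
          field_simp
          ring
        rw [e]
        have := mul_pos (inv_pos.2 ht') h
        linarith
      have k1 := key x1 y1 h1
      have k2 := key x2 y2 h2
      have k3 := key x3 y3 h3
      have sg1 : ∀ x y : ℝ, y * x < 0 → 0 < y → x < 0 := by
        intro x y h hy
        by_contra hcon
        push Not at hcon
        have := mul_nonneg hy.le hcon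
        linarith
      have sg2 : ∀ x y : ℝ, y * x < 0 → y < 0 → 0 < x := by
        intro x y h hy
        by_contra hcon
        push Not at hcon
        have := mul_nonneg_of_nonpos_of_nonpos hy.le hcon
        linarith
      refine ⟨t⁻¹, inv_pos.2 ht', right_ne_zero_of_mul k1.ne, right_ne_zero_of_mul k2.ne,
        right_ne_zero_of_mul k3.ne, ?_, ?_⟩
      · rcases hy with h | h | h
        · exact Or.inl (sg2 _ _ k1 h)
        · exact Or.inr (Or.inl (sg2 _ _ k2 h))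
        · exact Or.inr (Or.inr (sg2 _ _ k3 h))
      · rcases hB with h | h | h
        · exact Or.inl (sg1 _ _ k1 h)
        · exact Or.inr (Or.inl (sg1 _ _ k2 h))
        · exact Or.inr (Or.inr (sg1 _ _ k3 h))
    · push Not at hA hB
      obtain ⟨A1, A2, A3⟩ := hA
      obtain ⟨B1, B2, B3⟩ := hB
      have A1' := lt_of_le_of_ne A1 hx1
      have A2' := lt_of_le_of_ne A2 hx2
      have A3' := lt_of_le_of_ne A3 hx3
      have B1' := lt_of_le_of_ne B1 hy1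
      have B2' := lt_of_le_of_ne B2 hy2
      have B3' := lt_of_le_of_ne B3 hy3
      by_cases h12 : x1 / y1 = x2 / y2
      · have h13 : x1 / y1 ≠ x3 / y3 := by
          intro h13
          apply hρ (x1 / y1)
          refine ⟨?_, ?_, ?_⟩
          · field_simp
          · rw [h12]; field_simp
          · rw [h13]; field_simp
        rcases lt_or_gt_of_ne h13 with h | h
        · obtain ⟨t, t0, t1, t2, t3⟩ := caseC_t x1 y1 x3 y3 x2 y2 A1' B1' A3' B3' A2' B2' h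
          exact ⟨t, t0, t1.ne', t3, t2.ne, Or.inl t1, Or.inr (Or.inr t2)⟩
        · obtain ⟨t, t0, t1, t2, t3⟩ := caseC_t x3 y3 x1 y1 x2 y2 A3' B3' A1' B1' A2' B2' h
          exact ⟨t, t0, t2.ne, t3, t1.ne', Or.inr (Or.inr t1), Or.inl t2⟩
      · rcases lt_or_gt_of_ne h12 with h | h
        · obtain ⟨t, t0, t1, t2, t3⟩ := caseC_t x1 y1 x2 y2 x3 y3 A1' B1' A2' B2' A3' B3' h
          exact ⟨t, t0, t1.ne', t2.ne, t3, Or.inl t1, Or.inr (Or.inl t2)⟩
        · obtain ⟨t, t0, t1, t2, t3⟩ := caseC_t x2 y2 x1 y1 x3 y3 A2' B2' A1' B1' A3' B3' h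
          exact ⟨t, t0, t2.ne, t1.ne', t3, Or.inr (Or.inl t1), Or.inl t2⟩

/-- a vector of `L` which vanishes outside `i1, j1` and two others is zero -/
theorem nz_aux (L : Submodule ℝ (ι → ℝ)) (i1 j1 i2 j2 p1 p2 p3 q1 q2 q3 : ι) (c1 c2 : ℝ)
    (h : H L i1 j1 i2 j2 p1 p2 p3 q1 q2 q3 c1 c2) (κ : ι → ℝ) (hκ : κ ∈ L)
    (a1 : κ q1 = 0) (a2 : κ q2 = 0) (a3 : κ q3 = 0) (a4 : κ i1 = 1) (a5 : κ i2 = 0) :
    κ p1 ≠ 0 := by
  intro hp
  have h1 : κ = 0 := by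
    apply h.hmd κ hκ i1 j1 p2 p3
    intro x x1 x2 x3 x4
    have hj2 : κ j2 = 0 := by rw [h.par2 κ hκ, a5, mul_zero]
    rcases h.hall x with rfl | rfl | rfl | rfl | rfl | rfl | rfl | rfl | rfl | rfl <;>
      first | assumption | (exfalso; first | exact x1 rfl | exact x2 rfl | exact x3 rfl | exact x4 rfl)
  rw [h1, Pi.zero_apply] at a4
  exact zero_ne_one a4

theorem neg_aux (L : Submodule ℝ (ι → ℝ)) (i1 j1 i2 j2 p1 p2 p3 q1 q2 q3 : ι) (c1 c2 : ℝ)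
    (h : H L i1 j1 i2 j2 p1 p2 p3 q1 q2 q3 c1 c2) (κ : ι → ℝ) (hκ : κ ∈ L)
    (a1 : κ q1 = 0) (a2 : κ q2 = 0) (a3 : κ q3 = 0) (a4 : κ i1 = 1) (a5 : κ i2 = 0) :
    κ p1 < 0 ∨ κ p2 < 0 ∨ κ p3 < 0 := by
  by_contra hcon
  push Not at hcon
  obtain ⟨h1, h2, h3⟩ := hcon
  have hs := h.sum κ hκ
  rw [h.par1 κ hκ, h.par2 κ hκ, a1, a2, a3, a4, a5] at hs
  have := h.hc1
  linarith

theorem caseB (L : Submodule ℝ (ι → ℝ)) (i1 j1 i2 j2 p1 p2 p3 q1 q2 q3 : ι) (c1 c2 : ℝ)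
    (h : H L i1 j1 i2 j2 p1 p2 p3 q1 q2 q3 c1 c2)
    (e f : ι → ℝ) (he : e ∈ L) (hf : f ∈ L) (he1 : e i1 = 0) (he2 : e i2 = 0) (hf1 : f i1 = 0)
    (hf2 : f i2 = 0) (hef : ∀ a b : ℝ, a • e + b • f = 0 → a = 0 ∧ b = 0)
    (κ1 κ2 : ι → ℝ) (hκ1 : κ1 ∈ L) (hκ2 : κ2 ∈ L)
    (a1 : κ1 q1 = 0) (a2 : κ1 q2 = 0) (a3 : κ1 q3 = 0) (a4 : κ1 i1 = 1) (a5 : κ1 i2 = 0)
    (b1 : κ2 q1 = 0) (b2 : κ2 q2 = 0) (b3 : κ2 q3 = 0) (b4 : κ2 i1 = 0) (b5 : κ2 i2 = 1) :
    ∃ y ∈ L, Full L y := by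
  have x1 := nz_aux L i1 j1 i2 j2 p1 p2 p3 q1 q2 q3 c1 c2 h κ1 hκ1 a1 a2 a3 a4 a5
  have x2 := nz_aux L i1 j1 i2 j2 p2 p1 p3 q1 q2 q3 c1 c2 h.sw12 κ1 hκ1 a1 a2 a3 a4 a5
  have x3 := nz_aux L i1 j1 i2 j2 p3 p2 p1 q1 q2 q3 c1 c2 h.sw13 κ1 hκ1 a1 a2 a3 a4 a5
  have y1 := nz_aux L i2 j2 i1 j1 p1 p2 p3 q1 q2 q3 c2 c1 h.sw κ2 hκ2 b1 b2 b3 b5 b4
  have y2 := nz_aux L i2 j2 i1 j1 p2 p1 p3 q1 q2 q3 c2 c1 h.sw12.sw κ2 hκ2 b1 b2 b3 b5 b4
  have y3 := nz_aux L i2 j2 i1 j1 p3 p2 p1 q1 q2 q3 c2 c1 h.sw13.sw κ2 hκ2 b1 b2 b3 b5 b4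
  have hx := neg_aux L i1 j1 i2 j2 p1 p2 p3 q1 q2 q3 c1 c2 h κ1 hκ1 a1 a2 a3 a4 a5
  have hy := neg_aux L i2 j2 i1 j1 p1 p2 p3 q1 q2 q3 c2 c1 h.sw κ2 hκ2 b1 b2 b3 b5 b4
  obtain ⟨t, t0, n1, n2, n3, hpos, hneg⟩ := exT (κ1 p1) (κ1 p2) (κ1 p3) (κ2 p1) (κ2 p2) (κ2 p3)
    x1 x2 x3 y1 y2 y3 hx hy (by
      rintro ρ ⟨r1, r2, r3⟩
      have hz : κ1 - ρ • κ2 ∈ L := L.sub_mem hκ1 (L.smul_mem ρ hκ2)
      have h0 : κ1 - ρ • κ2 = 0 := by
        apply h.hmd _ hz i1 j1 i2 j2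
        intro x x1 x2 x3 x4
        rw [Pi.sub_apply, Pi.smul_apply, smul_eq_mul, sub_eq_zero]
        rcases h.hall x with rfl | rfl | rfl | rfl | rfl | rfl | rfl | rfl | rfl | rfl
        · exact absurd rfl x1
        · exact absurd rfl x2
        · exact absurd rfl x3
        · exact absurd rfl x4
        · exact r1
        · exact r2
        · exact r3
        · rw [a1, b1, mul_zero]
        · rw [a2, b2, mul_zero]
        · rw [a3, b3, mul_zero]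
      have h1 := congrFun h0 i1
      rw [Pi.sub_apply, Pi.smul_apply, smul_eq_mul, a4, b4, mul_zero, sub_zero, Pi.zero_apply] at h1
      exact one_ne_zero h1)
  have ev : ∀ x, (κ1 - t • κ2) x = κ1 x - t * κ2 x := fun x => by
    rw [Pi.sub_apply, Pi.smul_apply, smul_eq_mul]
  refine caseCore L i1 j1 i2 j2 p1 p2 p3 q1 q2 q3 c1 c2 h e f he hf he1 he2 hf1 hf2 hef κ1 κ2
    hκ1 hκ2 a1 a2 a3 a4 a5 b1 b2 b3 b4 b5 (κ1 - t • κ2) (L.sub_mem hκ1 (L.smul_mem t hκ2))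
    ?_ ?_ ?_ ?_ ?_ ?_ ?_ ?_ ?_ ?_
  · rw [ev, a4, b4]; norm_num
  · rw [ev, a5, b5]; linarith
  · rw [ev]; exact n1
  · rw [ev]; exact n2
  · rw [ev]; exact n3
  · rw [ev, ev, ev]; exact hpos
  · rw [ev, ev, ev]; exact hneg
  · rw [ev, a1, b1]; norm_num
  · rw [ev, a2, b2]; norm_num
  · rw [ev, a3, b3]; norm_num

theorem AB (L : Submodule ℝ (ι → ℝ)) (i1 j1 i2 j2 p1 p2 p3 q1 q2 q3 : ι) (c1 c2 : ℝ)
    (h : H L i1 j1 i2 j2 p1 p2 p3 q1 q2 q3 c1 c2) (y0 : ι → ℝ) (hy0 : y0 ∈ L)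
    (h1 : y0 i1 = 0) (h2 : y0 i2 = 0) (hp1 : 0 < y0 p1) (hp2 : 0 < y0 p2) (hp3 : 0 < y0 p3)
    (hq1 : y0 q1 < 0) (hq2 : y0 q2 < 0) (hq3 : y0 q3 < 0)
    (u : ι → ℝ) (hu : u ∈ L) (hu1 : u i1 = 1)
    (e f : ι → ℝ) (he : e ∈ L) (hf : f ∈ L) (he1 : e i1 = 0) (he2 : e i2 = 0) (hf1 : f i1 = 0)
    (hf2 : f i2 = 0) (hef : ∀ a b : ℝ, a • e + b • f = 0 → a = 0 ∧ b = 0)
    (hne : ¬ ∀ z ∈ L, z q1 = 0 → z q2 = 0 → z q3 = 0 → z i1 = 0 → z = 0) :
    ∃ y ∈ L, Full L y := by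
  push Not at hne
  obtain ⟨z, hz, hzq1, hzq2, hzq3, hz1, hz0⟩ := hne
  have hF : ∀ w ∈ L, w i1 = 0 → w i2 = 0 → w q1 = 0 → w q2 = 0 → w q3 = 0 → w = 0 := by
    intro w hw w1 w2 wq1 wq2 wq3
    apply h.hmd w hw p1 p2 p3 p3
    intro x x1 x2 x3 _
    rcases h.hall x with rfl | rfl | rfl | rfl | rfl | rfl | rfl | rfl | rfl | rfl
    · exact w1
    · rw [h.par1 w hw, w1, mul_zero]
    · exact w2
    · rw [h.par2 w hw, w2, mul_zero]
    · exact absurd rfl x1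
    · exact absurd rfl x2
    · exact absurd rfl x3
    · exact wq1
    · exact wq2
    · exact wq3
  by_cases huniq : ∀ z' ∈ L, z' q1 = 0 → z' q2 = 0 → z' q3 = 0 → ∃ t : ℝ, z' = t • z
  · exact caseA L i1 j1 i2 j2 p1 p2 p3 q1 q2 q3 c1 c2 h y0 hy0 h1 h2 hp1 hp2 hp3 hq1 hq2 hq3 u hu hu1
      e f he hf he1 he2 hf1 hf2 hef z hz hz0 hzq1 hzq2 hzq3 hz1 huniq
  · push Not at huniq
    obtain ⟨z', hz', zq1, zq2, zq3, hzt⟩ := huniq
    have hz2 : z i2 ≠ 0 := fun h0 => hz0 (hF z hz hz1 h0 hzq1 hzq2 hzq3)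
    have hz'1 : z' i1 ≠ 0 := by
      intro h0
      have h3 := hF (z' - (z' i2 / z i2) • z) (L.sub_mem hz' (L.smul_mem _ hz))
        (by simp [h0, hz1]) (by simp [hz2]) (by simp [zq1, hzq1]) (by simp [zq2, hzq2])
        (by simp [zq3, hzq3])
      exact hzt _ (sub_eq_zero.mp h3)
    refine caseB L i1 j1 i2 j2 p1 p2 p3 q1 q2 q3 c1 c2 h e f he hf he1 he2 hf1 hf2 hef
      ((z' i1)⁻¹ • (z' - (z' i2 / z i2) • z)) ((z i2)⁻¹ • z)
      (L.smul_mem _ (L.sub_mem hz' (L.smul_mem _ hz))) (L.smul_mem _ hz)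
      (by simp [zq1, hzq1]) (by simp [zq2, hzq2]) (by simp [zq3, hzq3])
      (by simp [hz1, hz'1]) (by simp [hz2]) (by simp [hzq1]) (by simp [hzq2]) (by simp [hzq3])
      (by simp [hz1]) (by simp [hz2])

/-- renaming -/
theorem H.swapPQ {L : Submodule ℝ (ι → ℝ)} {i1 j1 i2 j2 p1 p2 p3 q1 q2 q3 : ι} {c1 c2 : ℝ}
    (h : H L i1 j1 i2 j2 p1 p2 p3 q1 q2 q3 c1 c2) : H L i1 j1 i2 j2 q1 q2 q3 p1 p2 p3 c1 c2 where
  hall x := by have := h.hall x; tauto
  sum y hy := by have := h.sum y hy; linarith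
  hmd := h.hmd
  hc1 := h.hc1
  hc2 := h.hc2
  par1 := h.par1
  par2 := h.par2
  fin := h.fin

/-- renaming -/
theorem H.swap12 {L : Submodule ℝ (ι → ℝ)} {i1 j1 i2 j2 p1 p2 p3 q1 q2 q3 : ι} {c1 c2 : ℝ}
    (h : H L i1 j1 i2 j2 p1 p2 p3 q1 q2 q3 c1 c2) : H L i2 j2 i1 j1 p1 p2 p3 q1 q2 q3 c2 c1 where
  hall x := by have := h.hall x; tauto
  sum y hy := by have := h.sum y hy; linarith
  hmd := h.hmd
  hc1 := h.hc2
  hc2 := h.hc1
  par1 := h.par2
  par2 := h.par1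
  fin := h.fin

/-- all cases together -/
theorem allcases (L : Submodule ℝ (ι → ℝ)) (i1 j1 i2 j2 p1 p2 p3 q1 q2 q3 : ι) (c1 c2 : ℝ)
    (h : H L i1 j1 i2 j2 p1 p2 p3 q1 q2 q3 c1 c2) (y0 : ι → ℝ) (hy0 : y0 ∈ L)
    (h1 : y0 i1 = 0) (h2 : y0 i2 = 0) (hp1 : 0 < y0 p1) (hp2 : 0 < y0 p2) (hp3 : 0 < y0 p3)
    (hq1 : y0 q1 < 0) (hq2 : y0 q2 < 0) (hq3 : y0 q3 < 0)
    (u : ι → ℝ) (hu : u ∈ L) (hu1 : u i1 = 1) (hu2 : u i2 = -1)
    (e f : ι → ℝ) (he : e ∈ L) (hf : f ∈ L) (he1 : e i1 = 0) (he2 : e i2 = 0) (hf1 : f i1 = 0)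
    (hf2 : f i2 = 0) (hef : ∀ a b : ℝ, a • e + b • f = 0 → a = 0 ∧ b = 0) :
    ∃ y ∈ L, Full L y := by
  by_cases hP : ∀ z ∈ L, z p1 = 0 → z p2 = 0 → z p3 = 0 → z i1 = 0 → z = 0
  · by_cases hQ : ∀ z ∈ L, z q1 = 0 → z q2 = 0 → z q3 = 0 → z i2 = 0 → z = 0
    · exact caseC L i1 j1 i2 j2 p1 p2 p3 q1 q2 q3 c1 c2 h y0 hy0 h1 h2 hp1 hp2 hp3 hq1 hq2 hq3
        u hu hu1 hu2 hP hQ
    · exact AB L i2 j2 i1 j1 p1 p2 p3 q1 q2 q3 c2 c1 h.swap12 y0 hy0 h2 h1 hp1 hp2 hp3 hq1 hq2 hq3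
        (-u) (L.neg_mem hu) (by simp [hu2]) e f he hf he2 he1 hf2 hf1 hef hQ
  · exact AB L i1 j1 i2 j2 q1 q2 q3 p1 p2 p3 c1 c2 h.swapPQ (-y0) (L.neg_mem hy0) (by simp [h1])
      (by simp [h2]) (by simpa using hq1) (by simpa using hq2) (by simpa using hq3)
      (by simpa using hp1) (by simpa using hp2) (by simpa using hp3) u hu hu1
      e f he hf he1 he2 hf1 hf2 hef hP


end Cases

section HeavyClass

open Finset Module Pool.Agent.Helper137.Core Pool.Agent.Helper137.KL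
open Pool.Agent.Helper137.IA (Ind Hyp main local_hyp proj van)
open Pool.Agent.Helper137.IB (perturb0 ind_card finish ind_mono671)

variable {ι : Type*} [Fintype ι] [DecidableEq ι]

/-- the positive half of `heavyC` -/
theorem heavyCB (L : Submodule ℝ (ι → ℝ)) (hL : ∀ y ∈ L, ∑ i, y i = 0) (k : ℕ)
    (hnl : ∀ i, ∃ y ∈ L, y i ≠ 0)
    (hmd : ∀ z ∈ L, ∀ P : Finset ι, P.card ≤ k + 1 → (∀ i, i ∉ P → z i = 0) → z = 0)
    (hl : finrank ℝ L = k + 1)
    (i : ι) (C : Finset ι) (hiC : i ∈ C) (hpar : ∀ j ∈ C, ∃ c : ℝ, 0 < c ∧ ∀ y ∈ L, y j = c * y i)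
    (s1 : Finset ι) (hs1 : ∀ a, a ∈ s1 ↔ (a ∈ C → a = i))
    (hdist : ∀ a b, (a ∈ C → a = i) → (b ∈ C → b = i) → a ≠ b → ∀ c : ℝ, 0 < c →
      ∃ y ∈ L, y b ≠ c * y a)
    (α : ι → ℝ) (hα : α ∈ L) (hαi : 0 < α i)
    (hX : Ind L (s1.filter (fun a => α a ≠ 0))) :
    ∃ y ∈ L, (∀ i, y i ≠ 0) ∧ (finrank ℝ L : ℤ) + k + 1 ≤ rk L (pos y) + rk L (neg y) := by
  classical
  have hXc : (s1.filter (fun a => α a ≠ 0)).card ≤ k + 1 :=
    (ind_card L _ hX).trans hl.le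
  have hC0 : ∀ y ∈ L, y i = 0 → ∀ j ∈ C, y j = 0 := by
    intro y hy h0 j hj
    obtain ⟨c, _, hc⟩ := hpar j hj
    rw [hc y hy, h0, mul_zero]
  have hCp : ∀ j ∈ C, 0 < α j := by
    intro j hj
    obtain ⟨c, hc0, hc⟩ := hpar j hj
    rw [hc α hα]; positivity
  have his : i ∈ s1 := (hs1 i).2 (fun _ => rfl)
  have hout : ∀ a, a ∉ s1 → a ∈ C := by
    intro a ha
    by_contra hcon
    exact ha ((hs1 a).2 (fun h => absurd h hcon))
  -- w
  obtain ⟨w, hw⟩ : ∃ w, α w < 0 := by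
    by_contra hcon
    push Not at hcon
    have h0 := hL α hα
    have := (Finset.sum_eq_zero_iff_of_nonneg (fun a _ => hcon a)).1 h0 i (mem_univ i)
    exact hαi.ne' this
  have hwC : w ∉ C := fun h => absurd (hCp w h) (not_lt.2 hw.le)
  have hws : w ∈ s1 := (hs1 w).2 (fun h => absurd h hwC)
  have hE : Ind L (s1.filter (fun a => α a < 0)) := by
    refine ind_mono671 L _ _ hX fun a ha => ?_
    rw [mem_filter] at ha ⊢
    exact ⟨ha.1, ha.2.ne⟩
  have hEc : (s1.filter (fun a => α a < 0)).card ≤ k + 1 :=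
    (ind_card L _ hE).trans hl.le
  have hiF : i ∈ s1.filter (fun a => 0 < α a) := by
    rw [mem_filter]; exact ⟨his, hαi⟩
  have hH : Hyp s1 L (van L (s1.filter (fun a => 0 < α a))) L := by
    refine ⟨fun y hy => hy.1, le_rfl, ?_, fun a _ => hnl a, ?_, ?_⟩
    · intro y hy h0
      funext a
      by_cases haj : a ∈ s1
      · exact h0 a haj
      · exact hC0 y hy (h0 i his) a (hout a haj)
    · intro a ha b hb hab
      exact hdist a b ((hs1 a).1 ha) ((hs1 b).1 hb) hab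
    · intro α1 hα1 hne hI
      apply hne
      have h1i : α1 i = 0 := hα1.2 i hiF
      refine hmd α1 hα1.1 _ ((ind_card L _ hI).trans hl.le) fun a ha => ?_
      by_contra hcon
      apply ha
      rw [mem_filter]
      refine ⟨?_, hcon⟩
      by_contra hnot
      exact hcon (hC0 α1 hα1.1 h1i a (hout a hnot))
  have hloc := local_hyp _ _ _ _ hH α hE
  obtain ⟨y1, hy1, hp1, hp2⟩ := main _ _ _ _ _ rfl hloc
  obtain ⟨z, hz, rfl⟩ := hy1
  obtain ⟨ε, hε, hpert⟩ := perturb0 s1 α z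
  have hyL : α + ε • z ∈ L := L.add_mem hα (L.smul_mem ε hz)
  have hyv : ∀ a, (α + ε • z) a = α a + ε * z a := fun a => by
    simp [smul_eq_mul]
  refine finish L L le_rfl k hl.ge hnl (α + ε • z) hyL ?_ ?_
  · intro α1 hα1 hv
    have hF1 : ∀ a ∈ s1.filter (fun a => 0 < α a), α1 a = 0 := by
      intro a ha
      rw [mem_filter] at ha
      apply hv
      rw [hyv]
      exact (hpert a ha.1).1 ha.2
    have hproj : proj (s1.filter (fun a => α a = 0)) α1 = 0 := by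
      refine hp1 _ ⟨α1, ⟨⟨hα1, hF1⟩, hF1⟩, rfl⟩ ?_
      intro a ha hpa
      have haZ := ha
      rw [mem_filter] at haZ
      simp only [proj, LinearMap.coe_mk, AddHom.coe_mk, ha, if_true] at hpa ⊢
      apply hv
      rw [hyv, haZ.2, zero_add]
      positivity
    have hZ0 : ∀ a ∈ s1.filter (fun a => α a = 0), α1 a = 0 := by
      intro a ha
      have := congrFun hproj a
      simp only [proj, LinearMap.coe_mk, AddHom.coe_mk, ha, if_true] at this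
      exact this
    have h1i : α1 i = 0 := hF1 i hiF
    refine hmd α1 hα1 _ hEc fun a ha => ?_
    by_cases has : a ∈ s1
    · rcases lt_trichotomy (α a) 0 with h | h | h
      · exact absurd (mem_filter.2 ⟨has, h⟩) ha
      · exact hZ0 a (mem_filter.2 ⟨has, h⟩)
      · exact hF1 a (mem_filter.2 ⟨has, h⟩)
    · exact hC0 α1 hα1 h1i a (hout a has)
  · intro β hβ hv
    have hE1 : ∀ a ∈ s1.filter (fun a => α a < 0), β a = 0 := by
      intro a ha
      rw [mem_filter] at ha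
      apply hv
      rw [hyv]
      exact (hpert a ha.1).2 ha.2
    have hproj : proj (s1.filter (fun a => α a = 0)) β = 0 := by
      refine hp2 _ ⟨β, ⟨hβ, hE1⟩, rfl⟩ ?_
      intro a ha hpa
      have haZ := ha
      rw [mem_filter] at haZ
      simp only [proj, LinearMap.coe_mk, AddHom.coe_mk, ha, if_true] at hpa ⊢
      apply hv
      rw [hyv, haZ.2, zero_add]
      exact mul_neg_of_pos_of_neg hε hpa
    have hZ0 : ∀ a ∈ s1.filter (fun a => α a = 0), β a = 0 := by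
      intro a ha
      have := congrFun hproj a
      simp only [proj, LinearMap.coe_mk, AddHom.coe_mk, ha, if_true] at this
      exact this
    have hβw : β w = 0 := hE1 w (mem_filter.2 ⟨hws, hw⟩)
    have hγL : β - (β i / α i) • α ∈ L := L.sub_mem hβ (L.smul_mem _ hα)
    have hγv : ∀ a, (β - (β i / α i) • α) a = β a - β i / α i * α a := fun a => by
      simp [smul_eq_mul]
    have hγi : (β - (β i / α i) • α) i = 0 := by
      rw [hγv]; field_simp; ring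
    have hγZ : ∀ a, a ∈ s1 → α a = 0 → (β - (β i / α i) • α) a = 0 := by
      intro a haj ha
      rw [hγv, ha, hZ0 a (mem_filter.2 ⟨haj, ha⟩)]; ring
    have hγ0 : β - (β i / α i) • α = 0 := by
      refine hmd _ hγL _ hXc fun a ha => ?_
      by_cases has : a ∈ s1
      · apply hγZ a has
        by_contra hcon
        exact ha (mem_filter.2 ⟨has, hcon⟩)
      · exact hC0 _ hγL hγi a (hout a has)
    have hw0 := congrFun hγ0 w
    rw [hγv, hβw] at hw0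
    have ht : β i / α i = 0 := by
      have h3 : β i / α i * α w = 0 := by
        have : (0 : ι → ℝ) w = 0 := rfl
        rw [this] at hw0
        linarith
      rcases mul_eq_zero.1 h3 with h | h
      · exact h
      · exact absurd h hw.ne
    rw [ht, zero_smul, sub_zero] at hγ0
    exact hγ0

/-- Exactly one nontrivial class `C` of positively proportional coordinates, `dim L = k + 1`. -/
theorem heavyC (L : Submodule ℝ (ι → ℝ)) (hL : ∀ y ∈ L, ∑ i, y i = 0) (k : ℕ)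
    (hnl : ∀ i, ∃ y ∈ L, y i ≠ 0)
    (hmd : ∀ z ∈ L, ∀ P : Finset ι, P.card ≤ k + 1 → (∀ i, i ∉ P → z i = 0) → z = 0)
    (hl : finrank ℝ L = k + 1)
    (i : ι) (C : Finset ι) (hiC : i ∈ C) (hpar : ∀ j ∈ C, ∃ c : ℝ, 0 < c ∧ ∀ y ∈ L, y j = c * y i)
    (hdist : ∀ a b, (a ∈ C → a = i) → (b ∈ C → b = i) → a ≠ b → ∀ c : ℝ, 0 < c →
      ∃ y ∈ L, y b ≠ c * y a) :
    ∃ y ∈ L, (∀ i, y i ≠ 0) ∧ (finrank ℝ L : ℤ) + k + 1 ≤ rk L (pos y) + rk L (neg y) := by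
  classical
  obtain ⟨s1, hs1⟩ : ∃ s1 : Finset ι, ∀ a, a ∈ s1 ↔ (a ∈ C → a = i) :=
    ⟨univ.filter (fun x => x ∈ C → x = i), fun a => by simp⟩
  have hC0 : ∀ y ∈ L, y i = 0 → ∀ j ∈ C, y j = 0 := by
    intro y hy h0 j hj
    obtain ⟨c, _, hc⟩ := hpar j hj
    rw [hc y hy, h0, mul_zero]
  have his : i ∈ s1 := (hs1 i).2 (fun _ => rfl)
  have hout : ∀ a, a ∉ s1 → a ∈ C := by
    intro a ha
    by_contra hcon
    exact ha ((hs1 a).2 (fun h => absurd h hcon))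
  by_cases hdep : ∀ α ∈ L, α ≠ 0 → ¬ Ind L (s1.filter (fun a => α a ≠ 0))
  · have hH : Hyp s1 L L L := by
      refine ⟨le_rfl, le_rfl, ?_, fun a _ => hnl a, ?_, hdep⟩
      · intro y hy h0
        funext a
        by_cases haj : a ∈ s1
        · exact h0 a haj
        · exact hC0 y hy (h0 i his) a (hout a haj)
      · intro a ha b hb hab
        exact hdist a b ((hs1 a).1 ha) ((hs1 b).1 hb) hab
    obtain ⟨y, hy, h1, h2⟩ := main _ _ _ _ _ rfl hH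
    exact finish L L le_rfl k hl.ge hnl y hy (fun α hα h => h1 α hα fun a _ hp => h a hp)
      (fun α hα h => h2 α hα fun a _ hp => h a hp)
  · push Not at hdep
    obtain ⟨α, hα, hα0, hI⟩ := hdep
    have hXc : (s1.filter (fun a => α a ≠ 0)).card ≤ k + 1 :=
      (ind_card L _ hI).trans hl.le
    have hαi : α i ≠ 0 := by
      intro h0
      apply hα0
      refine hmd α hα _ hXc fun a ha => ?_
      by_contra hcon
      apply ha
      rw [mem_filter]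
      refine ⟨?_, hcon⟩
      by_contra hnot
      exact hcon (hC0 α hα h0 a (hout a hnot))
    rcases lt_or_gt_of_ne hαi with h | h
    · refine heavyCB L hL k hnl hmd hl i C hiC hpar s1 hs1 hdist (-α) (L.neg_mem hα) (by
        simpa using h) ?_
      simpa using hI
    · exact heavyCB L hL k hnl hmd hl i C hiC hpar s1 hs1 hdist α hα h hI

end HeavyClass

section Two

open Finset Module Pool.Agent.Helper137.Core Pool.Agent.Helper137.KL

variable {ι : Type*} [Fintype ι] [DecidableEq ι]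

/-- Two pairs of positively proportional coordinates, ten coordinates, dimension four. -/
theorem two4 (L : Submodule ℝ (ι → ℝ)) (hL : ∀ y ∈ L, ∑ i, y i = 0)
    (hnl : ∀ i, ∃ y ∈ L, y i ≠ 0)
    (hmd : ∀ z ∈ L, ∀ P : Finset ι, P.card ≤ 3 + 1 → (∀ i, i ∉ P → z i = 0) → z = 0)
    (hl : finrank ℝ L = 4) (hn : Fintype.card ι = 10)
    (i1 j1 i2 j2 : ι) (hd : ({i1, j1, i2, j2} : Finset ι).card = 4)
    (c1 c2 : ℝ) (hc1 : 0 < c1) (hc2 : 0 < c2)
    (par1 : ∀ y ∈ L, y j1 = c1 * y i1) (par2 : ∀ y ∈ L, y j2 = c2 * y i2) :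
    ∃ y ∈ L, (∀ i, y i ≠ 0) ∧ (finrank ℝ L : ℤ) + (3 : ℕ) + 1 ≤ rk L (pos y) + rk L (neg y) := by
  classical
  suffices hfull : ∃ y ∈ L, Full L y by
    obtain ⟨y, hy, hF1, hF2⟩ := hfull
    exact Pool.Agent.Helper137.IB.finish L L le_rfl 3 (by omega) hnl y hy hF1 hF2
  set X : Finset ι := univ \ {i1, j1, i2, j2} with hX
  have hXc : X.card = 6 := by
    rw [hX, card_sdiff_of_subset (subset_univ _), hd, card_univ, hn]
  have hXm : ∀ x, x ∈ X ↔ x ≠ i1 ∧ x ≠ j1 ∧ x ≠ i2 ∧ x ≠ j2 := by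
    intro x
    simp [hX]
  -- two zeros in X kill elements with zero i1, i2
  have hF : ∀ w ∈ L, w i1 = 0 → w i2 = 0 → ∀ a ∈ X, ∀ b ∈ X, a ≠ b → w a = 0 → w b = 0 → w = 0 := by
    intro w hw w1 w2 a ha b hb hab wa wb
    apply hmd w hw ((X.erase a).erase b)
    · rw [card_erase_of_mem, card_erase_of_mem ha, hXc]
      rw [mem_erase]; exact ⟨hab.symm, hb⟩
    · intro x hx
      by_cases hxX : x ∈ X
      · rw [mem_erase, mem_erase] at hx
        by_cases hxb : x = b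
        · rw [hxb]; exact wb
        · by_cases hxa : x = a
          · rw [hxa]; exact wa
          · exact absurd ⟨hxb, hxa, hxX⟩ hx
      · rw [hXm] at hxX
        by_cases e1 : x = i1
        · rw [e1]; exact w1
        by_cases e2 : x = j1
        · rw [e2, par1 w hw, w1, mul_zero]
        by_cases e3 : x = i2
        · rw [e3]; exact w2
        by_cases e4 : x = j2
        · rw [e4, par2 w hw, w2, mul_zero]
        · exact absurd ⟨e1, e2, e3, e4⟩ hxX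
  have hLz1 : ∀ (P : Finset ι) (x : ι), finrank ℝ (Lz L P) ≤ finrank ℝ (Lz L (insert x P)) + 1 := by
    intro P x
    have := rk_insert_le L P x
    simp only [rk] at this
    omega
  set L0 := Lz L {i2, i1} with hL0
  have h0 : ∀ w, w ∈ L0 ↔ w ∈ L ∧ w i1 = 0 ∧ w i2 = 0 := by
    intro w
    rw [hL0, mem_Lz]
    simp only [mem_insert, mem_singleton, forall_eq_or_imp, forall_eq]
    tauto
  have hd0 : 2 ≤ finrank ℝ L0 := by
    have u1 := hLz1 ∅ i1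
    have u2 := hLz1 {i1} i2
    have e1 : (insert i1 ∅ : Finset ι) = {i1} := by ext z; simp
    rw [e1, Lz_empty] at u1
    have e5 : finrank ℝ L0 = finrank ℝ (Lz L {i2, i1}) := rfl
    omega
  obtain ⟨x1, hx1⟩ : X.Nonempty := card_pos.mp (by omega)
  obtain ⟨x2, hx2⟩ : (X.erase x1).Nonempty := card_pos.mp (by rw [card_erase_of_mem hx1]; omega)
  have hx2' := mem_erase.mp hx2
  have hd0' : finrank ℝ L0 = 2 := by
    apply le_antisymm _ hd0
    have u1 := hLz1 {i2, i1} x1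
    have u2 := hLz1 (insert x1 {i2, i1}) x2
    have : Lz L (insert x2 (insert x1 {i2, i1})) = ⊥ := by
      rw [eq_bot_iff]
      rintro w ⟨hw, hw0⟩
      rw [Submodule.mem_bot]
      exact hF w hw (hw0 _ (by simp)) (hw0 _ (by simp)) x1 hx1 x2 hx2'.2 (Ne.symm hx2'.1)
        (hw0 _ (by simp)) (hw0 _ (by simp))
    rw [this, finrank_bot] at u2
    have e5 : finrank ℝ L0 = finrank ℝ (Lz L {i2, i1}) := rfl
    omega
  -- coordinates in X are not loops on L0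
  have hnl0 : ∀ x ∈ X, ∃ v ∈ L0, v x ≠ 0 := by
    intro x hx
    by_contra hcon
    push Not at hcon
    obtain ⟨x', hx'⟩ : (X.erase x).Nonempty := card_pos.mp (by rw [card_erase_of_mem hx]; omega)
    have hx'' := mem_erase.mp hx'
    have u1 := hLz1 {i2, i1} x'
    have : Lz L (insert x' {i2, i1}) = ⊥ := by
      rw [eq_bot_iff]
      rintro w ⟨hw, hw0⟩
      rw [Submodule.mem_bot]
      have hwL0 : w ∈ L0 := (h0 w).mpr ⟨hw, hw0 _ (by simp), hw0 _ (by simp)⟩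
      exact hF w hw (hw0 _ (by simp)) (hw0 _ (by simp)) x hx x' hx''.2 (Ne.symm hx''.1)
        (hcon w hwL0) (hw0 _ (by simp))
    rw [this, finrank_bot] at u1
    have e5 : finrank ℝ L0 = finrank ℝ (Lz L {i2, i1}) := rfl
    omega
  obtain ⟨e, he, -, he2⟩ := KL.perturb L0 0 L0.zero_mem
    (X.image (fun x => (LinearMap.proj x : (ι → ℝ) →ₗ[ℝ] ℝ))) (by
      intro g hg
      obtain ⟨x, hx, rfl⟩ := mem_image.mp hg
      exact hnl0 x hx)
  have heX : ∀ x ∈ X, e x ≠ 0 := fun x hx => he2 _ (mem_image_of_mem _ hx)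
  have hene : e ≠ 0 := by
    intro h
    exact heX x1 hx1 (by rw [h]; rfl)
  obtain ⟨f, hf, hfe⟩ : ∃ f ∈ L0, ∀ t : ℝ, f ≠ t • e := by
    by_contra hcon
    push Not at hcon
    have : L0 ≤ ℝ ∙ e := by
      intro w hw
      obtain ⟨t, ht⟩ := hcon w hw
      rw [Submodule.mem_span_singleton]
      exact ⟨t, ht.symm⟩
    have h2 := Submodule.finrank_mono this
    rw [finrank_span_singleton hene] at h2
    omega
  have hef : ∀ a b : ℝ, a • e + b • f = 0 → a = 0 ∧ b = 0 := by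
    intro a b hab
    have hb : b = 0 := by
      by_contra hb
      apply hfe (-(a / b))
      have : f = b⁻¹ • (b • f) := by rw [smul_smul, inv_mul_cancel₀ hb, one_smul]
      rw [this, eq_neg_of_add_eq_zero_right hab, smul_neg, smul_smul, neg_smul, div_eq_inv_mul]
    refine ⟨?_, hb⟩
    rw [hb, zero_smul, add_zero] at hab
    exact (smul_eq_zero.mp hab).resolve_right hene
  have he' := (h0 e).mp he
  have hf' := (h0 f).mp hf
  obtain ⟨t, ht0, ht3⟩ := bal X hXc e f heX (by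
    intro x hx x' hx' hxx heq
    apply hfe (f x / e x)
    have hex := heX x hx
    have := hF (f - (f x / e x) • e) (L.sub_mem hf'.1 (L.smul_mem _ he'.1))
      (by simp [hf'.2.1, he'.2.1]) (by simp [hf'.2.2, he'.2.2]) x hx x' hx' hxx
      (by simp [hex]) (by
        simp only [Pi.sub_apply, Pi.smul_apply, smul_eq_mul]
        field_simp
        linarith)
    exact sub_eq_zero.mp this)
  set y0 : ι → ℝ := f - t • e with hy0
  have hy0L : y0 ∈ L := L.sub_mem hf'.1 (L.smul_mem _ he'.1)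
  have hy0v : ∀ x, y0 x = f x - t * e x := fun x => rfl
  obtain ⟨p1, p2, p3, hp12, hp13, hp23, hP⟩ := card_eq_three.mp ht3
  have hQc : (X \ ({p1, p2, p3} : Finset ι)).card = 3 := by
    rw [← hP, card_sdiff_of_subset (filter_subset _ _), ht3, hXc]
  obtain ⟨q1, q2, q3, hq12, hq13, hq23, hQ⟩ := card_eq_three.mp hQc
  have hpm : ∀ x ∈ ({p1, p2, p3} : Finset ι), x ∈ X ∧ 0 < y0 x := by
    intro x hx
    rw [← hP, mem_filter] at hx
    exact hx
  have hqm : ∀ x ∈ ({q1, q2, q3} : Finset ι), x ∈ X ∧ y0 x < 0 := by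
    intro x hx
    rw [← hQ, mem_sdiff, ← hP, mem_filter] at hx
    refine ⟨hx.1, ?_⟩
    have h1 := hx.2
    push Not at h1
    exact lt_of_le_of_ne (h1 hx.1) (ht0 x hx.1)
  have hH : H L i1 j1 i2 j2 p1 p2 p3 q1 q2 q3 c1 c2 := by
    have hall : ∀ x, x = i1 ∨ x = j1 ∨ x = i2 ∨ x = j2 ∨ x = p1 ∨ x = p2 ∨ x = p3 ∨ x = q1 ∨
        x = q2 ∨ x = q3 := by
      intro x
      by_cases hxX : x ∈ X
      · by_cases hxP : x ∈ ({p1, p2, p3} : Finset ι)
        · simp only [mem_insert, mem_singleton] at hxP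
          tauto
        · have : x ∈ ({q1, q2, q3} : Finset ι) := by
            rw [← hQ, mem_sdiff]; exact ⟨hxX, hxP⟩
          simp only [mem_insert, mem_singleton] at this
          tauto
      · rw [hXm] at hxX
        tauto
    refine ⟨hall, ?_, ?_, hc1, hc2, par1, par2, hl⟩
    · intro y hy
      have hs := hL y hy
      have e1 : ∑ x, y x = ∑ x ∈ ({i1, j1, i2, j2} : Finset ι), y x + ∑ x ∈ X, y x := by
        rw [hX, add_comm, Finset.sum_sdiff (subset_univ _)]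
      have e2 : ∑ x ∈ X, y x = ∑ x ∈ ({p1, p2, p3} : Finset ι), y x +
          ∑ x ∈ ({q1, q2, q3} : Finset ι), y x := by
        rw [← hQ, add_comm, Finset.sum_sdiff]
        intro x hx
        exact (hpm x hx).1
      have hq1j1 : i1 ∉ ({j1, i2, j2} : Finset ι) := by
        intro hcon
        rw [insert_eq_of_mem hcon] at hd
        have := card_le_three (a := j1) (b := i2) (c := j2)
        omega
      have hd2 : ({j1, i2, j2} : Finset ι).card = 3 := by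
        rw [card_insert_of_notMem hq1j1] at hd
        omega
      have hq2 : j1 ∉ ({i2, j2} : Finset ι) := by
        intro hcon
        rw [insert_eq_of_mem hcon] at hd2
        have := card_le_two (a := i2) (b := j2)
        omega
      have hd3 : ({i2, j2} : Finset ι).card = 2 := by
        rw [card_insert_of_notMem hq2] at hd2
        omega
      have hq3 : i2 ≠ j2 := by
        intro hcon
        rw [hcon] at hd3
        simp at hd3
      have e3 : ∑ x ∈ ({i1, j1, i2, j2} : Finset ι), y x = y i1 + (y j1 + (y i2 + y j2)) := by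
        rw [sum_insert hq1j1, sum_insert hq2, sum_pair hq3]
      have e4 : ∑ x ∈ ({p1, p2, p3} : Finset ι), y x = y p1 + (y p2 + y p3) := by
        rw [sum_insert (by simp [hp12, hp13]), sum_pair hp23]
      have e5 : ∑ x ∈ ({q1, q2, q3} : Finset ι), y x = y q1 + (y q2 + y q3) := by
        rw [sum_insert (by simp [hq12, hq13]), sum_pair hq23]
      rw [e1, e2, e3, e4, e5] at hs
      linarith
    · intro z hz a b c d hz0
      apply hmd z hz {a, b, c, d} (card_le_four)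
      intro x hx
      simp only [mem_insert, mem_singleton, not_or] at hx
      exact hz0 x hx.1 hx.2.1 hx.2.2.1 hx.2.2.2
  -- the interpolating element
  obtain ⟨u, hu, -, hu2⟩ := interp L ∅ {i2, i1} (by
    rw [empty_union, rk_empty]
    have : (({i2, i1} : Finset ι).card : ℤ) ≤ 2 := by exact_mod_cast card_le_two
    have h5 : rk L {i2, i1} = 2 := by
      unfold rk
      rw [← hL0, hd0', hl]
      norm_num
    rw [h5]
    linarith) (fun x => if x = i1 then 1 else -1)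
  have hi12 : i2 ≠ i1 := by
    intro hcon
    rw [hcon] at hd
    have : ({i1, j1, i1, j2} : Finset ι) = {i1, j1, j2} := by
      ext x; simp only [mem_insert, mem_singleton]; tauto
    rw [this] at hd
    have := card_le_three (a := i1) (b := j1) (c := j2)
    omega
  have hu1 : u i1 = 1 := by rw [hu2 i1 (by simp)]; simp
  have hu2' : u i2 = -1 := by rw [hu2 i2 (by simp)]; simp [hi12]
  exact allcases L i1 j1 i2 j2 p1 p2 p3 q1 q2 q3 c1 c2 hH y0 hy0L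
    (by simp [hy0v, hf'.2.1, he'.2.1]) (by simp [hy0v, hf'.2.2, he'.2.2])
    (hpm p1 (by simp)).2 (hpm p2 (by simp)).2 (hpm p3 (by simp)).2
    (hqm q1 (by simp)).2 (hqm q2 (by simp)).2 (hqm q3 (by simp)).2
    u hu hu1 hu2' e f he'.1 hf'.1 he'.2.1 he'.2.2 hf'.2.1 hf'.2.2 hef


end Two


section Geo

open Finset Module

variable {E : Type} [NormedAddCommGroup E] [NormedSpace ℝ E] [FiniteDimensional ℝ E] [DecidableEq E]

open Pool.Agent.Helper137.Core Pool.Agent.Helper137.KL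
open Pool.Agent.Helper137.Dep Pool.Agent.Helper137.Rec

/-- The recursion for `k = 3`. -/
theorem rec3 : ∀ n : ℕ, ∀ S : Finset E, S.card = n → KIndep 3 S →
    4 ≤ finrank ℝ (dep S) → S.card ≤ 2 * finrank ℝ (dep S) + 2 → Div2 3 S := by
  classical
  intro n
  induction n using Nat.strong_induction_on with
  | _ n ih =>
  intro S hSn hS hl hn
  have hmd := hmd_of_KIndep 3 S hS
  by_cases hsmall : S.card ≤ 2 * finrank ℝ (dep S) + 1
  · exact Pool.Agent.Helper137.IB.recD 3 (by omega) _ S rfl hS hl hsmall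
  have hLz1 : ∀ x : S, finrank ℝ (dep S) ≤ finrank ℝ (Lz (dep S) {x}) + 1 := by
    intro x
    have := rk_insert_le (dep S) ∅ x
    have e1 : (insert x ∅ : Finset S) = {x} := by ext z; simp
    rw [rk_empty, e1] at this
    simp only [rk] at this
    omega
  by_cases hnl : ∀ i : S, ∃ y ∈ dep S, y i ≠ 0
  swap
  · push Not at hnl
    obtain ⟨i, hi⟩ := hnl
    have h1 : dep S ≤ Lz (dep S) {i} := by
      intro y hy
      refine ⟨hy, ?_⟩
      intro j hj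
      rw [mem_singleton] at hj
      rw [hj]; exact hi y hy
    have h2 := Submodule.finrank_mono h1
    have h3 := finrank_sub S {i}
    have h4 : (S \ pts S {i}).card + 1 = S.card := by
      have : pts S {i} = {(i : E)} := by simp [pts]
      rw [this, card_sdiff_of_subset (by simp)]
      have : 0 < S.card := card_pos.mpr ⟨i, i.2⟩
      simp only [card_singleton]
      omega
    exact Div2.mono (ih (S \ pts S {i}).card (by omega) _ rfl (hS.mono sdiff_subset) (by omega)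
      (by omega)) sdiff_subset
  by_cases hdist : ∀ i j : S, i ≠ j → ∀ c : ℝ, 0 < c → ∃ y ∈ dep S, y j ≠ c * y i
  · obtain ⟨y, hy, hnz, hr⟩ := Pool.Agent.Helper137.IB.simple_case (dep S) 3 hnl hdist hmd hl
    exact geoDim S 3 (by omega) y hy hnz hr
  push Not at hdist
  obtain ⟨i, j, hij, c, hc, hpar⟩ := hdist
  have h1 : Lz (dep S) {i} ≤ Lz (dep S) {i, j} := by
    intro y hy
    refine ⟨hy.1, ?_⟩
    intro x hx
    have hyi : y i = 0 := hy.2 i (mem_singleton_self _)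
    rw [mem_insert, mem_singleton] at hx
    rcases hx with rfl | rfl
    · exact hyi
    · rw [hpar y hy.1, hyi, mul_zero]
  have h2 := Submodule.finrank_mono h1
  have h3 := finrank_sub S {i, j}
  have h5 := hLz1 i
  have hpts : pts S {i, j} = {(i : E), (j : E)} := by simp [pts]
  have hijE : (i : E) ≠ j := fun h => hij (Subtype.ext h)
  have h4 : (S \ pts S {i, j}).card + 2 = S.card := by
    rw [hpts, card_sdiff_of_subset (by
      intro x hx
      rw [mem_insert, mem_singleton] at hx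
      rcases hx with rfl | rfl
      · exact i.2
      · exact j.2), card_pair hijE]
    have : 1 < S.card := one_lt_card.mpr ⟨i, i.2, j, j.2, hijE⟩
    omega
  by_cases hl2 : 5 ≤ finrank ℝ (dep S)
  · exact Div2.mono (ih (S \ pts S {i, j}).card (by omega) _ rfl (hS.mono sdiff_subset) (by omega)
      (by omega)) sdiff_subset
  have hl4 : finrank ℝ (dep S) = 4 := by omega
  have hn10 : S.card = 10 := by omega
  have hL : ∀ y ∈ dep S, ∑ i, y i = 0 := fun y hy => ((mem_dep S y).mp hy).1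
  -- the class of `i`
  set C : Finset S := univ.filter (fun x => ∃ c : ℝ, 0 < c ∧ ∀ y ∈ dep S, y x = c * y i) with hC
  have hCm : ∀ x, x ∈ C ↔ ∃ c : ℝ, 0 < c ∧ ∀ y ∈ dep S, y x = c * y i := by
    intro x; simp [hC]
  have hiC : i ∈ C := (hCm i).mpr ⟨1, one_pos, fun y _ => by ring⟩
  by_cases hd2 : ∀ a b, (a ∈ C → a = i) → (b ∈ C → b = i) → a ≠ b → ∀ c : ℝ, 0 < c →
      ∃ y ∈ dep S, y b ≠ c * y a
  · obtain ⟨y, hy, hnz, hr⟩ := heavyC (dep S) hL 3 hnl hmd (by omega) i C hiC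
      (fun x hx => (hCm x).mp hx) hd2
    exact geoDim S 3 (by omega) y hy hnz hr
  push Not at hd2
  obtain ⟨a, b, ha, hb, hab, c', hc', hpar'⟩ := hd2
  have haC : a ∉ C := by
    intro haC
    have hai := ha haC
    have hbC : b ∈ C := (hCm b).mpr ⟨c', hc', fun y hy => by rw [hpar' y hy, hai]⟩
    exact hab (hai.trans (hb hbC).symm)
  have hbC : b ∉ C := by
    intro hbC
    obtain ⟨c'', hc'', h6⟩ := (hCm b).mp hbC
    apply haC
    rw [hCm]
    refine ⟨c'' / c', div_pos hc'' hc', fun y hy => ?_⟩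
    have h7 := hpar' y hy
    rw [h6 y hy] at h7
    field_simp
    linarith
  have hjC : j ∈ C := (hCm j).mpr ⟨c, hc, hpar⟩
  have hd4 : ({i, j, a, b} : Finset S).card = 4 := by
    rw [card_insert_of_notMem, card_insert_of_notMem, card_insert_of_notMem, card_singleton]
    · rw [mem_singleton]; exact hab
    · rw [mem_insert, mem_singleton]
      rintro (h | h)
      · exact haC (h ▸ hjC)
      · exact hbC (h ▸ hjC)
    · rw [mem_insert, mem_insert, mem_singleton]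
      rintro (h | h | h)
      · exact hij h
      · exact haC (h ▸ hiC)
      · exact hbC (h ▸ hiC)
  obtain ⟨y, hy, hnz, hr⟩ := two4 (dep S) hL hnl hmd hl4 (by rw [Fintype.card_coe]; exact hn10)
    i j a b hd4 c c' hc hc' hpar hpar'
  exact geoDim S 3 (by omega) y hy hnz hr

/-- Upper bound for `k = 3`. -/
theorem upper3 (d : ℕ) (hd : 5 ≤ d) (hE : finrank ℝ E = d) (S : Finset E)
    (hS : KIndep 3 S) (hc : 2 * d ≤ S.card) : Div2 3 S := by
  obtain ⟨T, hT, hTc⟩ := exists_subset_card_eq hc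
  refine Div2.mono ?_ hT
  have hdim : T.card ≤ finrank ℝ (dep T) + (d + 1) := by
    have h1 := LinearMap.finrank_range_add_finrank_ker (depMap T)
    have h2 : finrank ℝ (LinearMap.range (depMap T)) ≤ finrank ℝ (ℝ × E) :=
      Submodule.finrank_le _
    rw [Module.finrank_prod, finrank_self, hE] at h2
    have h3 : finrank ℝ (T → ℝ) = T.card := by
      rw [Module.finrank_fintype_fun_eq_card, Fintype.card_coe]
    rw [h3] at h1
    change T.card ≤ finrank ℝ (LinearMap.ker (depMap T)) + (d + 1)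
    omega
  exact rec3 _ T rfl (hS.mono hT) (by omega) (by omega)

end Geo


end Pool.Agent.Helper137.IC
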